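import Pool.Agent.R671.IS.Glue

open Module
namespace Pool.Agent.R671.IS

section one

variable (D : Type) [CommRing D] (π : D) [Unif D π]

/-- Every submodule of a free module of rank `d` has a type. -/
theorem hasTy_ty (r d : ℕ) (U : Submodule D (RD D π r d)) : HasTy D π U (ty D π d r U) := by
  have h : ∃ l : Ty d r, HasTy D π U l := by
    let e := freeEquiv D π d r d le_rfl
    obtain ⟨l, ⟨f⟩⟩ := exists_ty_sub D π (top d r d) (U.map (e : RD D π r d →ₗ[D] _))
    exact ⟨l, ⟨(e.submoduleMap U).trans f⟩⟩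
  unfold ty
  rw [dif_pos h]
  exact h.choose_spec

theorem ty_eq_iff (r d : ℕ) (U : Submodule D (RD D π r d)) (κ : Ty d r) :
    ty D π d r U = κ ↔ HasTy D π U κ := by
  constructor
  · rintro rfl
    exact hasTy_ty D π r d U
  · rintro ⟨e⟩
    obtain ⟨f⟩ := hasTy_ty D π r d U
    exact ty_unique D π _ _ ⟨f.symm.trans e⟩

theorem card_hom_eq (r d : ℕ) (U : Submodule D (RD D π r d)) (l : Ty d r) :
    Nat.card (EM D π l →ₗ[D] U) = hom D π l (ty D π d r U) := by
  obtain ⟨f⟩ := hasTy_ty D π r d U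
  unfold hom
  exact Nat.card_congr (LinearEquiv.congrRight f).toEquiv

instance finite_FS (r d n : ℕ) : Finite (FS D π r d n) := by
  have : Finite (Submodule D (RD D π r d)) :=
    Finite.of_injective (fun S => (S : Set (RD D π r d))) SetLike.coe_injective
  infer_instance

theorem ty_inf_top (r d n : ℕ) (hn : n ≤ d) (W W' : FS D π r d n) :
    ty D π d r ↥(W.1 ⊓ W'.1) = top d r n ↔ W = W' := by
  rw [ty_eq_iff, hasTy_top_iff D π d r n hn]
  constructor
  · rintro ⟨e⟩
    obtain ⟨f⟩ := W.2
    obtain ⟨f'⟩ := W'.2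
    have h1 : W.1 ⊓ W'.1 = W.1 := by
      have hfin : Finite W.1 := inferInstance
      apply Submodule.toAddSubgroup_injective
      refine AddSubgroup.eq_of_le_of_card_ge ?_ ?_
      · exact fun x hx => hx.1
      · exact (Nat.card_congr ((f.trans e.symm).toEquiv)).le
    have h2 : W.1 ⊓ W'.1 = W'.1 := by
      have hfin : Finite W'.1 := inferInstance
      apply Submodule.toAddSubgroup_injective
      refine AddSubgroup.eq_of_le_of_card_ge ?_ ?_
      · exact fun x hx => hx.2
      · exact (Nat.card_congr ((f'.trans e.symm).toEquiv)).le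
    exact Subtype.ext (h1.symm.trans h2)
  · rintro rfl
    rw [inf_idem]
    exact W.2

open Classical in
/-- The incidence matrix. -/
noncomputable def inc (r d m n : ℕ) : Matrix (FS D π r d m) (FS D π r d n) ℝ :=
  Matrix.of fun V W => if V.1 ≤ W.1 then 1 else 0

theorem inc_mul (r d m n : ℕ) (hm : m ≤ d) [Fintype (FS D π r d m)] (W W' : FS D π r d n) :
    ((inc D π r d m n).transpose * inc D π r d m n) W W' =
      (sub D π (top d r m) (ty D π d r ↥(W.1 ⊓ W'.1)) : ℝ) := by
  classical
  rw [← card_under D π r d m hm (W.1 ⊓ W'.1) _ (hasTy_ty D π r d _), Matrix.mul_apply]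
  have h1 : ∀ V : FS D π r d m, (inc D π r d m n).transpose W V * inc D π r d m n V W' =
      if V.1 ≤ W.1 ⊓ W'.1 then 1 else 0 := by
    intro V
    simp only [Matrix.transpose_apply, inc, Matrix.of_apply, le_inf_iff]
    by_cases a : V.1 ≤ W.1 <;> by_cases b : V.1 ≤ W'.1 <;> simp [a, b]
  rw [Finset.sum_congr rfl fun V _ => h1 V, Finset.sum_boole, Nat.card_eq_fintype_card,
    Fintype.card_subtype]

end one

theorem trace_eq (D : Type) [CommRing D] (π : D) [Unif D π] (D' : Type) [CommRing D']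
    (π' : D') [Unif D' π'] (hq : qq D π = qq D' π') (r d m n : ℕ) (hm : m ≤ d) (hn : n ≤ d)
    [Fintype (FS D π r d m)] [Fintype (FS D π r d n)] [Fintype (FS D' π' r d m)]
    [Fintype (FS D' π' r d n)] [DecidableEq (FS D π r d n)] [DecidableEq (FS D' π' r d n)]
    (k : ℕ) :
    (((inc D π r d m n).transpose * inc D π r d m n) ^ k).trace =
      (((inc D' π' r d m n).transpose * inc D' π' r d m n) ^ k).trace := by
  classical
  let H : Ty d r → Ty d r → ℝ := fun l κ => (hom D π l κ : ℝ)
  have hH' : ∀ l κ, H l κ = (hom D' π' l κ : ℝ) := by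
    intro l κ
    simp only [H]
    rw [card_hom, card_hom, hq]
  let t : Ty d r → ℝ := fun κ => (sub D π (top d r m) κ : ℝ)
  have ht' : ∀ κ, t κ = (sub D' π' (top d r m) κ : ℝ) := by
    intro κ
    simp only [t]
    rw [(ldu D π D' π' hq (top d r m) κ).2.1]
  let τ : FS D π r d n → FS D π r d n → Ty d r := fun W W' => ty D π d r ↥(W.1 ⊓ W'.1)
  let τ' : FS D' π' r d n → FS D' π' r d n → Ty d r := fun W W' => ty D' π' d r ↥(W.1 ⊓ W'.1)
  have key := LA size H (top d r n) (FS D π r d n) (FS D' π' r d n) τ τ'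
    (fun a b => by simp only [τ]; rw [inf_comm])
    (fun a b => by simp only [τ']; rw [inf_comm])
    (fun a b => ty_inf_top D π r d n hn a b)
    (fun a b => ty_inf_top D' π' r d n hn a b)
    (fun κ => by
      have h := Glue.T_universal D π D' π' hq r d n hn κ
      simp only [τ, τ', ty_eq_iff]
      exact h)
    (fun t => by
      obtain ⟨a, ha⟩ := hom_span D π t
      exact ⟨a, ha⟩)
    (fun t l => by
      obtain ⟨a, ha, hb⟩ := Glue.IDL D π r d n t l
      refine ⟨a, ha, fun x z => ?_⟩
      have h := hb x z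
      simp only [card_hom_eq] at h
      exact h)
    (fun t l => by
      obtain ⟨a, ha, hb⟩ := Glue.IDL D' π' r d n t l
      refine ⟨a, ha, fun x z => ?_⟩
      have h := hb x z
      simp only [card_hom_eq] at h
      simp only [hH']
      exact h)
    t k
  have e1 : (inc D π r d m n).transpose * inc D π r d m n = Matrix.of fun x y => t (τ x y) := by
    ext W W'
    rw [inc_mul D π r d m n hm]
    rfl
  have e2 : (inc D' π' r d m n).transpose * inc D' π' r d m n =
      Matrix.of fun x y => t (τ' x y) := by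
    ext W W'
    rw [inc_mul D' π' r d m n hm, Matrix.of_apply, ht']
  rw [e1, e2]
  exact key

theorem charpoly_eq (D : Type) [CommRing D] (π : D) [Unif D π] (D' : Type) [CommRing D']
    (π' : D') [Unif D' π'] (hq : qq D π = qq D' π') (r d m n : ℕ) (hm : m ≤ d) (hn : n ≤ d)
    [Fintype (FS D π r d m)] [Fintype (FS D π r d n)] [Fintype (FS D' π' r d m)]
    [Fintype (FS D' π' r d n)] [DecidableEq (FS D π r d n)] [DecidableEq (FS D' π' r d n)]
    [DecidableEq (FS D π r d m)] [DecidableEq (FS D' π' r d m)] :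
    (Matrix.fromBlocks 0 (inc D π r d m n) (inc D π r d m n).transpose 0).charpoly =
      (Matrix.fromBlocks 0 (inc D' π' r d m n) (inc D' π' r d m n).transpose 0).charpoly := by
  refine charpoly_bip _ _ ?_ ?_ (fun k => trace_eq D π D' π' hq r d m n hm hn k)
  · rw [← Nat.card_eq_fintype_card, ← Nat.card_eq_fintype_card]
    exact Glue.card_FS_universal D π D' π' hq r d m hm
  · rw [← Nat.card_eq_fintype_card, ← Nat.card_eq_fintype_card]
    exact Glue.card_FS_universal D π D' π' hq r d n hn

open Classical in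
/-- The adjacency matrix of the graph over a ring `R ≅ D / (π ^ r)`. -/
theorem adj_charpoly (D : Type) [CommRing D] (π : D) [Unif D π] (R : Type) [CommRing R] (r : ℕ)
    (e : R ≃+* (D ⧸ Ideal.span {π ^ r})) (d m n : ℕ)
    [Fintype (FS D π r d m)] [Fintype (FS D π r d n)] :
    ∃ (_ : Fintype (FreeSub R d m ⊕ FreeSub R d n)), ((incGraph R d m n).adjMatrix ℝ).charpoly =
      (Matrix.fromBlocks 0 (inc D π r d m n) (inc D π r d m n).transpose 0).charpoly := by
  obtain ⟨φ, hφ⟩ := transfer D π R r e d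
  let Φ : (FreeSub R d m ⊕ FreeSub R d n) ≃ (FS D π r d m ⊕ FS D π r d n) :=
    Equiv.sumCongr (φ m) (φ n)
  have hF : Fintype (FreeSub R d m ⊕ FreeSub R d n) := Fintype.ofEquiv _ Φ.symm
  refine ⟨hF, ?_⟩
  have h1 : (Matrix.fromBlocks 0 (inc D π r d m n) (inc D π r d m n).transpose 0) =
      Matrix.reindex Φ Φ ((incGraph R d m n).adjMatrix ℝ) := by
    ext x y
    rw [Matrix.reindex_apply, Matrix.submatrix_apply, SimpleGraph.adjMatrix_apply]
    rcases x with V | W <;> rcases y with V' | W'
    · simp [Φ, incGraph]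
    · have h2 := hφ m n ((φ m).symm V) ((φ n).symm W')
      simp only [Equiv.apply_symm_apply] at h2
      simp only [Φ, incGraph, Matrix.fromBlocks_apply₁₂, inc, Matrix.of_apply,
        Equiv.sumCongr_symm, Equiv.sumCongr_apply, Sum.map_inl, Sum.map_inr]
      simp only [h2]
    · have h2 := hφ m n ((φ m).symm V') ((φ n).symm W)
      simp only [Equiv.apply_symm_apply] at h2
      simp only [Φ, incGraph, Matrix.fromBlocks_apply₂₁, inc, Matrix.of_apply,
        Matrix.transpose_apply, Equiv.sumCongr_symm, Equiv.sumCongr_apply, Sum.map_inl,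
        Sum.map_inr]
      simp only [h2]
    · simp [Φ, incGraph]
  rw [h1, Matrix.charpoly_reindex]

theorem chp_eq {V : Type} [Fintype V] (G : SimpleGraph V) (i i' : DecidableEq V)
    (j j' : DecidableRel G.Adj) :
    @Matrix.charpoly ℝ _ V i _ (@SimpleGraph.adjMatrix ℝ V G j _ _) =
      @Matrix.charpoly ℝ _ V i' _ (@SimpleGraph.adjMatrix ℝ V G j' _ _) := by
  obtain rfl : i = i' := Subsingleton.elim _ _
  obtain rfl : j = j' := Subsingleton.elim _ _
  rfl

theorem isospectral_of (D : Type) [CommRing D] (π : D) [Unif D π] (D' : Type) [CommRing D']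
    (π' : D') [Unif D' π'] (hq : qq D π = qq D' π') (r d m n : ℕ) (hm : m ≤ d) (hn : n ≤ d)
    (R : Type) [CommRing R] (R' : Type) [CommRing R']
    (e : R ≃+* (D ⧸ Ideal.span {π ^ r})) (e' : R' ≃+* (D' ⧸ Ideal.span {π' ^ r})) :
    Isospectral (incGraph R d m n) (incGraph R' d m n) := by
  classical
  have : Fintype (FS D π r d m) := Fintype.ofFinite _
  have : Fintype (FS D π r d n) := Fintype.ofFinite _
  have : Fintype (FS D' π' r d m) := Fintype.ofFinite _
  have : Fintype (FS D' π' r d n) := Fintype.ofFinite _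
  obtain ⟨F1, h1⟩ := adj_charpoly D π R r e d m n
  obtain ⟨F2, h2⟩ := adj_charpoly D' π' R' r e' d m n
  refine ⟨F1, F2, ?_⟩
  have h3 := h1.trans ((charpoly_eq D π D' π' hq r d m n hm hn).trans h2.symm)
  exact (chp_eq _ _ _ _ _).trans (h3.trans (chp_eq _ _ _ _ _))

theorem main (p : ℕ) [hp : Fact p.Prime] (r d m n : ℕ) (hm : m ≤ n) (hn : n ≤ d) :
    Isospectral (incGraph (ZMod (p ^ r)) d m n)
      (incGraph (Polynomial (ZMod p) ⧸ Ideal.span {(Polynomial.X : Polynomial (ZMod p)) ^ r}) d m n) := by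
  obtain ⟨U1, q1⟩ := unif_int p hp.out
  obtain ⟨U2, q2⟩ := unif_poly p
  obtain ⟨e⟩ := zmod_equiv p r
  exact isospectral_of ℤ (p : ℤ) (Polynomial (ZMod p)) Polynomial.X (q1.trans q2.symm) r d m n
    (hm.trans hn) hn _ _ e (RingEquiv.refl _)

end Pool.Agent.R671.IS
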