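import Mathlib

/-!
# MP_acbd57_co: isospectrality of free-submodule incidence graphs over chain rings — definitions

`D` is a commutative ring and `π` an element such that multiplication by `π` is injective and
`D / (π)` is a finite field (for instance `ℤ` and a prime, or `F_p[t]` and `t`).
-/

open Module

namespace Pool.Agent.R671.IS

/-- Multiplication by `π` is injective and `D / (π)` is a finite field. -/
class Unif (D : Type) [CommRing D] (π : D) : Prop where
  reg : ∀ x : D, π * x = 0 → x = 0
  max : (Ideal.span {π}).IsMaximal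
  fin : Finite (D ⧸ Ideal.span {π})

/-- The module `D / (π ^ j)`. -/
abbrev E (D : Type) [CommRing D] (π : D) (j : ℕ) : Type := D ⧸ Ideal.span {π ^ j}

/-- The residue order `q`. -/
noncomputable def qq (D : Type) [CommRing D] (π : D) : ℕ := Nat.card (D ⧸ Ideal.span {π})

instance finite_E (D : Type) [CommRing D] (π : D) [h : Unif D π] (j : ℕ) : Finite (E D π j) := by
  have := h.fin
  have h1 : Ideal.span {π ^ j} = (Ideal.span {π}) ^ j := (Ideal.span_singleton_pow π j).symm
  have h2 : Finite (D ⧸ (Ideal.span {π}) ^ j) :=
    Ideal.finite_quotient_pow ⟨{π}, by simp⟩ j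
  unfold E
  rw [h1]
  exact h2

/-- Types: weakly decreasing functions `Fin d → {0, …, r}`. -/
abbrev Ty (d r : ℕ) : Type := {l : Fin d → Fin (r + 1) // Antitone l}

noncomputable instance (d r : ℕ) : Fintype (Ty d r) := Fintype.ofFinite _

/-- The module of type `l`: the product of the `D / (π ^ l i)`. -/
abbrev EM (D : Type) [CommRing D] (π : D) {d r : ℕ} (l : Ty d r) : Type :=
  (i : Fin d) → E D π (l.1 i : ℕ)

/-- The size of a type. -/
def size {d r : ℕ} (l : Ty d r) : ℕ := ∑ i, (l.1 i : ℕ)

/-- `A` is isomorphic to the module of type `l`. -/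
def HasTy (D : Type) [CommRing D] (π : D) {d r : ℕ} (A : Type) [AddCommGroup A] [Module D A]
    (l : Ty d r) : Prop := Nonempty (A ≃ₗ[D] EM D π l)

/-- The type of the free module of rank `k`. -/
def top (d r k : ℕ) : Ty d r :=
  ⟨fun i => if (i : ℕ) < k then Fin.last r else 0, by
    intro i j hij
    have hij' : (i : ℕ) ≤ j := hij
    by_cases hj : (j : ℕ) < k
    · have hi : (i : ℕ) < k := by omega
      simp [hi, hj]
    · simp [hj]⟩

/-- `(D / (π ^ r)) ^ d`. -/
abbrev RD (D : Type) [CommRing D] (π : D) (r d : ℕ) : Type := Fin d → E D π r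

/-- The free submodules of rank `n` of `(D / (π ^ r)) ^ d`. -/
abbrev FS (D : Type) [CommRing D] (π : D) (r d n : ℕ) : Type :=
  {W : Submodule D (RD D π r d) // Nonempty (W ≃ₗ[D] (Fin n → E D π r))}

/-- The number of homomorphisms between modules of given types. -/
noncomputable def hom (D : Type) [CommRing D] (π : D) {d r : ℕ} (l m : Ty d r) : ℕ :=
  Nat.card (EM D π l →ₗ[D] EM D π m)

/-- The number of submodules of `EM l` with quotient of type `m`. -/
noncomputable def quo (D : Type) [CommRing D] (π : D) {d r : ℕ} (l m : Ty d r) : ℕ :=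
  Nat.card {K : Submodule D (EM D π l) // HasTy D π (EM D π l ⧸ K) m}

/-- The number of submodules of `EM m` of type `l`. -/
noncomputable def sub (D : Type) [CommRing D] (π : D) {d r : ℕ} (l m : Ty d r) : ℕ :=
  Nat.card {S : Submodule D (EM D π m) // HasTy D π S l}

/-- The number of automorphisms of `EM l`. -/
noncomputable def aut (D : Type) [CommRing D] (π : D) {d r : ℕ} (l : Ty d r) : ℕ :=
  Nat.card (EM D π l ≃ₗ[D] EM D π l)

open Classical in
/-- The type of a module (a chosen one; it is the type if there is one). -/
noncomputable def ty (D : Type) [CommRing D] (π : D) (d r : ℕ) (A : Type) [AddCommGroup A]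
    [Module D A] : Ty d r :=
  if h : ∃ l : Ty d r, HasTy D π A l then h.choose else top d r 0

/-! ### The graphs -/

/-- The free submodules of rank `k` of `R ^ d`. -/
abbrev FreeSub (R : Type) [CommRing R] (d k : ℕ) : Type :=
  {V : Submodule R (Fin d → R) // Nonempty (V ≃ₗ[R] (Fin k → R))}

/-- The bipartite graph of the free submodules of ranks `m` and `n` of `R ^ d`, ordered by
inclusion. -/
def incGraph (R : Type) [CommRing R] (d m n : ℕ) : SimpleGraph (FreeSub R d m ⊕ FreeSub R d n) where
  Adj x y := match x, y with
    | Sum.inl V, Sum.inr W => V.1 ≤ W.1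
    | Sum.inr W, Sum.inl V => V.1 ≤ W.1
    | _, _ => False
  symm := ⟨by
    rintro (V | W) (V' | W') h
    · exact h
    · exact h
    · exact h
    · exact h⟩
  loopless := ⟨by
    rintro (V | W) h
    · exact h
    · exact h⟩

open Classical in
/-- The vertex sets are finite and the adjacency matrices have the same characteristic polynomial,
i.e. the same eigenvalues with the same multiplicities. -/
def Isospectral {V V' : Type} (G : SimpleGraph V) (G' : SimpleGraph V') : Prop :=
  ∃ (_ : Fintype V) (_ : Fintype V'), (G.adjMatrix ℝ).charpoly = (G'.adjMatrix ℝ).charpoly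

end Pool.Agent.R671.IS
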