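import Pool.Agent.R671.IS.Defs

open Module
namespace Pool.Agent.R671.IS

variable (D : Type) [CommRing D] (π : D)

/-- Equal exponents give isomorphic modules. -/
noncomputable def castE {a b : ℕ} (h : a = b) : E D π a ≃ₗ[D] E D π b :=
  Submodule.quotEquivOfEq _ _ (by rw [h])

theorem subsingleton_E_zero : Subsingleton (E D π 0) := by
  unfold E
  rw [pow_zero, Ideal.span_singleton_one]
  exact Ideal.Quotient.subsingleton_iff.2 rfl

/-- The comparison map from a free module of rank `k` to the module of type `top d r k`. -/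
noncomputable def freeMap (d r k : ℕ) : (Fin k → E D π r) →ₗ[D] EM D π (top d r k) :=
  LinearMap.pi fun i =>
    if h : (i : ℕ) < k then
      (castE D π (show r = ((top d r k).1 i : ℕ) by simp [top, h])).toLinearMap.comp
        (LinearMap.proj (R := D) (φ := fun _ : Fin k => E D π r) ⟨i, h⟩)
    else 0

theorem freeMap_apply_lt (d r k : ℕ) (f : Fin k → E D π r) (i : Fin d) (h : (i : ℕ) < k) :
    freeMap D π d r k f i =
      castE D π (show r = ((top d r k).1 i : ℕ) by simp [top, h]) (f ⟨i, h⟩) := by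
  simp [freeMap, h]

theorem freeMap_bijective (d r k : ℕ) (hk : k ≤ d) : Function.Bijective (freeMap D π d r k) := by
  constructor
  · rw [injective_iff_map_eq_zero]
    intro f hf
    funext j
    have hj : ((⟨j, lt_of_lt_of_le j.2 hk⟩ : Fin d) : ℕ) < k := j.2
    have h1 := congrFun hf ⟨j, lt_of_lt_of_le j.2 hk⟩
    rw [freeMap_apply_lt D π d r k f _ hj] at h1
    exact (LinearEquiv.map_eq_zero_iff _).1 h1
  · intro g
    refine ⟨fun j => (castE D π (show r = ((top d r k).1 ⟨j, lt_of_lt_of_le j.2 hk⟩ : ℕ) by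
      simp [top])).symm (g ⟨j, lt_of_lt_of_le j.2 hk⟩), ?_⟩
    funext i
    by_cases h : (i : ℕ) < k
    · rw [freeMap_apply_lt D π d r k _ i h]
      exact LinearEquiv.apply_symm_apply _ _
    · have h0 : ((top d r k).1 i : ℕ) = 0 := by simp [top, h]
      have : Subsingleton (E D π ((top d r k).1 i : ℕ)) := by
        rw [h0]; exact subsingleton_E_zero D π
      exact Subsingleton.elim _ _

/-- A free module of rank `k ≤ d` has type `top d r k`. -/
noncomputable def freeEquiv (d r k : ℕ) (hk : k ≤ d) :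
    (Fin k → E D π r) ≃ₗ[D] EM D π (top d r k) :=
  LinearEquiv.ofBijective (freeMap D π d r k) (freeMap_bijective D π d r k hk)

theorem hasTy_top_iff (d r k : ℕ) (hk : k ≤ d) (A : Type) [AddCommGroup A] [Module D A] :
    HasTy D π A (top d r k) ↔ Nonempty (A ≃ₗ[D] (Fin k → E D π r)) :=
  ⟨fun ⟨e⟩ => ⟨e.trans (freeEquiv D π d r k hk).symm⟩,
    fun ⟨e⟩ => ⟨e.trans (freeEquiv D π d r k hk)⟩⟩

end Pool.Agent.R671.IS
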