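import Pool.Agent.R671.IS.Defs

/-!
# Piece I10: linear algebra
-/

set_option autoImplicit false
set_option linter.unusedSectionVars false

open Matrix

namespace Pool.Agent.R671.IS

namespace I10

/-- the matrix of the function `t` of the types -/
def Mt {L X : Type} (τ : X → X → L) (t : L → ℝ) : Matrix X X ℝ := Matrix.of fun x y => t (τ x y)

section
variable {L X : Type} [Fintype L] [DecidableEq L] [Fintype X] [DecidableEq X] (τ : X → X → L)

theorem Mt_add (t u : L → ℝ) : Mt τ (t + u) = Mt τ t + Mt τ u := rfl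

theorem Mt_sub (t u : L → ℝ) : Mt τ (t - u) = Mt τ t - Mt τ u := rfl

theorem Mt_smul (c : ℝ) (t : L → ℝ) : Mt τ (c • t) = c • Mt τ t := rfl

theorem Mt_zero : Mt τ 0 = 0 := rfl

theorem trace_mul (hs : ∀ a b, τ a b = τ b a) (t u : L → ℝ) :
    (Mt τ t * Mt τ u).trace = ∑ p : X × X, t (τ p.1 p.2) * u (τ p.1 p.2) := by
  rw [Fintype.sum_prod_type]
  unfold Matrix.trace
  refine Finset.sum_congr rfl fun x _ => ?_
  rw [Matrix.diag_apply, Matrix.mul_apply]
  refine Finset.sum_congr rfl fun y _ => ?_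
  change t (τ x y) * u (τ y x) = _
  rw [hs y x]

/-- the bilinear form -/
noncomputable def Bf (N : L → ℕ) (t u : L → ℝ) : ℝ := ∑ κ, (N κ : ℝ) * (t κ * u κ)

theorem Bf_add_left (N : L → ℕ) (t t' u : L → ℝ) : Bf N (t + t') u = Bf N t u + Bf N t' u := by
  unfold Bf
  rw [← Finset.sum_add_distrib]
  exact Finset.sum_congr rfl fun κ _ => by simp only [Pi.add_apply]; ring

theorem Bf_sub_left (N : L → ℕ) (t t' u : L → ℝ) : Bf N (t - t') u = Bf N t u - Bf N t' u := by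
  unfold Bf
  rw [← Finset.sum_sub_distrib]
  exact Finset.sum_congr rfl fun κ _ => by simp only [Pi.sub_apply]; ring

theorem Bf_smul_left (N : L → ℕ) (c : ℝ) (t u : L → ℝ) : Bf N (c • t) u = c * Bf N t u := by
  unfold Bf
  rw [Finset.mul_sum]
  exact Finset.sum_congr rfl fun κ _ => by simp only [Pi.smul_apply, smul_eq_mul]; ring

theorem Bf_comm (N : L → ℕ) (t u : L → ℝ) : Bf N t u = Bf N u t := by
  unfold Bf
  exact Finset.sum_congr rfl fun κ _ => by ring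

/-- the numbers of pairs -/
noncomputable def Nn (κ : L) : ℕ := Nat.card {p : X × X // τ p.1 p.2 = κ}

theorem trace_eq (hs : ∀ a b, τ a b = τ b a) (t u : L → ℝ) :
    (Mt τ t * Mt τ u).trace = Bf (Nn τ) t u := by
  rw [trace_mul τ hs]
  rw [← Fintype.sum_fiberwise (fun p : X × X => τ p.1 p.2)]
  unfold Bf Nn
  refine Finset.sum_congr rfl fun κ _ => ?_
  rw [Finset.sum_congr rfl (g := fun _ => t κ * u κ) (fun p _ => by rw [p.2])]
  rw [Finset.sum_const, Finset.card_univ, nsmul_eq_mul, Nat.card_eq_fintype_card]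

theorem Mt_eq_zero (hs : ∀ a b, τ a b = τ b a) (t : L → ℝ) (h : Bf (Nn τ) t t = 0) :
    Mt τ t = 0 := by
  rw [← trace_eq τ hs, trace_mul τ hs] at h
  have h1 := (Finset.sum_eq_zero_iff_of_nonneg (fun p _ => mul_self_nonneg _)).1 h
  ext x y
  have h2 := h1 (x, y) (Finset.mem_univ _)
  exact mul_self_eq_zero.1 h2

theorem Mt_one (tp : L) (ht : ∀ a b, τ a b = tp ↔ a = b) : Mt τ (Pi.single tp 1) = 1 := by
  ext x y
  change (Pi.single tp (1 : ℝ) : L → ℝ) (τ x y) = _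
  by_cases h : x = y
  · subst h
    rw [(ht x x).2 rfl]
    simp
  · have h1 : τ x y ≠ tp := fun h' => h ((ht x y).1 h')
    rw [Pi.single_eq_of_ne h1, Matrix.one_apply_ne h]

theorem proj_exists (hs : ∀ a b, τ a b = τ b a) (J : Submodule ℝ (L → ℝ)) (v : L → ℝ) :
    ∃ p ∈ J, ∀ j ∈ J, Bf (Nn τ) (v - p) j = 0 := by
  let Φ : (L → ℝ) →ₗ[ℝ] EuclideanSpace ℝ (X × X) :=
    ((WithLp.linearEquiv 2 ℝ (X × X → ℝ)).symm : (X × X → ℝ) →ₗ[ℝ] EuclideanSpace ℝ (X × X)) ∘ₗ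
      (LinearMap.funLeft ℝ ℝ (fun p : X × X => τ p.1 p.2))
  have hΦ : ∀ t p, Φ t p = t (τ p.1 p.2) := fun t p => rfl
  have hin : ∀ t u, inner ℝ (Φ t) (Φ u) = Bf (Nn τ) t u := by
    intro t u
    rw [← trace_eq τ hs, trace_mul τ hs, PiLp.inner_apply]
    refine Finset.sum_congr rfl fun p _ => ?_
    rw [hΦ, hΦ]
    simp [mul_comm]
  have hmem := (J.map Φ).starProjection_apply_mem (Φ v)
  obtain ⟨p, hp, hp'⟩ := Submodule.mem_map.1 hmem
  refine ⟨p, hp, fun j hj => ?_⟩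
  have h1 := (J.map Φ).sub_starProjection_mem_orthogonal (Φ v)
  rw [← hp', ← map_sub] at h1
  have h2 := (Submodule.mem_orthogonal' _ _).1 h1 (Φ j) (Submodule.mem_map_of_mem hj)
  rwa [hin] at h2

variable (s : L → ℕ) (H : L → L → ℝ)

/-- the ideals -/
def Jd (n : ℕ) : Submodule ℝ (L → ℝ) := Submodule.span ℝ {h | ∃ μ, s μ < n ∧ h = H μ}

variable (hs : ∀ a b, τ a b = τ b a)
    (hH : ∀ t : L → ℝ, ∃ a : L → ℝ, ∀ κ, t κ = ∑ l, a l * H l κ)
    (hid : ∀ (t : L → ℝ) (l : L), ∃ a : L → ℝ, (∀ ν, a ν ≠ 0 → ν = l ∨ s ν < s l) ∧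
      ∀ x z, ∑ y, t (τ x y) * H l (τ y z) = ∑ ν, a ν * H ν (τ x z))

include hH in
theorem span_top (p : (L → ℝ) → Prop) (h0 : ∀ l, p (H l)) (hz : p 0) (ha : ∀ t u, p t → p u → p (t + u))
    (hc : ∀ (c : ℝ) t, p t → p (c • t)) (t : L → ℝ) : p t := by
  obtain ⟨a, h⟩ := hH t
  have h1 : t = ∑ l, a l • H l := by
    funext κ
    rw [h κ, Finset.sum_apply]
    rfl
  rw [h1]
  refine Finset.sum_induction _ p ha hz fun l _ => hc _ _ (h0 l)

include hid in
theorem mul_H (t : L → ℝ) (l : L) : ∃ c : ℝ, ∃ w ∈ Jd s H (s l),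
    Mt τ t * Mt τ (H l) = Mt τ (c • H l + w) := by
  obtain ⟨a, ha, h⟩ := hid t l
  refine ⟨a l, ∑ ν ∈ Finset.univ.erase l, a ν • H ν, ?_, ?_⟩
  · refine Submodule.sum_mem _ fun ν hν => ?_
    by_cases h0 : a ν = 0
    · rw [h0, zero_smul]
      exact Submodule.zero_mem _
    · have h1 := (ha ν h0).resolve_left (Finset.ne_of_mem_erase hν)
      exact Submodule.smul_mem _ _ (Submodule.subset_span ⟨ν, h1, rfl⟩)
  · rw [Finset.add_sum_erase _ (fun ν => a ν • H ν) (Finset.mem_univ l)]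
    ext x z
    rw [Matrix.mul_apply]
    change ∑ y, t (τ x y) * H l (τ y z) = (∑ ν, a ν • H ν) (τ x z)
    rw [h x z, Finset.sum_apply]
    rfl

include hid in
theorem mul_J (t : L → ℝ) (n : ℕ) (j : L → ℝ) (hj : j ∈ Jd s H n) :
    ∃ w ∈ Jd s H n, Mt τ t * Mt τ j = Mt τ w := by
  unfold Jd at hj
  induction hj using Submodule.span_induction with
  | mem h hh =>
    obtain ⟨μ, hμ, rfl⟩ := hh
    obtain ⟨c, w, hw, h1⟩ := mul_H τ s H hid t μ
    refine ⟨_, Submodule.add_mem _ (Submodule.smul_mem _ c (Submodule.subset_span ⟨μ, hμ, rfl⟩))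
      ?_, h1⟩
    refine Submodule.span_mono ?_ hw
    rintro _ ⟨ν, hν, rfl⟩
    exact ⟨ν, hν.trans hμ, rfl⟩
  | zero => exact ⟨0, Submodule.zero_mem _, by rw [Mt_zero, mul_zero]⟩
  | add x y _ _ h1 h2 =>
    obtain ⟨w, hw, h1⟩ := h1
    obtain ⟨w', hw', h2⟩ := h2
    exact ⟨w + w', Submodule.add_mem _ hw hw', by rw [Mt_add, Mt_add, mul_add, h1, h2]⟩
  | smul c x _ h1 =>
    obtain ⟨w, hw, h1⟩ := h1
    exact ⟨c • w, Submodule.smul_mem _ _ hw, by rw [Mt_smul, Mt_smul, mul_smul_comm, h1]⟩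

include hH hid in
theorem mul_ex (t u : L → ℝ) : ∃ w, Mt τ t * Mt τ u = Mt τ w := by
  refine span_top H hH (fun u => ∃ w, Mt τ t * Mt τ u = Mt τ w) ?_ ?_ ?_ ?_ u
  · intro l
    obtain ⟨c, w, -, h⟩ := mul_H τ s H hid t l
    exact ⟨_, h⟩
  · exact ⟨0, by rw [Mt_zero, mul_zero]⟩
  · rintro u v ⟨w, hw⟩ ⟨w', hw'⟩
    exact ⟨w + w', by rw [Mt_add, Mt_add, mul_add, hw, hw']⟩
  · rintro c u ⟨w, hw⟩
    exact ⟨c • w, by rw [Mt_smul, Mt_smul, mul_smul_comm, hw]⟩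

include hs in
theorem Mt_symm (t : L → ℝ) : (Mt τ t)ᵀ = Mt τ t := by
  ext x y
  change t (τ y x) = t (τ x y)
  rw [hs]

include hs hH hid in
theorem mul_comm' (t u : L → ℝ) : Mt τ t * Mt τ u = Mt τ u * Mt τ t := by
  obtain ⟨w, hw⟩ := mul_ex τ s H hH hid t u
  have h1 : (Mt τ t * Mt τ u)ᵀ = Mt τ t * Mt τ u := by rw [hw, Mt_symm τ hs]
  rw [Matrix.transpose_mul, Mt_symm τ hs, Mt_symm τ hs] at h1
  exact h1.symm

include hs hH hid in
theorem eig (l : L) (p : L → ℝ) (hp : p ∈ Jd s H (s l))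
    (ho : ∀ j ∈ Jd s H (s l), Bf (Nn τ) (H l - p) j = 0) (t : L → ℝ) :
    ∃ c : ℝ, Mt τ t * Mt τ (H l - p) = c • Mt τ (H l - p) := by
  obtain ⟨c, w, hw, h1⟩ := mul_H τ s H hid t l
  obtain ⟨w2, hw2, h2⟩ := mul_J τ s H hid t (s l) p hp
  have hj : c • p + w - w2 ∈ Jd s H (s l) :=
    Submodule.sub_mem _ (Submodule.add_mem _ (Submodule.smul_mem _ _ hp) hw) hw2
  obtain ⟨w3, hw3, h3⟩ := mul_J τ s H hid t (s l) _ hj
  have h4 : Mt τ t * Mt τ (H l - p) = Mt τ (c • (H l - p) + (c • p + w - w2)) := by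
    rw [Mt_sub, mul_sub, h1, h2, ← Mt_sub]
    congr 1
    rw [smul_sub]
    abel
  have h5 : (Mt τ t * Mt τ (H l - p) * Mt τ (c • p + w - w2)).trace = 0 := by
    rw [mul_comm' τ s H hs hH hid t (H l - p), mul_assoc, h3, trace_eq τ hs]
    exact ho w3 hw3
  rw [h4, trace_eq τ hs, Bf_add_left, Bf_smul_left, ho _ hj, mul_zero, zero_add] at h5
  refine ⟨c, ?_⟩
  rw [h4, Mt_add, Mt_eq_zero τ hs _ h5, add_zero, Mt_smul]

end

end I10

open I10

theorem LA {L : Type} [Fintype L] [DecidableEq L] (s : L → ℕ) (H : L → L → ℝ) (tp : L)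
    (X X' : Type) [Fintype X] [Fintype X'] [DecidableEq X] [DecidableEq X']
    (τ : X → X → L) (τ' : X' → X' → L)
    (hs : ∀ a b, τ a b = τ b a) (hs' : ∀ a b, τ' a b = τ' b a)
    (ht : ∀ a b, τ a b = tp ↔ a = b) (ht' : ∀ a b, τ' a b = tp ↔ a = b)
    (hT : ∀ κ, Nat.card {p : X × X // τ p.1 p.2 = κ} = Nat.card {p : X' × X' // τ' p.1 p.2 = κ})
    (hH : ∀ t : L → ℝ, ∃ a : L → ℝ, ∀ κ, t κ = ∑ l, a l * H l κ)
    (hid : ∀ (t : L → ℝ) (l : L), ∃ a : L → ℝ, (∀ ν, a ν ≠ 0 → ν = l ∨ s ν < s l) ∧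
      ∀ x z, ∑ y, t (τ x y) * H l (τ y z) = ∑ ν, a ν * H ν (τ x z))
    (hid' : ∀ (t : L → ℝ) (l : L), ∃ a : L → ℝ, (∀ ν, a ν ≠ 0 → ν = l ∨ s ν < s l) ∧
      ∀ x z, ∑ y, t (τ' x y) * H l (τ' y z) = ∑ ν, a ν * H ν (τ' x z))
    (t : L → ℝ) (k : ℕ) :
    ((Matrix.of fun x y => t (τ x y)) ^ k).trace = ((Matrix.of fun x y => t (τ' x y)) ^ k).trace := by
  have hN : Nn τ = Nn τ' := funext hT
  -- the statement on products
  let P : (L → ℝ) → Prop := fun u => ∀ t, ∃ w, Mt τ t * Mt τ u = Mt τ w ∧ Mt τ' t * Mt τ' u = Mt τ' w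
  have hP0 : P 0 := fun t => ⟨0, by rw [Mt_zero, mul_zero], by rw [Mt_zero, mul_zero]⟩
  have hPa : ∀ u v, P u → P v → P (u + v) := by
    intro u v h1 h2 t
    obtain ⟨w, hw, hw'⟩ := h1 t
    obtain ⟨z, hz, hz'⟩ := h2 t
    exact ⟨w + z, by rw [Mt_add, Mt_add, mul_add, hw, hz], by rw [Mt_add, Mt_add, mul_add, hw', hz']⟩
  have hPc : ∀ (c : ℝ) u, P u → P (c • u) := by
    intro c u h1 t
    obtain ⟨w, hw, hw'⟩ := h1 t
    exact ⟨c • w, by rw [Mt_smul, Mt_smul, mul_smul_comm, hw],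
      by rw [Mt_smul, Mt_smul, mul_smul_comm, hw']⟩
  have hPH : ∀ n, ∀ l, s l = n → P (H l) := by
    intro n
    induction n using Nat.strong_induction_on with
    | _ n ih =>
      intro l hl
      have hJ : ∀ j ∈ Jd s H n, P j := by
        intro j hj
        unfold Jd at hj
        induction hj using Submodule.span_induction with
        | mem h hh =>
          obtain ⟨μ, hμ, rfl⟩ := hh
          exact ih (s μ) hμ μ rfl
        | zero => exact hP0
        | add x y _ _ h1 h2 => exact hPa _ _ h1 h2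
        | smul c x _ h1 => exact hPc _ _ h1
      obtain ⟨p, hp, ho⟩ := proj_exists τ hs (Jd s H (s l)) (H l)
      have ho' : ∀ j ∈ Jd s H (s l), Bf (Nn τ') (H l - p) j = 0 := by
        rw [← hN]
        exact ho
      have hb : P (H l - p) := by
        intro t
        obtain ⟨c, hc⟩ := eig τ s H hs hH hid l p hp ho t
        obtain ⟨c', hc'⟩ := eig τ' s H hs' hH hid' l p hp ho' t
        have e1 : Bf (Nn τ) t (H l - p) = c * Bf (Nn τ) (Pi.single tp 1) (H l - p) := by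
          rw [← trace_eq τ hs, ← trace_eq τ hs, hc, Matrix.trace_smul, Mt_one τ tp ht, one_mul]
          rfl
        have e2 : Bf (Nn τ') t (H l - p) = c' * Bf (Nn τ') (Pi.single tp 1) (H l - p) := by
          rw [← trace_eq τ' hs', ← trace_eq τ' hs', hc', Matrix.trace_smul, Mt_one τ' tp ht', one_mul]
          rfl
        by_cases h0 : Bf (Nn τ) (Pi.single tp 1) (H l - p) = 0
        · -- then `H l - p` is in the kernel
          obtain ⟨d, hd⟩ := eig τ s H hs hH hid l p hp ho (H l - p)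
          have e3 : Bf (Nn τ) (H l - p) (H l - p) = 0 := by
            have : Bf (Nn τ) (H l - p) (H l - p) =
                d * Bf (Nn τ) (Pi.single tp 1) (H l - p) := by
              rw [← trace_eq τ hs, ← trace_eq τ hs, hd, Matrix.trace_smul, Mt_one τ tp ht, one_mul]
              rfl
            rw [this, h0, mul_zero]
          have e4 := Mt_eq_zero τ hs _ e3
          rw [hN] at e3
          have e5 := Mt_eq_zero τ' hs' _ e3
          exact ⟨0, by rw [e4, mul_zero, Mt_zero], by rw [e5, mul_zero, Mt_zero]⟩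
        · have e3 : c = c' := by
            rw [← hN] at e2
            exact mul_right_cancel₀ h0 (e1.symm.trans e2)
          exact ⟨c • (H l - p), by rw [hc, Mt_smul], by rw [hc', Mt_smul, e3]⟩
      have h1 := hPa _ _ hb (hJ p (hl ▸ hp))
      rwa [sub_add_cancel] at h1
  have hPall : ∀ u, P u := span_top H hH P (fun l => hPH _ l rfl) hP0 hPa hPc
  have hpow : ∀ k : ℕ, ∃ w, (Mt τ t) ^ k = Mt τ w ∧ (Mt τ' t) ^ k = Mt τ' w := by
    intro k
    induction k with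
    | zero => exact ⟨Pi.single tp 1, by rw [pow_zero, Mt_one τ tp ht],
        by rw [pow_zero, Mt_one τ' tp ht']⟩
    | succ k ih =>
      obtain ⟨w, hw, hw'⟩ := ih
      obtain ⟨z, hz, hz'⟩ := hPall w t
      exact ⟨z, by rw [pow_succ', hw, hz], by rw [pow_succ', hw', hz']⟩
  obtain ⟨w, hw, hw'⟩ := hpow k
  change ((Mt τ t) ^ k).trace = ((Mt τ' t) ^ k).trace
  have h1 : (Mt τ w).trace = Bf (Nn τ) (Pi.single tp 1) w := by
    rw [← trace_eq τ hs, Mt_one τ tp ht, one_mul]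
  have h2 : (Mt τ' w).trace = Bf (Nn τ') (Pi.single tp 1) w := by
    rw [← trace_eq τ' hs', Mt_one τ' tp ht', one_mul]
  rw [hw, hw', h1, h2, hN]

end Pool.Agent.R671.IS
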