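import Pool.Agent.R671.IS.Defs

/-!
# Traces of powers determine the characteristic polynomial; bipartite matrices (piece I11)
-/

set_option autoImplicit false

open Module

namespace Pool.Agent.R671.IS

namespace I11aux

open Polynomial

variable {n : Type} [Fintype n] [DecidableEq n]

theorem card_roots' (A : Matrix n n ℂ) : A.charpoly.roots.card = Fintype.card n := by
  rw [← Matrix.charpoly_natDegree_eq_dim A]
  exact (Polynomial.splits_iff_card_roots.1 (IsAlgClosed.splits A.charpoly))

theorem prod_flip (s : Multiset ℂ) (μ : ℂ) :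
    (-1) ^ s.card * (s.map fun l => μ - l).prod = (s.map fun l => l - μ).prod := by
  induction s using Multiset.induction_on with
  | empty => simp
  | cons a s ih =>
    rw [Multiset.card_cons, Multiset.map_cons, Multiset.map_cons, Multiset.prod_cons,
      Multiset.prod_cons, ← ih]
    ring

theorem det_lin (A : Matrix n n ℂ) (μ : ℂ) :
    (aeval A (X - C μ)).det = (A.charpoly.roots.map fun l => (X - C μ : ℂ[X]).eval l).prod := by
  have h1 : aeval A (X - C μ) = -(Matrix.scalar n μ - A) := by
    rw [map_sub, aeval_X, aeval_C, neg_sub]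
    rfl
  rw [h1, Matrix.det_neg, ← Matrix.eval_charpoly,
    (IsAlgClosed.splits A.charpoly).eval_eq_prod_roots_of_monic A.charpoly_monic μ,
    ← card_roots' A]
  simp only [eval_sub, eval_X, eval_C]
  exact prod_flip _ _

theorem det_mul' (A : Matrix n n ℂ) (f g : ℂ[X])
    (hf : (aeval A f).det = (A.charpoly.roots.map fun l => f.eval l).prod)
    (hg : (aeval A g).det = (A.charpoly.roots.map fun l => g.eval l).prod) :
    (aeval A (f * g)).det = (A.charpoly.roots.map fun l => (f * g).eval l).prod := by
  rw [map_mul, Matrix.det_mul, hf, hg, ← Multiset.prod_map_mul]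
  simp only [eval_mul]

theorem det_monic (A : Matrix n n ℂ) (f : ℂ[X]) (hf : f.Monic) :
    (aeval A f).det = (A.charpoly.roots.map fun l => f.eval l).prod := by
  have h1 : ∀ s : Multiset ℂ, (aeval A (s.map fun a => X - C a).prod).det =
      (A.charpoly.roots.map fun l => ((s.map fun a => X - C a).prod : ℂ[X]).eval l).prod := by
    intro s
    induction s using Multiset.induction_on with
    | empty => simp
    | cons a s ih =>
      rw [Multiset.map_cons, Multiset.prod_cons]
      exact det_mul' A _ _ (det_lin A a) ih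
  have h2 := (IsAlgClosed.splits f).eq_prod_roots_of_monic hf
  rw [h2]
  exact h1 _

theorem charpoly_pow (A : Matrix n n ℂ) (k : ℕ) (hk : k ≠ 0) :
    (A ^ k).charpoly = (A.charpoly.roots.map fun l => X - C (l ^ k)).prod := by
  refine Polynomial.funext fun x => ?_
  have h1 : Matrix.scalar n x - A ^ k = -(aeval A (X ^ k - C x)) := by
    rw [map_sub, map_pow, aeval_X, aeval_C, neg_sub]
    rfl
  rw [Matrix.eval_charpoly, h1, Matrix.det_neg, det_monic A _ (monic_X_pow_sub_C x hk),
    ← card_roots' A, eval_multiset_prod, Multiset.map_map]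
  simp only [Function.comp_def, eval_sub, eval_X, eval_C, eval_pow]
  have h2 := prod_flip (A.charpoly.roots.map fun l => l ^ k) x
  rw [Multiset.card_map, Multiset.map_map, Multiset.map_map] at h2
  simp only [Function.comp_def] at h2
  rw [← h2, ← mul_assoc, ← pow_add, ← two_mul, pow_mul]
  norm_num

theorem trace_pow (A : Matrix n n ℂ) (k : ℕ) :
    (A ^ k).trace = (A.charpoly.roots.map fun l => l ^ k).sum := by
  rcases Nat.eq_zero_or_pos k with hk | hk
  · subst hk
    simp only [pow_zero, Multiset.map_const', Multiset.sum_replicate, card_roots',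
      Matrix.trace_one, nsmul_eq_mul, mul_one]
  · rw [Matrix.trace_eq_sum_roots_charpoly, charpoly_pow A k hk.ne']
    have h1 : (A.charpoly.roots.map fun l => X - C (l ^ k)).prod =
        ((A.charpoly.roots.map fun l => l ^ k).map fun a => X - C a).prod := by
      rw [Multiset.map_map]
      rfl
    rw [h1, Polynomial.roots_multiset_prod_X_sub_C]

theorem sum_eval (s : Multiset ℂ) (f : ℂ[X]) :
    (s.map fun l => f.eval l).sum =
      ∑ k ∈ Finset.range (f.natDegree + 1), f.coeff k * (s.map fun l => l ^ k).sum := by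
  induction s using Multiset.induction_on with
  | empty => simp
  | cons a s ih =>
    rw [Multiset.map_cons, Multiset.sum_cons, ih, Polynomial.eval_eq_sum_range,
      ← Finset.sum_add_distrib]
    refine Finset.sum_congr rfl fun k _ => ?_
    rw [Multiset.map_cons, Multiset.sum_cons, mul_add]

theorem sum_single (s : Multiset ℂ) (μ : ℂ) (f : ℂ → ℂ) (h : ∀ l ∈ s, l ≠ μ → f l = 0) :
    (s.map f).sum = s.count μ * f μ := by
  induction s using Multiset.induction_on with
  | empty => simp
  | cons a s ih =>
    rw [Multiset.map_cons, Multiset.sum_cons, ih fun l hl => h l (Multiset.mem_cons_of_mem hl)]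
    by_cases ha : a = μ
    · subst ha
      rw [Multiset.count_cons_self]
      push_cast
      ring
    · rw [Multiset.count_cons_of_ne (Ne.symm ha), h a (Multiset.mem_cons_self a s) ha, zero_add]

theorem multiset_eq (s t : Multiset ℂ) (h : ∀ k : ℕ, (s.map fun l => l ^ k).sum =
    (t.map fun l => l ^ k).sum) : s = t := by
  have hf : ∀ f : ℂ[X], (s.map fun l => f.eval l).sum = (t.map fun l => f.eval l).sum := by
    intro f
    rw [sum_eval, sum_eval]
    simp only [h]
  ext μ
  obtain ⟨S, hS⟩ : ∃ S : Finset ℂ, S = (s + t).toFinset.erase μ := ⟨_, rfl⟩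
  obtain ⟨f, hfdef⟩ : ∃ f : ℂ[X], f = ∏ a ∈ S, (X - C a) := ⟨_, rfl⟩
  have hμ : f.eval μ ≠ 0 := by
    rw [hfdef, eval_prod, Finset.prod_ne_zero_iff]
    intro a ha
    rw [hS, Finset.mem_erase] at ha
    rw [eval_sub, eval_X, eval_C, sub_ne_zero]
    exact ha.1.symm
  have h0 : ∀ l, l ∈ s + t → l ≠ μ → f.eval l = 0 := by
    intro l hl hne
    rw [hfdef, eval_prod]
    refine Finset.prod_eq_zero (i := l) ?_ ?_
    · rw [hS, Finset.mem_erase, Multiset.mem_toFinset]
      exact ⟨hne, hl⟩
    · rw [eval_sub, eval_X, eval_C, sub_self]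
  have h1 := hf f
  rw [sum_single s μ (fun l => f.eval l) fun l hl => h0 l (Multiset.mem_add.2 (Or.inl hl)),
    sum_single t μ (fun l => f.eval l) fun l hl => h0 l (Multiset.mem_add.2 (Or.inr hl))] at h1
  exact_mod_cast mul_right_cancel₀ hμ h1

end I11aux

open I11aux in
theorem charpoly_of_trace {X X' : Type} [Fintype X] [DecidableEq X] [Fintype X'] [DecidableEq X']
    (A : Matrix X X ℝ) (B : Matrix X' X' ℝ) (hX : Fintype.card X = Fintype.card X')
    (h : ∀ k : ℕ, (A ^ k).trace = (B ^ k).trace) : A.charpoly = B.charpoly := by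
  apply Polynomial.map_injective (algebraMap ℝ ℂ) (algebraMap ℝ ℂ).injective
  rw [← Matrix.charpoly_map, ← Matrix.charpoly_map]
  have hA : ∀ k : ℕ, ((A.map (algebraMap ℝ ℂ)) ^ k).trace = algebraMap ℝ ℂ (A ^ k).trace := by
    intro k
    rw [← Matrix.map_pow, ← AddMonoidHom.map_trace]
  have hB : ∀ k : ℕ, ((B.map (algebraMap ℝ ℂ)) ^ k).trace = algebraMap ℝ ℂ (B ^ k).trace := by
    intro k
    rw [← Matrix.map_pow, ← AddMonoidHom.map_trace]
  have h1 : (A.map (algebraMap ℝ ℂ)).charpoly.roots = (B.map (algebraMap ℝ ℂ)).charpoly.roots := by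
    refine multiset_eq _ _ fun k => ?_
    rw [← trace_pow, ← trace_pow, hA, hB, h]
  rw [(IsAlgClosed.splits (A.map (algebraMap ℝ ℂ)).charpoly).eq_prod_roots_of_monic
    (Matrix.charpoly_monic _), (IsAlgClosed.splits (B.map (algebraMap ℝ ℂ)).charpoly).eq_prod_roots_of_monic
    (Matrix.charpoly_monic _), h1]

namespace I11aux

variable {X Y : Type} [Fintype X] [DecidableEq X] [Fintype Y] [DecidableEq Y]

theorem tr_blocks (A : Matrix X X ℝ) (B : Matrix X Y ℝ) (C : Matrix Y X ℝ) (D : Matrix Y Y ℝ) :
    (Matrix.fromBlocks A B C D).trace = A.trace + D.trace := by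
  simp [Matrix.trace, Fintype.sum_sum_type]

theorem bip_even (N : Matrix X Y ℝ) (k : ℕ) :
    (Matrix.fromBlocks 0 N N.transpose 0) ^ (2 * k) =
      Matrix.fromBlocks ((N * N.transpose) ^ k) 0 0 ((N.transpose * N) ^ k) := by
  induction k with
  | zero =>
    rw [mul_zero, pow_zero, pow_zero, pow_zero]
    exact Matrix.fromBlocks_one.symm
  | succ k ih =>
    have h1 : 2 * (k + 1) = 2 * k + 2 := by ring
    rw [h1, pow_add, ih, pow_two, Matrix.fromBlocks_multiply, Matrix.fromBlocks_multiply]
    simp only [Matrix.zero_mul, Matrix.mul_zero, zero_add, add_zero, pow_succ]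

theorem bip_odd (N : Matrix X Y ℝ) (k : ℕ) :
    ((Matrix.fromBlocks 0 N N.transpose 0) ^ (2 * k + 1)).trace = 0 := by
  rw [pow_succ, bip_even, Matrix.fromBlocks_multiply, tr_blocks]
  simp

theorem trace_swap (N : Matrix X Y ℝ) (k : ℕ) :
    ((N * N.transpose) ^ (k + 1)).trace = ((N.transpose * N) ^ (k + 1)).trace := by
  have h1 : ∀ k : ℕ, (N * N.transpose) ^ (k + 1) = N * (N.transpose * N) ^ k * N.transpose := by
    intro k
    induction k with
    | zero => simp
    | succ k ih =>
      rw [pow_succ, ih, pow_succ (N.transpose * N) k]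
      simp only [Matrix.mul_assoc]
  rw [h1, Matrix.trace_mul_comm, ← Matrix.mul_assoc, ← pow_succ']

end I11aux

open I11aux in
theorem charpoly_bip {X Y X' Y' : Type} [Fintype X] [DecidableEq X] [Fintype Y] [DecidableEq Y]
    [Fintype X'] [DecidableEq X'] [Fintype Y'] [DecidableEq Y']
    (N : Matrix X Y ℝ) (N' : Matrix X' Y' ℝ) (hX : Fintype.card X = Fintype.card X')
    (hY : Fintype.card Y = Fintype.card Y')
    (h : ∀ k : ℕ, ((N.transpose * N) ^ k).trace = ((N'.transpose * N') ^ k).trace) :
    (Matrix.fromBlocks 0 N N.transpose 0).charpoly =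
      (Matrix.fromBlocks 0 N' N'.transpose 0).charpoly := by
  refine charpoly_of_trace _ _ (by rw [Fintype.card_sum, Fintype.card_sum, hX, hY]) fun k => ?_
  obtain ⟨j, hj⟩ := Nat.even_or_odd' k
  rcases hj with rfl | rfl
  · rw [bip_even, bip_even, tr_blocks, tr_blocks, h]
    congr 1
    cases j with
    | zero =>
      rw [pow_zero, pow_zero, Matrix.trace_one, Matrix.trace_one, hX]
    | succ j =>
      rw [trace_swap, trace_swap, h]
  · rw [bip_odd, bip_odd]

end Pool.Agent.R671.IS
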