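import Pool.Agent.R671.IS.Defs

/-!
# ISO-I12 (helper451): transfer from the rings `R = D / (π ^ r)` to `D`-modules; the two examples
-/

open Module

namespace Pool.Agent.R671.IS

namespace I12

variable {D : Type} [CommRing D] {π : D} {R : Type} [CommRing R] {r : ℕ}

lemma smul_E (c : D) (x : E D π r) : c • x = algebraMap D (E D π r) c * x := Algebra.smul_def c x

lemma surj_E (y : E D π r) : ∃ c : D, algebraMap D (E D π r) c = y :=
  Ideal.Quotient.mk_surjective y

/-- from submodules over `R` to submodules over `D` -/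
def Psi (e : R ≃+* E D π r) {d : ℕ} (V : Submodule R (Fin d → R)) :
    Submodule D (Fin d → E D π r) where
  carrier := {x | (fun i => e.symm (x i)) ∈ V}
  add_mem' {x y} hx hy := by
    have h : (fun i => e.symm ((x + y) i)) = (fun i => e.symm (x i)) + fun i => e.symm (y i) := by
      funext i
      simp
    change (fun i => e.symm ((x + y) i)) ∈ V
    rw [h]
    exact V.add_mem hx hy
  zero_mem' := by
    have h : (fun i => e.symm ((0 : Fin d → E D π r) i)) = (0 : Fin d → R) := by
      funext i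
      simp
    change (fun i => e.symm ((0 : Fin d → E D π r) i)) ∈ V
    rw [h]
    exact V.zero_mem
  smul_mem' c x hx := by
    have h : (fun i => e.symm ((c • x) i)) =
        e.symm (algebraMap D (E D π r) c) • fun i => e.symm (x i) := by
      funext i
      simp only [Pi.smul_apply, smul_E, map_mul, smul_eq_mul]
    change (fun i => e.symm ((c • x) i)) ∈ V
    rw [h]
    exact V.smul_mem _ hx

/-- from submodules over `D` to submodules over `R` -/
def Phi (e : R ≃+* E D π r) {d : ℕ} (W : Submodule D (Fin d → E D π r)) :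
    Submodule R (Fin d → R) where
  carrier := {y | (fun i => e (y i)) ∈ W}
  add_mem' {x y} hx hy := by
    have h : (fun i => e ((x + y) i)) = (fun i => e (x i)) + fun i => e (y i) := by
      funext i
      simp
    change (fun i => e ((x + y) i)) ∈ W
    rw [h]
    exact W.add_mem hx hy
  zero_mem' := by
    have h : (fun i => e ((0 : Fin d → R) i)) = (0 : Fin d → E D π r) := by
      funext i
      simp
    change (fun i => e ((0 : Fin d → R) i)) ∈ W
    rw [h]
    exact W.zero_mem
  smul_mem' c y hy := by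
    obtain ⟨c', hc'⟩ := surj_E (e c)
    have h : (fun i => e ((c • y) i)) = c' • fun i => e (y i) := by
      funext i
      simp only [Pi.smul_apply, smul_E, map_mul, smul_eq_mul, hc']
    change (fun i => e ((c • y) i)) ∈ W
    rw [h]
    exact W.smul_mem _ hy

lemma mem_Psi (e : R ≃+* E D π r) {d : ℕ} (V : Submodule R (Fin d → R)) (x : Fin d → E D π r) :
    x ∈ Psi e V ↔ (fun i => e.symm (x i)) ∈ V := Iff.rfl

lemma mem_Phi (e : R ≃+* E D π r) {d : ℕ} (W : Submodule D (Fin d → E D π r)) (y : Fin d → R) :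
    y ∈ Phi e W ↔ (fun i => e (y i)) ∈ W := Iff.rfl

lemma Phi_Psi (e : R ≃+* E D π r) {d : ℕ} (V : Submodule R (Fin d → R)) :
    Phi e (Psi e V) = V := by
  ext y
  rw [mem_Phi, mem_Psi]
  simp

lemma Psi_Phi (e : R ≃+* E D π r) {d : ℕ} (W : Submodule D (Fin d → E D π r)) :
    Psi e (Phi e W) = W := by
  ext y
  rw [mem_Psi, mem_Phi]
  simp

lemma free_Psi (e : R ≃+* E D π r) {d k : ℕ} (V : Submodule R (Fin d → R))
    (h : Nonempty (V ≃ₗ[R] (Fin k → R))) : Nonempty (Psi e V ≃ₗ[D] (Fin k → E D π r)) := by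
  obtain ⟨f⟩ := h
  have hV : ∀ v : V, (fun i => e (v.1 i)) ∈ Psi e V := fun v => by
    rw [mem_Psi]
    simp
  refine ⟨{
    toFun := fun x => fun i => e (f ⟨fun i => e.symm (x.1 i), x.2⟩ i)
    map_add' := ?_
    map_smul' := ?_
    invFun := fun y => ⟨fun i => e ((f.symm fun i => e.symm (y i)).1 i), hV _⟩
    left_inv := ?_
    right_inv := ?_ }⟩
  · intro x y
    have h : (⟨fun i => e.symm ((x + y).1 i), (x + y).2⟩ : V) =
        ⟨fun i => e.symm (x.1 i), x.2⟩ + ⟨fun i => e.symm (y.1 i), y.2⟩ := by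
      ext i
      simp
    funext i
    simp only [h, map_add, Pi.add_apply]
  · intro c x
    have h : (⟨fun i => e.symm ((c • x).1 i), (c • x).2⟩ : V) =
        e.symm (algebraMap D (E D π r) c) • ⟨fun i => e.symm (x.1 i), x.2⟩ := by
      ext i
      simp only [SetLike.val_smul, Pi.smul_apply, smul_E, map_mul, smul_eq_mul]
    funext i
    simp only [h, map_smul, Pi.smul_apply, smul_eq_mul, map_mul, RingHom.id_apply, smul_E,
      RingEquiv.apply_symm_apply]
  · intro x
    ext i
    simp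
  · intro y
    funext i
    simp

lemma free_Phi (e : R ≃+* E D π r) {d k : ℕ} (W : Submodule D (Fin d → E D π r))
    (h : Nonempty (W ≃ₗ[D] (Fin k → E D π r))) : Nonempty (Phi e W ≃ₗ[R] (Fin k → R)) := by
  obtain ⟨f⟩ := h
  have hV : ∀ v : W, (fun i => e.symm (v.1 i)) ∈ Phi e W := fun v => by
    rw [mem_Phi]
    simp
  refine ⟨{
    toFun := fun x => fun i => e.symm (f ⟨fun i => e (x.1 i), x.2⟩ i)
    map_add' := ?_
    map_smul' := ?_
    invFun := fun y => ⟨fun i => e.symm ((f.symm fun i => e (y i)).1 i), hV _⟩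
    left_inv := ?_
    right_inv := ?_ }⟩
  · intro x y
    have h : (⟨fun i => e ((x + y).1 i), (x + y).2⟩ : W) =
        ⟨fun i => e (x.1 i), x.2⟩ + ⟨fun i => e (y.1 i), y.2⟩ := by
      ext i
      simp
    funext i
    simp only [h, map_add, Pi.add_apply]
  · intro c x
    obtain ⟨c', hc'⟩ := surj_E (e c)
    have h : (⟨fun i => e ((c • x).1 i), (c • x).2⟩ : W) =
        c' • ⟨fun i => e (x.1 i), x.2⟩ := by
      ext i
      simp only [SetLike.val_smul, Pi.smul_apply, smul_E, map_mul, smul_eq_mul, hc']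
    funext i
    simp only [h, map_smul, Pi.smul_apply, smul_eq_mul, map_mul, RingHom.id_apply, smul_E,
      hc', RingEquiv.symm_apply_apply]
  · intro x
    ext i
    simp
  · intro y
    funext i
    simp

end I12

open I12 in
theorem transfer (D : Type) [CommRing D] (π : D) [Unif D π] (R : Type) [CommRing R] (r : ℕ)
    (e : R ≃+* (D ⧸ Ideal.span {π ^ r})) (d : ℕ) :
    ∃ φ : ∀ k : ℕ, FreeSub R d k ≃ FS D π r d k,
      ∀ (m n : ℕ) (V : FreeSub R d m) (W : FreeSub R d n), V.1 ≤ W.1 ↔ (φ m V).1 ≤ (φ n W).1 := by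
  refine ⟨fun k =>
    { toFun := fun V => ⟨Psi e V.1, free_Psi e V.1 V.2⟩
      invFun := fun W => ⟨Phi e W.1, free_Phi e W.1 W.2⟩
      left_inv := fun V => Subtype.ext (Phi_Psi e V.1)
      right_inv := fun W => Subtype.ext (Psi_Phi e W.1) }, fun m n V W => ?_⟩
  change V.1 ≤ W.1 ↔ Psi e V.1 ≤ Psi e W.1
  constructor
  · intro h x hx
    exact h hx
  · intro h y hy
    have h1 : (fun i => e (y i)) ∈ Psi e V.1 := by
      rw [mem_Psi]
      simpa using hy
    have h2 := h h1
    rw [mem_Psi] at h2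
    simpa using h2

theorem unif_int (p : ℕ) (hp : p.Prime) : Unif ℤ (p : ℤ) ∧ qq ℤ (p : ℤ) = p := by
  have e : (ℤ ⧸ Ideal.span {(p : ℤ)}) ≃+* ZMod p := Int.quotientSpanNatEquivZMod p
  have : NeZero p := ⟨hp.ne_zero⟩
  refine ⟨⟨?_, ?_, ?_⟩, ?_⟩
  · intro x hx
    have h1 : (p : ℤ) ≠ 0 := by exact_mod_cast hp.ne_zero
    exact (mul_eq_zero.1 hx).resolve_left h1
  · exact PrincipalIdealRing.isMaximal_of_irreducible (Nat.prime_iff_prime_int.1 hp).irreducible
  · exact Finite.of_equiv _ e.toEquiv.symm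
  · unfold qq
    rw [Nat.card_congr e.toEquiv, Nat.card_zmod]

theorem unif_poly (p : ℕ) [Fact p.Prime] :
    Unif (Polynomial (ZMod p)) Polynomial.X ∧ qq (Polynomial (ZMod p)) Polynomial.X = p := by
  have e : (Polynomial (ZMod p) ⧸ Ideal.span {(Polynomial.X : Polynomial (ZMod p))}) ≃+* ZMod p := by
    have h := Polynomial.quotientSpanXSubCAlgEquiv (0 : ZMod p)
    have h1 : (Polynomial.X - Polynomial.C (0 : ZMod p)) = Polynomial.X := by simp
    rw [h1] at h
    exact h.toRingEquiv
  refine ⟨⟨?_, ?_, ?_⟩, ?_⟩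
  · intro x hx
    exact (mul_eq_zero.1 hx).resolve_left Polynomial.X_ne_zero
  · exact PrincipalIdealRing.isMaximal_of_irreducible Polynomial.irreducible_X
  · exact Finite.of_equiv _ e.toEquiv.symm
  · unfold qq
    rw [Nat.card_congr e.toEquiv, Nat.card_zmod]

theorem zmod_equiv (p r : ℕ) : Nonempty (ZMod (p ^ r) ≃+* (ℤ ⧸ Ideal.span {(p : ℤ) ^ r})) := by
  have h := (Int.quotientSpanNatEquivZMod (p ^ r)).symm
  have h1 : ((p ^ r : ℕ) : ℤ) = (p : ℤ) ^ r := by push_cast; rfl
  rw [h1] at h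
  exact ⟨h⟩

end Pool.Agent.R671.IS
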