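import Pool.Agent.R671.IS.I1

/-!
# MP_acbd57_co, piece I2: sizes and classification of the finite modules
-/

open Module

namespace Pool.Agent.R671.IS

/-- `|A| = |ker f| · |range f|`. -/
theorem I2.card_ker_range {D : Type} [CommRing D] {A B : Type} [AddCommGroup A] [Module D A]
    [AddCommGroup B] [Module D B] (f : A →ₗ[D] B) :
    Nat.card A = Nat.card (LinearMap.ker f) * Nat.card (LinearMap.range f) := by
  rw [Submodule.card_eq_card_quotient_mul_card (LinearMap.ker f)]
  congr 1
  exact Nat.card_congr f.quotKerEquivRange.toEquiv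

theorem I2.pow_reg (D : Type) [CommRing D] (π : D) [h : Unif D π] (j : ℕ) (x : D)
    (hx : π ^ j * x = 0) : x = 0 := by
  induction j with
  | zero => simpa using hx
  | succ j ih =>
    apply ih
    apply h.reg
    rw [← hx]; ring

/-- Multiplication by `π ^ j` as a map from `D` to `D / (π ^ (j + 1))`. -/
noncomputable def I2.mulPow (D : Type) [CommRing D] (π : D) (j : ℕ) : D →ₗ[D] E D π (j + 1) :=
  (Submodule.mkQ (Ideal.span {π ^ (j + 1)})).comp (LinearMap.mulLeft D (π ^ j))

theorem I2.ker_mulPow (D : Type) [CommRing D] (π : D) [h : Unif D π] (j : ℕ) :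
    LinearMap.ker (I2.mulPow D π j) = Ideal.span {π} := by
  ext x
  rw [LinearMap.mem_ker, I2.mulPow, LinearMap.comp_apply, Submodule.mkQ_apply,
    Submodule.Quotient.mk_eq_zero, LinearMap.mulLeft_apply, Ideal.mem_span_singleton',
    Ideal.mem_span_singleton']
  constructor
  · rintro ⟨w, hw⟩
    refine ⟨w, ?_⟩
    have h1 : π ^ j * (w * π - x) = 0 := by rw [mul_sub, ← hw]; ring
    exact sub_eq_zero.1 (I2.pow_reg D π j _ h1)
  · rintro ⟨w, hw⟩
    exact ⟨w, by rw [← hw]; ring⟩

theorem I2.card_range_mulPow (D : Type) [CommRing D] (π : D) [h : Unif D π] (j : ℕ) :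
    Nat.card (LinearMap.range (I2.mulPow D π j)) = qq D π := by
  rw [← Nat.card_congr (I2.mulPow D π j).quotKerEquivRange.toEquiv, I2.ker_mulPow]
  rfl

theorem card_E (D : Type) [CommRing D] (π : D) [h : Unif D π] (j : ℕ) :
    Nat.card (E D π j) = qq D π ^ j := by
  induction j with
  | zero =>
    rw [pow_zero, Nat.card_eq_one_iff_unique]
    refine ⟨?_, ⟨0⟩⟩
    unfold E
    rw [pow_zero, Ideal.span_singleton_one]
    exact Ideal.Quotient.subsingleton_iff.2 rfl
  | succ j ih =>
    have hle : Ideal.span {π ^ (j + 1)} ≤ Ideal.span {π ^ j} := by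
      rw [Ideal.span_singleton_le_span_singleton]
      exact ⟨π, by ring⟩
    have h1 := Submodule.card_quotient_mul_card_quotient (Ideal.span {π ^ j})
      (Ideal.span {π ^ (j + 1)}) hle
    -- the map `D / π → π^j / π^(j+1)`
    have h2 : Submodule.map (Ideal.span {π ^ (j + 1)}).mkQ (Ideal.span {π ^ j})
        = LinearMap.range (I2.mulPow D π j) := by
      ext y
      rw [Submodule.mem_map, LinearMap.mem_range]
      constructor
      · rintro ⟨x, hx, rfl⟩
        obtain ⟨w, rfl⟩ := Ideal.mem_span_singleton'.1 hx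
        exact ⟨w, by rw [I2.mulPow, LinearMap.comp_apply, LinearMap.mulLeft_apply, mul_comm]⟩
      · rintro ⟨x, rfl⟩
        exact ⟨π ^ j * x, Ideal.mem_span_singleton'.2 ⟨x, by ring⟩, rfl⟩
    rw [h2, I2.card_range_mulPow, ih] at h1
    rw [← h1]
    ring

theorem card_EM (D : Type) [CommRing D] (π : D) [Unif D π] {d r : ℕ} (l : Ty d r) :
    Nat.card (EM D π l) = qq D π ^ size l := by
  unfold EM
  rw [Nat.card_pi, size, ← Finset.prod_pow_eq_pow_sum]
  exact Finset.prod_congr rfl fun i _ => card_E D π _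

/-- `a ↦ π • a`. -/
noncomputable def I2.mulPi {D : Type} [CommRing D] (π : D) (A : Type) [AddCommGroup A] [Module D A] :
    A →ₗ[D] A := LinearMap.lsmul D A π

theorem I2.mulPi_apply {D : Type} [CommRing D] (π : D) (A : Type) [AddCommGroup A] [Module D A]
    (a : A) : I2.mulPi π A a = π • a := rfl

theorem I2.card_tor_eq_ker {D : Type} [CommRing D] (π : D) (A : Type) [AddCommGroup A]
    [Module D A] : Nat.card {a : A // π • a = 0} = Nat.card (LinearMap.ker (I2.mulPi π A)) := by
  refine Nat.card_congr (Equiv.subtypeEquivRight fun a => ?_)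
  rw [LinearMap.mem_ker, I2.mulPi_apply]

/-- `|A[π]| = |A / π A|` for a finite module. -/
theorem I2.card_tor_eq_quo {D : Type} [CommRing D] (π : D) (A : Type) [AddCommGroup A]
    [Module D A] [Finite A] :
    Nat.card {a : A // π • a = 0} = Nat.card (A ⧸ LinearMap.range (I2.mulPi π A)) := by
  rw [I2.card_tor_eq_ker]
  have h1 := I2.card_ker_range (I2.mulPi π A)
  have h2 := Submodule.card_eq_card_quotient_mul_card (LinearMap.range (I2.mulPi π A))
  have h3 : 0 < Nat.card (LinearMap.range (I2.mulPi π A)) := Nat.card_pos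
  have h4 : Nat.card (LinearMap.range (I2.mulPi π A)) * Nat.card (LinearMap.ker (I2.mulPi π A)) =
      Nat.card (LinearMap.range (I2.mulPi π A)) * Nat.card (A ⧸ LinearMap.range (I2.mulPi π A)) := by
    rw [← h2, h1, mul_comm]
  exact Nat.eq_of_mul_eq_mul_left h3 h4

/-- For a surjection `A → B` of finite modules, `|B[π]| ≤ |A[π]|`. -/
theorem I2.card_tor_le_of_surj {D : Type} [CommRing D] (π : D) {A B : Type} [AddCommGroup A]
    [Module D A] [Finite A] [AddCommGroup B] [Module D B] [Finite B] (f : A →ₗ[D] B)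
    (hf : Function.Surjective f) :
    Nat.card {b : B // π • b = 0} ≤ Nat.card {a : A // π • a = 0} := by
  rw [I2.card_tor_eq_quo, I2.card_tor_eq_quo]
  have hfin : Finite (A ⧸ LinearMap.range (I2.mulPi π A)) :=
    Finite.of_surjective _ (Submodule.mkQ_surjective _)
  have hle : LinearMap.range (I2.mulPi π A) ≤ (LinearMap.range (I2.mulPi π B)).comap f := by
    rintro _ ⟨a, rfl⟩
    exact ⟨f a, by rw [I2.mulPi_apply, I2.mulPi_apply, map_smul]⟩
  refine Nat.card_le_card_of_surjective (Submodule.mapQ _ _ f hle) ?_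
  intro y
  obtain ⟨b, rfl⟩ := Submodule.mkQ_surjective _ y
  obtain ⟨a, rfl⟩ := hf b
  exact ⟨Submodule.mkQ _ a, rfl⟩

/-- For an injection `A → B`, `|A[π]| ≤ |B[π]|`. -/
theorem I2.card_tor_le_of_inj {D : Type} [CommRing D] (π : D) {A B : Type} [AddCommGroup A]
    [Module D A] [AddCommGroup B] [Module D B] [Finite B] (f : A →ₗ[D] B)
    (hf : Function.Injective f) :
    Nat.card {a : A // π • a = 0} ≤ Nat.card {b : B // π • b = 0} := by
  refine Nat.card_le_card_of_injective
    (fun a => ⟨f a.1, by rw [← map_smul, a.2, map_zero]⟩) ?_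
  intro a b hab
  exact Subtype.ext (hf (congrArg Subtype.val hab))

theorem I2.card_tor_E_le (D : Type) [CommRing D] (π : D) [h : Unif D π] (j : ℕ) :
    Nat.card {a : E D π j // π • a = 0} ≤ qq D π := by
  have hfin : Finite (D ⧸ Ideal.span {π}) := h.fin
  rw [I2.card_tor_eq_quo]
  -- `D / (π) → E / π E` is onto
  have hle : (Ideal.span {π} : Submodule D D) ≤
      (LinearMap.range (I2.mulPi π (E D π j))).comap (Submodule.mkQ (Ideal.span {π ^ j})) := by
    intro x hx
    obtain ⟨w, rfl⟩ := Ideal.mem_span_singleton'.1 hx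
    refine ⟨Submodule.mkQ _ w, ?_⟩
    rw [I2.mulPi_apply, ← map_smul, smul_eq_mul, mul_comm]
  refine Nat.card_le_card_of_surjective (Submodule.mapQ (Ideal.span {π})
    (LinearMap.range (I2.mulPi π (E D π j))) (Submodule.mkQ (Ideal.span {π ^ j})) hle) ?_
  intro y
  obtain ⟨b, rfl⟩ := Submodule.mkQ_surjective _ y
  obtain ⟨a, rfl⟩ := Submodule.mkQ_surjective _ b
  exact ⟨Submodule.mkQ _ a, rfl⟩

theorem I2.card_tor_EM_le (D : Type) [CommRing D] (π : D) [h : Unif D π] {d r : ℕ} (l : Ty d r) :
    Nat.card {a : EM D π l // π • a = 0} ≤ qq D π ^ d := by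
  have e : {a : EM D π l // π • a = 0} ≃ ((i : Fin d) → {a : E D π (l.1 i : ℕ) // π • a = 0}) :=
    { toFun := fun a i => ⟨a.1 i, by have := congrFun a.2 i; simpa using this⟩
      invFun := fun a => ⟨fun i => (a i).1, by funext i; exact (a i).2⟩
      left_inv := fun a => rfl
      right_inv := fun a => rfl }
  rw [Nat.card_congr e, Nat.card_pi]
  calc ∏ i : Fin d, Nat.card {a : E D π (l.1 i : ℕ) // π • a = 0}
      ≤ ∏ i : Fin d, qq D π := Finset.prod_le_prod' fun i _ => I2.card_tor_E_le D π _
    _ = qq D π ^ d := by rw [Finset.prod_const, Finset.card_univ, Fintype.card_fin]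

theorem I2.E_killed (D : Type) [CommRing D] (π : D) (j r : ℕ) (hj : j ≤ r) (a : E D π j) :
    π ^ r • a = 0 := by
  obtain ⟨x, rfl⟩ := Submodule.mkQ_surjective _ a
  rw [← map_smul, Submodule.mkQ_apply, Submodule.Quotient.mk_eq_zero, smul_eq_mul,
    Ideal.mem_span_singleton']
  exact ⟨π ^ (r - j) * x, by rw [mul_right_comm, ← pow_add, Nat.sub_add_cancel hj]⟩

theorem I2.EM_killed (D : Type) [CommRing D] (π : D) {d r : ℕ} (l : Ty d r) (a : EM D π l) :
    π ^ r • a = 0 := by
  funext i
  exact I2.E_killed D π _ _ (Nat.lt_succ_iff.1 (l.1 i).2) (a i)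

/-- A module killed by `π ^ r` with trivial `π`-torsion is trivial. -/
theorem I2.trivial_of_tor {D : Type} [CommRing D] (π : D) {A : Type} [AddCommGroup A]
    [Module D A] [Finite A] (r : ℕ) (hr : ∀ a : A, π ^ r • a = 0)
    (h : Nat.card {a : A // π • a = 0} ≤ 1) (a : A) : a = 0 := by
  classical
  by_contra ha
  have hex : ∃ m, π ^ m • a = 0 := ⟨r, hr a⟩
  have hm := Nat.find_spec hex
  obtain ⟨m, hm'⟩ : ∃ m, Nat.find hex = m + 1 := by
    refine Nat.exists_eq_succ_of_ne_zero fun h0 => ha ?_
    rw [h0, pow_zero, one_smul] at hm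
    exact hm
  have hlt : ¬ (π ^ m • a = 0) := Nat.find_min hex (by omega)
  rw [hm'] at hm
  have hs : Subsingleton {a : A // π • a = 0} := by
    rw [← Finite.card_le_one_iff_subsingleton]
    exact h
  have := hs.elim ⟨π ^ m • a, by rw [← mul_smul, ← pow_succ']; exact hm⟩ ⟨0, smul_zero _⟩
  exact hlt (congrArg Subtype.val this)

/-- The annihilator of an element. -/
theorem I2.ann_eq {D : Type} [CommRing D] (π : D) [h : Unif D π] {A : Type} [AddCommGroup A]
    [Module D A] (j : ℕ) (a : A) (h1 : π ^ (j + 1) • a = 0) (h2 : π ^ j • a ≠ 0) :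
    LinearMap.ker (LinearMap.toSpanSingleton D A a) = Ideal.span {π ^ (j + 1)} := by
  ext c
  rw [LinearMap.mem_ker, LinearMap.toSpanSingleton_apply, Ideal.mem_span_singleton]
  constructor
  · intro hc
    have key : ∀ m ≤ j + 1, π ^ m ∣ c := by
      intro m
      induction m with
      | zero => intro _; simp
      | succ m ih =>
        intro hm
        obtain ⟨u, rfl⟩ := ih (by omega)
        by_cases hu : u ∈ Ideal.span {π}
        · rw [pow_succ]
          exact mul_dvd_mul_left _ (Ideal.mem_span_singleton.1 hu)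
        · exfalso
          obtain ⟨v, i, hi, hvi⟩ := h.max.exists_inv hu
          obtain ⟨b, rfl⟩ := Ideal.mem_span_singleton'.1 hi
          have hcop : IsCoprime u (π ^ (j + 1)) := by
            apply IsCoprime.pow_right
            exact ⟨v, b, hvi⟩
          obtain ⟨v', w, hvw⟩ := hcop
          apply h2
          have h3 : π ^ m • a = 0 := by
            calc π ^ m • a = (π ^ m * (v' * u + w * π ^ (j + 1))) • a := by rw [hvw, mul_one]
              _ = (v' * (π ^ m * u) + (π ^ m * w) * π ^ (j + 1)) • a := by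
                  congr 1; ring
              _ = 0 := by
                  rw [add_smul, mul_smul, hc, smul_zero, mul_smul, h1, smul_zero, add_zero]
          have h4 : π ^ j = π ^ (j - m) * π ^ m := by
            rw [← pow_add, Nat.sub_add_cancel (by omega)]
          rw [h4, mul_smul, h3, smul_zero]
    exact key _ le_rfl
  · rintro ⟨w, rfl⟩
    rw [mul_comm, mul_smul, h1, smul_zero]

theorem I2.card_tor_E_ge (D : Type) [CommRing D] (π : D) [h : Unif D π] (j : ℕ) :
    qq D π ≤ Nat.card {a : E D π (j + 1) // π • a = 0} := by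
  rw [← I2.card_range_mulPow D π j]
  refine Nat.card_le_card_of_injective
    (fun y : LinearMap.range (I2.mulPow D π j) =>
      (⟨y.1, ?_⟩ : {a : E D π (j + 1) // π • a = 0})) ?_
  · obtain ⟨_, x, rfl⟩ := y
    change π • (I2.mulPow D π j x) = 0
    rw [← map_smul, ← LinearMap.mem_ker, I2.ker_mulPow]
    exact Ideal.mem_span_singleton'.2 ⟨x, by rw [smul_eq_mul, mul_comm]⟩
  · intro y z hyz
    exact Subtype.ext (congrArg (fun t => t.1) hyz)

/-- Splitting off a cyclic summand. -/
theorem I2.split (D : Type) [CommRing D] (π : D) [h : Unif D π] (j : ℕ) (A : Type)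
    [AddCommGroup A] [Module D A] [Finite A] (hA : ∀ a : A, π ^ (j + 1) • a = 0) (a : A)
    (ha : π ^ j • a ≠ 0) :
    ∃ g : A →ₗ[D] E D π (j + 1), Nonempty (A ≃ₗ[D] (E D π (j + 1) × LinearMap.ker g)) := by
  have hker := I2.ann_eq π j a (hA a) ha
  set f0 : D →ₗ[D] A := LinearMap.toSpanSingleton D A a with hf0
  let f : LinearMap.range f0 →ₗ[D] E D π (j + 1) :=
    (Submodule.quotEquivOfEq _ _ hker).toLinearMap.comp f0.quotKerEquivRange.symm.toLinearMap
  obtain ⟨g, hg⟩ := ext_E D π (j + 1) A hA (LinearMap.range f0) f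
  have hgc : ∀ c : D, g (f0 c) = Submodule.mkQ (Ideal.span {π ^ (j + 1)}) c := by
    intro c
    have h1 := hg ⟨f0 c, c, rfl⟩
    rw [h1]
    simp only [f, LinearMap.comp_apply, LinearEquiv.coe_coe]
    rw [LinearMap.quotKerEquivRange_symm_apply_image f0 c ⟨c, rfl⟩]
    rfl
  let s : E D π (j + 1) →ₗ[D] A := Submodule.liftQ (Ideal.span {π ^ (j + 1)}) f0 (le_of_eq hker.symm)
  have hs : ∀ x, g (s x) = x := by
    intro x
    obtain ⟨c, rfl⟩ := Submodule.mkQ_surjective _ x
    have h5 : s (Submodule.mkQ (Ideal.span {π ^ (j + 1)}) c) = f0 c := rfl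
    rw [h5, hgc]
  refine ⟨g, ⟨?_⟩⟩
  exact
    { toFun := fun b => (g b, ⟨b - s (g b), by rw [LinearMap.mem_ker, map_sub, hs, sub_self]⟩)
      map_add' := by
        intro x y
        refine Prod.ext (map_add g x y) (Subtype.ext ?_)
        simp only [map_add, Prod.snd_add, Submodule.coe_add]
        abel
      map_smul' := by
        intro c x
        refine Prod.ext (map_smul g c x) (Subtype.ext ?_)
        simp only [map_smul, RingHom.id_apply, Prod.smul_snd, Submodule.coe_smul, smul_sub]
      invFun := fun p => s p.1 + p.2.1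
      left_inv := by
        intro b
        simp
      right_inv := by
        rintro ⟨x, k, hk⟩
        rw [LinearMap.mem_ker] at hk
        refine Prod.ext ?_ (Subtype.ext ?_)
        · simp only [map_add, hs, hk, add_zero]
        · simp only [map_add, hs, hk, add_zero, add_sub_cancel_left] }

theorem I2.qq_pos (D : Type) [CommRing D] (π : D) [h : Unif D π] : 0 < qq D π := by
  have := h.fin
  exact Nat.card_pos

/-- Putting `j` in front of a type with parts at most `j`. -/
def I2.consTy {d r : ℕ} (j : ℕ) (hj : j ≤ r) (l : Ty d j) : Ty (d + 1) r :=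
  ⟨Fin.cons ⟨j, Nat.lt_succ_iff.2 hj⟩ (fun i => ⟨(l.1 i : ℕ), by
      have := (l.1 i).2; omega⟩), by
    intro a b hab
    induction b using Fin.cases with
    | zero =>
      have : a = 0 := Fin.le_zero_iff.1 hab
      subst this
      exact le_rfl
    | succ b =>
      induction a using Fin.cases with
      | zero =>
        rw [Fin.cons_succ, Fin.cons_zero]
        exact Fin.mk_le_mk.2 (Nat.lt_succ_iff.1 (l.1 b).2)
      | succ a =>
        rw [Fin.cons_succ, Fin.cons_succ]
        exact Fin.mk_le_mk.2 (l.2 (Fin.succ_le_succ_iff.1 hab))⟩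

theorem exists_ty (D : Type) [CommRing D] (π : D) [Unif D π] (d r : ℕ) (A : Type)
    [AddCommGroup A] [Module D A] [Finite A] (hr : ∀ a : A, π ^ r • a = 0)
    (hs : Nat.card {a : A // π • a = 0} ≤ qq D π ^ d) : ∃ l : Ty d r, HasTy D π A l := by
  classical
  induction d generalizing r A with
  | zero =>
    have h0 := I2.trivial_of_tor π r hr (by simpa using hs)
    have hA : Subsingleton A := ⟨fun x y => by rw [h0 x, h0 y]⟩
    refine ⟨⟨fun i => 0, fun i _ _ => i.elim0⟩, ⟨?_⟩⟩
    exact
      { toFun := fun _ => 0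
        map_add' := fun _ _ => by simp
        map_smul' := fun _ _ => by simp
        invFun := fun _ => 0
        left_inv := fun x => Subsingleton.elim _ _
        right_inv := fun x => by funext i; exact i.elim0 }
  | succ d ih =>
    by_cases hA : ∀ a : A, a = 0
    · have hA' : Subsingleton A := ⟨fun x y => by rw [hA x, hA y]⟩
      refine ⟨⟨fun i => 0, fun i _ _ => le_rfl⟩, ⟨?_⟩⟩
      have h0 : Subsingleton (E D π 0) := by
        have := card_E D π 0
        rw [pow_zero, Nat.card_eq_one_iff_unique] at this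
        exact this.1
      exact
        { toFun := fun _ => 0
          map_add' := fun _ _ => by simp
          map_smul' := fun _ _ => by simp
          invFun := fun _ => 0
          left_inv := fun x => Subsingleton.elim _ _
          right_inv := fun x => by funext i; exact h0.elim _ _ }
    · have hex : ∃ m, ∀ a : A, π ^ m • a = 0 := ⟨r, hr⟩
      have hm := Nat.find_spec hex
      have hmr : Nat.find hex ≤ r := Nat.find_min' hex hr
      obtain ⟨j, hj⟩ : ∃ j, Nat.find hex = j + 1 := by
        refine Nat.exists_eq_succ_of_ne_zero fun h0 => hA fun a => ?_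
        rw [h0] at hm
        simpa using hm a
      have hlt := Nat.find_min hex (m := j) (by omega)
      rw [hj] at hm hmr
      push Not at hlt
      obtain ⟨a, ha⟩ := hlt
      obtain ⟨g, ⟨e⟩⟩ := I2.split D π j A hm a ha
      have hcard : Nat.card {a : LinearMap.ker g // π • a = 0} ≤ qq D π ^ d := by
        have hinj : Nat.card ({x : E D π (j + 1) // π • x = 0} ×
            {a : LinearMap.ker g // π • a = 0}) ≤ Nat.card {a : A // π • a = 0} := by
          refine Nat.card_le_card_of_injective (fun p => ⟨e.symm (p.1.1, p.2.1), ?_⟩) ?_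
          · rw [← map_smul, Prod.smul_mk, p.1.2, p.2.2]
            exact map_zero _
          · intro p p' hp
            have h1 := e.symm.injective (congrArg Subtype.val hp)
            have h2 := (Prod.mk.inj h1)
            exact Prod.ext (Subtype.ext h2.1) (Subtype.ext h2.2)
        rw [Nat.card_prod] at hinj
        have h3 := I2.card_tor_E_ge D π j
        have h4 : qq D π * Nat.card {a : LinearMap.ker g // π • a = 0} ≤ qq D π * qq D π ^ d := by
          calc qq D π * Nat.card {a : LinearMap.ker g // π • a = 0} ≤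
              Nat.card {x : E D π (j + 1) // π • x = 0} *
                Nat.card {a : LinearMap.ker g // π • a = 0} := Nat.mul_le_mul_right _ h3
            _ ≤ Nat.card {a : A // π • a = 0} := hinj
            _ ≤ qq D π ^ (d + 1) := hs
            _ = qq D π * qq D π ^ d := by rw [pow_succ']
        exact Nat.le_of_mul_le_mul_left h4 (I2.qq_pos D π)
      obtain ⟨l, ⟨e'⟩⟩ := ih (j + 1) (LinearMap.ker g)
        (fun a => Subtype.ext (by rw [Submodule.coe_smul]; exact hm a.1)) hcard
      refine ⟨I2.consTy (j + 1) hmr l, ⟨?_⟩⟩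
      have e2 : (E D π (j + 1) × EM D π l) ≃ₗ[D] EM D π (I2.consTy (j + 1) hmr l) :=
        Fin.consLinearEquiv D (fun i => E D π ((I2.consTy (j + 1) hmr l).1 i : ℕ))
      exact e.trans ((LinearEquiv.prodCongr (LinearEquiv.refl D _) e').trans e2)

theorem exists_ty_sub (D : Type) [CommRing D] (π : D) [Unif D π] {d r : ℕ} (l : Ty d r)
    (S : Submodule D (EM D π l)) : ∃ m : Ty d r, HasTy D π S m := by
  refine exists_ty D π d r S (fun a => Subtype.ext ?_) ?_
  · rw [Submodule.coe_smul]
    exact I2.EM_killed D π l a.1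
  · exact (I2.card_tor_le_of_inj π S.subtype S.injective_subtype).trans (I2.card_tor_EM_le D π l)

theorem exists_ty_quo (D : Type) [CommRing D] (π : D) [Unif D π] {d r : ℕ} (l : Ty d r)
    (K : Submodule D (EM D π l)) : ∃ m : Ty d r, HasTy D π (EM D π l ⧸ K) m := by
  have hfin : Finite (EM D π l ⧸ K) := Finite.of_surjective _ (Submodule.mkQ_surjective K)
  refine exists_ty D π d r _ (fun a => ?_) ?_
  · obtain ⟨b, rfl⟩ := Submodule.mkQ_surjective K a
    rw [← map_smul, I2.EM_killed D π l b, map_zero]
  · exact (I2.card_tor_le_of_surj π K.mkQ (Submodule.mkQ_surjective K)).trans (I2.card_tor_EM_le D π l)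

end Pool.Agent.R671.IS
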