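import Pool.Agent.R671.IS.I1

open Module

namespace Pool.Agent.R671.IS

theorem I3.zero_iff (D : Type) [CommRing D] (π : D) (b : ℕ) (Y : D) :
    (Ideal.Quotient.mk (Ideal.span {π ^ b}) Y) = 0 ↔ ∃ W, Y = π ^ b * W := by
  rw [Ideal.Quotient.eq_zero_iff_mem, Ideal.mem_span_singleton']
  constructor
  · rintro ⟨W, h⟩
    exact ⟨W, by rw [← h, mul_comm]⟩
  · rintro ⟨W, h⟩
    exact ⟨W, by rw [h, mul_comm]⟩

theorem I3.tors_le (D : Type) [CommRing D] (π : D) [Unif D π] (a b : ℕ) (hab : a ≤ b) :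
    Nat.card {x : E D π b // π ^ a • x = 0} = Nat.card (E D π a) := by
  have hba : π ^ (b - a) * π ^ a = π ^ b := by rw [← pow_add, Nat.sub_add_cancel hab]
  let F0 : E D π a →ₗ[D] E D π b :=
    Submodule.mapQ (Ideal.span {π ^ a}) (Ideal.span {π ^ b}) (LinearMap.lsmul D D (π ^ (b - a)))
      (by
        intro x hx
        obtain ⟨w, rfl⟩ := Ideal.mem_span_singleton'.1 hx
        exact Ideal.mem_span_singleton'.2 ⟨w, by
          rw [LinearMap.lsmul_apply, smul_eq_mul, ← hba]; ring⟩)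
  have hF0 : ∀ y : D, F0 (Ideal.Quotient.mk _ y) =
      Ideal.Quotient.mk (Ideal.span {π ^ b}) (π ^ (b - a) * y) := fun y => rfl
  have hmem : ∀ x, π ^ a • F0 x = 0 := by
    intro x
    obtain ⟨y, rfl⟩ := Ideal.Quotient.mk_surjective x
    rw [hF0]
    have : π ^ a • Ideal.Quotient.mk (Ideal.span {π ^ b}) (π ^ (b - a) * y) =
      Ideal.Quotient.mk (Ideal.span {π ^ b}) (π ^ a * (π ^ (b - a) * y)) := rfl
    rw [this, I3.zero_iff]
    exact ⟨y, by rw [← hba]; ring⟩
  symm
  refine Nat.card_congr (Equiv.ofBijective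
    (fun x => (⟨F0 x, hmem x⟩ : {x : E D π b // π ^ a • x = 0})) ⟨?_, ?_⟩)
  · have hinj : Function.Injective F0 := by
      rw [← LinearMap.ker_eq_bot, LinearMap.ker_eq_bot']
      intro x hx
      obtain ⟨y, rfl⟩ := Ideal.Quotient.mk_surjective x
      rw [hF0, I3.zero_iff] at hx
      obtain ⟨W, hW⟩ := hx
      rw [I3.zero_iff]
      refine ⟨W, I1.reg_pow D π (b - a) _ _ ?_⟩
      rw [hW, ← hba]
      ring
    intro x y hxy
    exact hinj (congrArg Subtype.val hxy)
  · rintro ⟨x, hx⟩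
    obtain ⟨Y, rfl⟩ := Ideal.Quotient.mk_surjective x
    have h1 : Ideal.Quotient.mk (Ideal.span {π ^ b}) (π ^ a * Y) = 0 := hx
    rw [I3.zero_iff] at h1
    obtain ⟨W, hW⟩ := h1
    refine ⟨Ideal.Quotient.mk _ W, Subtype.ext ?_⟩
    show F0 (Ideal.Quotient.mk _ W) = _
    rw [hF0]
    congr 1
    symm
    apply I1.reg_pow D π a
    rw [hW, ← hba]
    ring

theorem I3.card_E (D : Type) [CommRing D] (π : D) [Unif D π] (j : ℕ) :
    Nat.card (E D π j) = qq D π ^ j := by
  induction j with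
  | zero =>
    rw [pow_zero]
    have h1 : Ideal.span {π ^ 0} = (⊤ : Ideal D) := by
      rw [pow_zero, Ideal.span_singleton_one]
    have : Subsingleton (E D π 0) := by
      refine ⟨fun x y => ?_⟩
      obtain ⟨X, rfl⟩ := Ideal.Quotient.mk_surjective x
      obtain ⟨Y, rfl⟩ := Ideal.Quotient.mk_surjective y
      rw [Ideal.Quotient.eq, h1]
      trivial
    exact Nat.card_unique
  | succ j ih =>
    let f : E D π (j + 1) →ₗ[D] E D π (j + 1) := LinearMap.lsmul D (E D π (j + 1)) (π ^ j)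
    have hf : ∀ x, f x = π ^ j • x := fun x => rfl
    have h1 := Submodule.card_eq_card_quotient_mul_card (LinearMap.ker f)
    have h2 : Nat.card (LinearMap.ker f) = Nat.card (E D π j) := by
      rw [← I3.tors_le D π j (j + 1) (Nat.le_succ j)]
      exact Nat.card_congr (Equiv.subtypeEquivRight fun x => by rw [LinearMap.mem_ker, hf])
    have h3 : Nat.card (E D π (j + 1) ⧸ LinearMap.ker f) = qq D π := by
      rw [Nat.card_congr f.quotKerEquivRange.toEquiv]
      have h4 : qq D π = Nat.card (E D π 1) := by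
        unfold qq E
        rw [pow_one]
      rw [h4, ← I3.tors_le D π 1 (j + 1) (by omega)]
      refine Nat.card_congr (Equiv.subtypeEquivRight fun x => ?_)
      constructor
      · rintro ⟨y, rfl⟩
        rw [hf, smul_smul, ← pow_add, add_comm 1 j]
        obtain ⟨Y, rfl⟩ := Ideal.Quotient.mk_surjective y
        have : π ^ (j + 1) • Ideal.Quotient.mk (Ideal.span {π ^ (j + 1)}) Y =
          Ideal.Quotient.mk (Ideal.span {π ^ (j + 1)}) (π ^ (j + 1) * Y) := rfl
        rw [this, I3.zero_iff]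
        exact ⟨Y, rfl⟩
      · intro hx
        obtain ⟨Y, rfl⟩ := Ideal.Quotient.mk_surjective x
        have h5 : Ideal.Quotient.mk (Ideal.span {π ^ (j + 1)}) (π ^ 1 * Y) = 0 := hx
        rw [I3.zero_iff] at h5
        obtain ⟨W, hW⟩ := h5
        refine ⟨Ideal.Quotient.mk _ W, ?_⟩
        have h6 : f (Ideal.Quotient.mk _ W) =
          Ideal.Quotient.mk (Ideal.span {π ^ (j + 1)}) (π ^ j * W) := rfl
        rw [h6]
        congr 1
        symm
        apply I1.reg_pow D π 1
        rw [hW]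
        ring
    rw [h2, h3, ih] at h1
    rw [h1, pow_succ]
    try ring

theorem I3.tors (D : Type) [CommRing D] (π : D) [Unif D π] (a b : ℕ) :
    Nat.card {x : E D π b // π ^ a • x = 0} = qq D π ^ (min a b) := by
  rcases le_total a b with h | h
  · rw [min_eq_left h, I3.tors_le D π a b h, I3.card_E]
  · rw [min_eq_right h, ← I3.card_E]
    refine Nat.card_congr (Equiv.subtypeUnivEquiv fun x => ?_)
    obtain ⟨Y, rfl⟩ := Ideal.Quotient.mk_surjective x
    have : π ^ a • Ideal.Quotient.mk (Ideal.span {π ^ b}) Y =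
      Ideal.Quotient.mk (Ideal.span {π ^ b}) (π ^ a * Y) := rfl
    rw [this, I3.zero_iff]
    refine ⟨π ^ (a - b) * Y, ?_⟩
    rw [← mul_assoc, ← pow_add, Nat.add_sub_cancel' h]

theorem I3.tors_EM (D : Type) [CommRing D] (π : D) [Unif D π] {d r : ℕ} (m : Ty d r) (a : ℕ) :
    Nat.card {x : EM D π m // π ^ a • x = 0} = qq D π ^ (∑ j, min a (m.1 j : ℕ)) := by
  have e1 : {x : EM D π m // π ^ a • x = 0} ≃
      {x : EM D π m // ∀ j, π ^ a • x j = 0} :=
    Equiv.subtypeEquivRight fun x => by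
      rw [funext_iff]
      rfl
  rw [Nat.card_congr (e1.trans (Equiv.subtypePiEquivPi
    (p := fun {j : Fin d} (y : E D π (m.1 j : ℕ)) => π ^ a • y = 0))), Nat.card_pi,
    Finset.prod_congr rfl fun j _ => I3.tors D π a (m.1 j : ℕ), Finset.prod_pow_eq_pow_sum]

/-- homomorphisms from a cyclic module -/
noncomputable def I3.homE (D : Type) [CommRing D] (π : D) (a : ℕ) (A : Type) [AddCommGroup A]
    [Module D A] : (E D π a →ₗ[D] A) ≃ {x : A // π ^ a • x = 0} where
  toFun f := ⟨f (Ideal.Quotient.mk _ 1), by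
    rw [← map_smul]
    have : π ^ a • Ideal.Quotient.mk (Ideal.span {π ^ a}) 1 =
      Ideal.Quotient.mk (Ideal.span {π ^ a}) (π ^ a * 1) := rfl
    rw [this, (I3.zero_iff D π a (π ^ a * 1)).2 ⟨1, rfl⟩, map_zero]⟩
  invFun x := Submodule.liftQ (Ideal.span {π ^ a}) (LinearMap.toSpanSingleton D A x.1) (by
    intro y hy
    obtain ⟨w, rfl⟩ := Ideal.mem_span_singleton'.1 hy
    rw [LinearMap.mem_ker, LinearMap.toSpanSingleton_apply, mul_smul, x.2, smul_zero])
  left_inv f := by
    apply LinearMap.ext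
    intro y
    obtain ⟨Y, rfl⟩ := Ideal.Quotient.mk_surjective y
    show Y • f (Ideal.Quotient.mk _ 1) = f (Ideal.Quotient.mk _ Y)
    rw [← map_smul]
    congr 1
    show Ideal.Quotient.mk (Ideal.span {π ^ a}) (Y * 1) = _
    rw [mul_one]
  right_inv x := by
    apply Subtype.ext
    show (1 : D) • x.1 = x.1
    rw [one_smul]

theorem card_hom (D : Type) [CommRing D] (π : D) [Unif D π] {d r : ℕ} (l m : Ty d r) :
    hom D π l m = qq D π ^ (∑ i, ∑ j, min (l.1 i : ℕ) (m.1 j : ℕ)) := by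
  unfold hom
  have e1 : (EM D π l →ₗ[D] EM D π m) ≃ ((i : Fin d) → (E D π (l.1 i : ℕ) →ₗ[D] EM D π m)) :=
    (LinearMap.lsum D (fun i : Fin d => E D π (l.1 i : ℕ)) D).symm.toEquiv
  rw [Nat.card_congr e1, Nat.card_pi]
  have h1 : ∀ i : Fin d, Nat.card (E D π (l.1 i : ℕ) →ₗ[D] EM D π m) =
      qq D π ^ (∑ j, min (l.1 i : ℕ) (m.1 j : ℕ)) := fun i => by
    rw [Nat.card_congr (I3.homE D π (l.1 i : ℕ) (EM D π m)), I3.tors_EM]
  rw [Finset.prod_congr rfl fun i _ => h1 i, Finset.prod_pow_eq_pow_sum]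

theorem I3.qq_two (D : Type) [CommRing D] (π : D) [h : Unif D π] : 2 ≤ qq D π := by
  have := h.fin
  have h1 : Nontrivial (D ⧸ Ideal.span {π}) := Ideal.Quotient.nontrivial_iff.2 h.max.ne_top
  exact Finite.one_lt_card_iff_nontrivial.2 h1

theorem I3.mem_iff {d : ℕ} (l : Fin d → ℕ) (hl : Antitone l) (j : ℕ) (i : Fin d) :
    j < l i ↔ (i : ℕ) < (Finset.univ.filter fun i : Fin d => j < l i).card := by
  constructor
  · intro h
    have h1 : Finset.Iic i ⊆ Finset.univ.filter fun i : Fin d => j < l i := by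
      intro i' hi'
      rw [Finset.mem_Iic] at hi'
      exact Finset.mem_filter.2 ⟨Finset.mem_univ _, h.trans_le (hl hi')⟩
    have h2 := Finset.card_le_card h1
    rw [Fin.card_Iic] at h2
    omega
  · intro h
    by_contra hc
    have h1 : (Finset.univ.filter fun i : Fin d => j < l i) ⊆ Finset.Iio i := by
      intro i' hi'
      rw [Finset.mem_Iio]
      by_contra hn
      rw [not_lt] at hn
      have h3 := (Finset.mem_filter.1 hi').2
      exact hc (h3.trans_le (hl hn))
    have h2 := Finset.card_le_card h1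
    rw [Fin.card_Iio] at h2
    omega

theorem ty_unique (D : Type) [CommRing D] (π : D) [Unif D π] {d r : ℕ} (l m : Ty d r)
    (e : Nonempty (EM D π l ≃ₗ[D] EM D π m)) : l = m := by
  obtain ⟨e⟩ := e
  have h1 : ∀ a : ℕ, ∑ j, min a (l.1 j : ℕ) = ∑ j, min a (m.1 j : ℕ) := by
    intro a
    have h2 : Nat.card {x : EM D π l // π ^ a • x = 0} =
        Nat.card {x : EM D π m // π ^ a • x = 0} := by
      refine Nat.card_congr (e.toEquiv.subtypeEquiv fun x => ?_)
      constructor
      · intro h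
        show π ^ a • e x = 0
        rw [← map_smul, h, map_zero]
      · intro h
        have h' : π ^ a • e x = 0 := h
        rw [← map_smul] at h'
        exact (LinearEquiv.map_eq_zero_iff e).1 h'
    rw [I3.tors_EM, I3.tors_EM] at h2
    exact Nat.pow_right_injective (I3.qq_two D π) h2
  have h3 : ∀ (n : Ty d r) (a : ℕ), ∑ j, min (a + 1) (n.1 j : ℕ) = ∑ j, min a (n.1 j : ℕ) +
      (Finset.univ.filter fun i : Fin d => a < (n.1 i : ℕ)).card := by
    intro n a
    rw [Finset.card_filter, ← Finset.sum_add_distrib]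
    refine Finset.sum_congr rfl fun j _ => ?_
    split_ifs <;> omega
  have h4 : ∀ a : ℕ, (Finset.univ.filter fun i : Fin d => a < (l.1 i : ℕ)).card =
      (Finset.univ.filter fun i : Fin d => a < (m.1 i : ℕ)).card := by
    intro a
    have e1 := h3 l a
    have e2 := h3 m a
    have e3 := h1 a
    have e4 := h1 (a + 1)
    omega
  apply Subtype.ext
  funext i
  apply Fin.ext
  have hl : Antitone fun i : Fin d => (l.1 i : ℕ) := fun i j hij => l.2 hij
  have hm : Antitone fun i : Fin d => (m.1 i : ℕ) := fun i j hij => m.2 hij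
  have h5 : ∀ a : ℕ, a < (l.1 i : ℕ) ↔ a < (m.1 i : ℕ) := by
    intro a
    rw [I3.mem_iff (fun i : Fin d => (l.1 i : ℕ)) hl a i,
      I3.mem_iff (fun i : Fin d => (m.1 i : ℕ)) hm a i, h4 a]
  apply le_antisymm
  · by_contra hc
    push Not at hc
    exact lt_irrefl _ ((h5 _).1 hc)
  · by_contra hc
    push Not at hc
    exact lt_irrefl _ ((h5 _).2 hc)

end Pool.Agent.R671.IS
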