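import Pool.Agent.R671.IS.I4core
import Pool.Agent.R671.IS.I2
import Pool.Agent.R671.IS.I3

open Module
namespace Pool.Agent.R671.IS

theorem hom_eq_sum (D : Type) [CommRing D] (π : D) [Unif D π] {d r : ℕ} (l m : Ty d r) :
    hom D π l m = ∑ n : Ty d r, quo D π l n * aut D π n * sub D π n m :=
  i4_hom_eq_sum D π (ty_unique D π) (exists_ty_sub D π) l m

theorem ldu (D : Type) [CommRing D] (π : D) [Unif D π] (D' : Type) [CommRing D'] (π' : D')
    [Unif D' π'] (hq : qq D π = qq D' π') {d r : ℕ} (l m : Ty d r) :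
    quo D π l m = quo D' π' l m ∧ sub D π l m = sub D' π' l m ∧ aut D π l = aut D' π' l :=
  i4_ldu D π D' π' (fun l m => by rw [card_hom, card_hom, hq])
    (card_EM D π) (ty_unique D π) (exists_ty_sub D π)
    (card_EM D' π') (ty_unique D' π') (exists_ty_sub D' π') l m

theorem hom_span (D : Type) [CommRing D] (π : D) [Unif D π] {d r : ℕ} (t : Ty d r → ℝ) :
    ∃ a : Ty d r → ℝ, ∀ m, t m = ∑ l, a l * (hom D π l m : ℝ) :=
  i4_hom_span D π (card_EM D π) (ty_unique D π) (exists_ty_sub D π) t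

end Pool.Agent.R671.IS
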