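import Pool.Agent.R671.IS.Defs

/-!
# MP_acbd57_co, piece I5: extension of injective maps to automorphisms
-/

set_option autoImplicit false

open Module

namespace Pool.Agent.R671.IS

namespace I5

variable {D : Type} [CommRing D] {π : D}

theorem unit_mod [h : Unif D π] {c : D} (hc : c ∉ Ideal.span {π}) : ∃ a b : D, a * c + b * π = 1 := by
  obtain ⟨a, b, hb, hab⟩ := h.max.exists_inv hc
  obtain ⟨b', rfl⟩ := Ideal.mem_span_singleton'.1 hb
  exact ⟨a, b', hab⟩

section

variable {F : Type} [AddCommGroup F] [Module D F]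

theorem ann [Unif D π] {x : F} (hx : x ≠ 0) (hπ : π • x = 0) {c : D} (hc : c • x = 0) :
    ∃ c', c = c' * π := by
  by_contra h
  have hc' : c ∉ Ideal.span {π} := by
    intro h'
    obtain ⟨a, ha⟩ := Ideal.mem_span_singleton'.1 h'
    exact h ⟨a, ha.symm⟩
  obtain ⟨a, b, hab⟩ := unit_mod hc'
  apply hx
  calc x = (a * c + b * π) • x := by rw [hab, one_smul]
    _ = 0 := by rw [add_smul, mul_smul, mul_smul, hc, hπ, smul_zero, smul_zero, add_zero]

theorem mem_of_smul [Unif D π] {x : F} (hπ : π • x = 0) {c : D} (S : Submodule D F)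
    (hc : c • x ∈ S) (hx : x ∉ S) : c • x = 0 := by
  by_cases h : c ∈ Ideal.span {π}
  · obtain ⟨a, rfl⟩ := Ideal.mem_span_singleton'.1 h
    rw [mul_smul, hπ, smul_zero]
  · obtain ⟨a, b, hab⟩ := unit_mod h
    exfalso
    apply hx
    have : x = a • (c • x) := by
      calc x = (a * c + b * π) • x := by rw [hab, one_smul]
        _ = a • (c • x) := by rw [add_smul, mul_smul, mul_smul, hπ, smul_zero, add_zero]
    rw [this]
    exact S.smul_mem _ hc

/-- one step -/
theorem step [Unif D π] [Finite F] (S : Submodule D F) (θ : S →ₗ[D] F)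
    (hθ : Function.Injective θ) (x : F) (hπ : π • x = 0) (hx : x ∉ S) :
    ∃ (S' : Submodule D F) (θ' : S' →ₗ[D] F), S < S' ∧ Function.Injective θ' ∧
      ∀ (s : S) (s' : S'), (s : F) = s' → θ' s' = θ s := by
  -- an element of the socle outside of the range
  obtain ⟨y, hy0, hy⟩ : ∃ y : F, π • y = 0 ∧ y ∉ LinearMap.range θ := by
    by_contra hcon
    push Not at hcon
    have h1 : ∀ y : {y : F // π • y = 0}, ∃ s : S, θ s = y.1 := fun y => hcon y.1 y.2
    choose φ hφ using h1
    have hφπ : ∀ y, π • ((φ y : S) : F) = 0 := by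
      intro y
      have : θ (π • φ y) = θ 0 := by rw [map_smul, hφ, y.2, map_zero]
      have := congrArg (fun s : S => (s : F)) (hθ this)
      simpa using this
    let ψ : {y : F // π • y = 0} → {y : F // π • y = 0} := fun y => ⟨φ y, hφπ y⟩
    have hinj : Function.Injective ψ := by
      intro y y' h
      have h3 : ((φ y : S) : F) = φ y' := congrArg (fun t : {y : F // π • y = 0} => t.1) h
      have h2 : φ y = φ y' := Subtype.ext h3
      apply Subtype.ext
      rw [← hφ y, ← hφ y', h2]
    obtain ⟨y, hy⟩ := Finite.injective_iff_surjective.1 hinj ⟨x, hπ⟩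
    have : ((φ y : S) : F) = x := congrArg Subtype.val hy
    exact hx (this ▸ (φ y).2)
  have hx0 : x ≠ 0 := by
    rintro rfl
    exact hx S.zero_mem
  have hyn : y ≠ 0 := by
    rintro rfl
    exact hy (Submodule.zero_mem _)
  let f : F →ₗ.[D] F := ⟨S, θ⟩
  let g : F →ₗ.[D] F := LinearPMap.mkSpanSingleton' x y (by
    intro c hc
    obtain ⟨c', rfl⟩ := ann hx0 hπ hc
    rw [RingHom.id_apply, mul_smul, hy0, smul_zero])
  have hg : ∀ (c : D) (h : c • x ∈ g.domain), g ⟨c • x, h⟩ = c • y := by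
    intro c h
    exact LinearPMap.mkSpanSingleton'_apply x y _ c h
  have hgd : ∀ u : g.domain, ∃ c : D, (u : F) = c • x := by
    intro u
    obtain ⟨c, hc⟩ := Submodule.mem_span_singleton.1 u.2
    exact ⟨c, hc.symm⟩
  have H : ∀ (s : f.domain) (u : g.domain), (s : F) = u → f s = g u := by
    rintro s ⟨u, hu⟩ hsu
    obtain ⟨c, hc⟩ := hgd ⟨u, hu⟩
    simp only at hc hsu
    subst hc
    rw [hg]
    have h1 : c • x = 0 := mem_of_smul hπ S (hsu ▸ s.2) hx
    obtain ⟨c', rfl⟩ := ann hx0 hπ h1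
    rw [mul_smul, hy0, smul_zero]
    rw [h1] at hsu
    have h2 : s = 0 := Subtype.ext hsu
    rw [h2]
    exact map_zero θ
  refine ⟨(f.sup g H).domain, (f.sup g H).toFun, ?_, ?_, ?_⟩
  · refine lt_of_le_of_ne le_sup_left ?_
    intro h
    apply hx
    have h1 : x ∈ g.domain := Submodule.mem_span_singleton_self x
    have h2 : x ∈ (f.sup g H).domain := Submodule.mem_sup_right h1
    rw [← h] at h2
    exact h2
  · rw [injective_iff_map_eq_zero]
    rintro ⟨z, hz⟩ h0
    obtain ⟨s, hs, u, hu, hsu⟩ := Submodule.mem_sup.1 hz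
    obtain ⟨c, hc⟩ := hgd ⟨u, hu⟩
    simp only at hc
    subst hc
    have h1 := LinearPMap.sup_apply H ⟨s, hs⟩ ⟨c • x, hu⟩ ⟨z, hz⟩ hsu
    rw [hg] at h1
    have h2 : θ ⟨s, hs⟩ + c • y = 0 := h1.symm.trans h0
    have h3 : c • y = 0 := by
      refine mem_of_smul hy0 (LinearMap.range θ) ?_ hy
      have : c • y = θ (-⟨s, hs⟩) := by
        rw [map_neg]
        exact eq_neg_of_add_eq_zero_right h2
      rw [this]
      exact LinearMap.mem_range_self _ _
    rw [h3, add_zero] at h2
    have h4 : (⟨s, hs⟩ : S) = 0 := hθ (h2.trans (map_zero θ).symm)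
    have h5 : s = 0 := congrArg Subtype.val h4
    obtain ⟨c', rfl⟩ := ann hyn hy0 h3
    apply Subtype.ext
    show z = 0
    rw [← hsu, h5, mul_smul, hπ, smul_zero, add_zero]
  · intro s s' hss
    have h1 := LinearPMap.sup_apply H s (0 : g.domain) s' (by
      rw [Submodule.coe_zero, add_zero]
      exact hss)
    have h2 : g (0 : g.domain) = 0 := map_zero _
    rw [h2, add_zero] at h1
    exact h1

end

theorem pow_smul_RD (r k : ℕ) (x : RD D π r k) : π ^ r • x = 0 := by
  funext i
  rw [Pi.smul_apply, Pi.zero_apply]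
  obtain ⟨d, hd⟩ := Ideal.Quotient.mk_surjective (x i)
  rw [← hd]
  show Ideal.Quotient.mk (Ideal.span {π ^ r}) (π ^ r * d) = 0
  rw [Ideal.Quotient.eq_zero_iff_mem]
  exact Ideal.mul_mem_right _ _ (Ideal.mem_span_singleton_self _)

/-- an endomorphism which is injective on the socle is injective -/
theorem inj_of_socle {F : Type} [AddCommGroup F] [Module D F] (r : ℕ)
    (hr : ∀ x : F, π ^ r • x = 0) (g : F →ₗ[D] F) (h : ∀ x : F, π • x = 0 → g x = 0 → x = 0) :
    Function.Injective g := by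
  rw [injective_iff_map_eq_zero]
  intro x hx
  have key : ∀ j : ℕ, π ^ j • x = 0 → x = 0 := by
    intro j
    induction j with
    | zero =>
      intro h0
      simpa using h0
    | succ j ih =>
      intro h0
      apply ih
      apply h
      · rw [smul_smul, ← pow_succ']
        exact h0
      · rw [map_smul, hx, smul_zero]
  exact key r (hr x)

/-- `ext_E` as a hypothesis, for fixed `D` and `π` -/
def ExtE (D : Type) [CommRing D] (π : D) : Prop :=
  ∀ (j : ℕ) (A : Type) [AddCommGroup A] [Module D A] [Finite A] (_ : ∀ a : A, π ^ j • a = 0)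
    (S : Submodule D A) (f : S →ₗ[D] E D π j), ∃ g : A →ₗ[D] E D π j, ∀ s : S, g s = f s

theorem aux (hE : ExtE D π) [Unif D π] (r k : ℕ) (S : Submodule D (RD D π r k)) :
    ∀ (θ : S →ₗ[D] RD D π r k), Function.Injective θ →
    ∃ γ : RD D π r k ≃ₗ[D] RD D π r k, ∀ s : S, γ s = θ s := by
  induction S using WellFoundedGT.induction with
  | _ S ih =>
    intro θ hθ
    by_cases hS : ∀ x : RD D π r k, π • x = 0 → x ∈ S
    · have h1 : ∀ i : Fin k, ∃ g : RD D π r k →ₗ[D] E D π r, ∀ s : S, g s = θ s i := fun i =>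
        hE r (RD D π r k) (pow_smul_RD r k) S ((LinearMap.proj i).comp θ)
      choose g hg using h1
      let G : RD D π r k →ₗ[D] RD D π r k := LinearMap.pi g
      have hG : ∀ s : S, G s = θ s := by
        intro s
        funext i
        exact hg i s
      have hinj : Function.Injective G := by
        refine inj_of_socle r (pow_smul_RD r k) G (fun x hx hgx => ?_)
        have h2 : θ ⟨x, hS x hx⟩ = 0 := by
          rw [← hG]
          exact hgx
        have h3 : (⟨x, hS x hx⟩ : S) = 0 := hθ (h2.trans (map_zero θ).symm)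
        exact congrArg Subtype.val h3
      exact ⟨LinearEquiv.ofBijective G ⟨hinj, Finite.injective_iff_surjective.1 hinj⟩, hG⟩
    · push Not at hS
      obtain ⟨x, hπ, hx⟩ := hS
      obtain ⟨S', θ', hlt, hθ', hext⟩ := step S θ hθ x hπ hx
      obtain ⟨γ, hγ⟩ := ih S' hlt θ' hθ'
      refine ⟨γ, fun s => ?_⟩
      have h1 : (s : RD D π r k) ∈ S' := hlt.le s.2
      exact (hγ ⟨s, h1⟩).trans (hext s ⟨s, h1⟩ rfl)

end I5

/-- extension of injective maps to automorphisms (from `ext_E`) -/
theorem ext_aut_of (D : Type) [CommRing D] (π : D) [Unif D π] (hE : I5.ExtE D π) (r k : ℕ)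
    (S : Submodule D (RD D π r k)) (θ : S →ₗ[D] RD D π r k) (hθ : Function.Injective θ) :
    ∃ γ : RD D π r k ≃ₗ[D] RD D π r k, ∀ s : S, γ s = θ s :=
  I5.aux hE r k S θ hθ

end Pool.Agent.R671.IS
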