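import Pool.Agent.R671.IS.Defs

set_option autoImplicit false

/-! MP_acbd57_co, piece I6: numbers of free submodules, and of free submodules over a given
submodule. -/

open Module

namespace Pool.Agent.R671.IS

/-- the statement of `ldu` (piece I4) -/
def I6.S_ldu : Prop := ∀ (D : Type) [CommRing D] (π : D) [Unif D π] (D' : Type) [CommRing D']
    (π' : D') [Unif D' π'], qq D π = qq D' π' → ∀ {d r : ℕ} (l m : Ty d r),
    quo D π l m = quo D' π' l m ∧ sub D π l m = sub D' π' l m ∧ aut D π l = aut D' π' l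

/-- the statement of `ext_aut` (piece I5) -/
def I6.S_ext_aut : Prop := ∀ (D : Type) [CommRing D] (π : D) [Unif D π] (r k : ℕ)
    (S : Submodule D (RD D π r k)) (θ : S →ₗ[D] RD D π r k), Function.Injective θ →
    ∃ γ : RD D π r k ≃ₗ[D] RD D π r k, ∀ s : S, γ s = θ s

namespace I6

section general

variable {D : Type} [CommRing D]

/-- transport of the submodules of a given type -/
lemma card_transport {A B C C' : Type} [AddCommGroup A] [Module D A] [AddCommGroup B] [Module D B]
    [AddCommGroup C] [Module D C] [AddCommGroup C'] [Module D C'] (e : A ≃ₗ[D] B)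
    (c : C ≃ₗ[D] C') :
    Nat.card {W : Submodule D A // Nonempty (W ≃ₗ[D] C)} =
      Nat.card {S : Submodule D B // Nonempty (S ≃ₗ[D] C')} := by
  apply Nat.card_congr
  refine Equiv.subtypeEquiv (Submodule.orderIsoMapComap e).toEquiv fun W => ?_
  have f : W ≃ₗ[D] W.map (e : A →ₗ[D] B) := e.submoduleMap W
  exact ⟨fun ⟨g⟩ => ⟨(f.symm.trans g).trans c⟩, fun ⟨g⟩ => ⟨(f.trans g).trans c.symm⟩⟩

/-- submodules of `U` of a given type -/
lemma card_below {A C : Type} [AddCommGroup A] [Module D A] [AddCommGroup C] [Module D C]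
    (U : Submodule D A) :
    Nat.card {V : {W : Submodule D A // Nonempty (W ≃ₗ[D] C)} // V.1 ≤ U} =
      Nat.card {S : Submodule D U // Nonempty (S ≃ₗ[D] C)} := by
  apply Nat.card_congr
  refine
    { toFun := fun V => ⟨V.1.1.comap U.subtype, ?_⟩
      invFun := fun S => ⟨⟨S.1.map U.subtype, ?_⟩, ?_⟩
      left_inv := ?_
      right_inv := ?_ }
  · obtain ⟨g⟩ := V.1.2
    exact ⟨(Submodule.comapSubtypeEquivOfLe V.2).trans g⟩
  · obtain ⟨g⟩ := S.2
    exact ⟨(Submodule.equivMapOfInjective U.subtype U.injective_subtype S.1).symm.trans g⟩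
  · exact Submodule.map_subtype_le U S.1
  · intro V
    apply Subtype.ext
    apply Subtype.ext
    simp only [Submodule.map_comap_subtype]
    exact inf_eq_right.2 V.2
  · intro S
    apply Subtype.ext
    exact Submodule.comap_map_eq_of_injective U.injective_subtype S.1

/-- double counting -/
lemma double_count {A B : Type} [Finite A] [Finite B] (R : A → B → Prop) (c c' : ℕ)
    (h : ∀ a, Nat.card {b // R a b} = c) (h' : ∀ b, Nat.card {a // R a b} = c') :
    Nat.card A * c = Nat.card B * c' := by
  have := Fintype.ofFinite A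
  have := Fintype.ofFinite B
  have e1 : Nat.card (Σ a, {b // R a b}) = Nat.card A * c := by
    rw [Nat.card_sigma]
    simp only [h, Finset.sum_const, Finset.card_univ, Nat.card_eq_fintype_card, smul_eq_mul]
  have e2 : Nat.card (Σ b, {a // R a b}) = Nat.card B * c' := by
    rw [Nat.card_sigma]
    simp only [h', Finset.sum_const, Finset.card_univ, Nat.card_eq_fintype_card, smul_eq_mul]
  rw [← e1, ← e2]
  apply Nat.card_congr
  exact
    { toFun := fun x => ⟨x.2.1, x.1, x.2.2⟩
      invFun := fun x => ⟨x.2.1, x.1, x.2.2⟩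
      left_inv := fun _ => rfl
      right_inv := fun _ => rfl }

end general

/-- change of the exponent -/
def castE (D : Type) [CommRing D] (π : D) {a b : ℕ} (h : a = b) : E D π a ≃ₗ[D] E D π b := by
  subst h
  exact LinearEquiv.refl D _

lemma castE_castE (D : Type) [CommRing D] (π : D) {a b : ℕ} (h : a = b) (h' : b = a)
    (x : E D π a) : castE D π h' (castE D π h x) = x := by
  subst h
  rfl

lemma sub_E (D : Type) [CommRing D] (π : D) {a : ℕ} (h : a = 0) (x : E D π a) : x = 0 := by
  subst h
  obtain ⟨y, rfl⟩ := Ideal.Quotient.mk_surjective x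
  rw [Ideal.Quotient.eq_zero_iff_mem]
  simp

/-- the free module of rank `k` as the module of type `top d r k` -/
lemma free_equiv (D : Type) [CommRing D] (π : D) (d r k : ℕ) (hk : k ≤ d) :
    Nonempty ((Fin k → E D π r) ≃ₗ[D] EM D π (top d r k)) := by
  have h1 : ∀ i : Fin d, (i : ℕ) < k → r = ((top d r k).1 i : ℕ) := by
    intro i hi
    simp [top, hi]
  have h2 : ∀ i : Fin d, ¬ (i : ℕ) < k → ((top d r k).1 i : ℕ) = 0 := by
    intro i hi
    simp [top, hi]
  refine ⟨
    { toFun := fun v i => if h : (i : ℕ) < k then castE D π (h1 i h) (v ⟨i, h⟩) else 0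
      map_add' := ?_
      map_smul' := ?_
      invFun := fun w j => castE D π (h1 (Fin.castLE hk j) j.2).symm (w (Fin.castLE hk j))
      left_inv := ?_
      right_inv := ?_ }⟩
  · intro v w
    funext i
    simp only [Pi.add_apply]
    split_ifs with h
    · exact map_add _ _ _
    · rw [add_zero]
  · intro c v
    funext i
    simp only [Pi.smul_apply, RingHom.id_apply]
    split_ifs with h
    · exact map_smul _ _ _
    · rw [smul_zero]
  · intro v
    funext j
    simp only [Fin.val_castLE, j.2, dite_true]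
    exact castE_castE D π _ _ _
  · intro w
    funext i
    simp only
    split_ifs with h
    · exact castE_castE D π _ _ _
    · exact (sub_E D π (h2 i h) _).symm

instance finite_sub (D : Type) [CommRing D] (π : D) [Unif D π] (r d : ℕ) :
    Finite (Submodule D (RD D π r d)) :=
  Finite.of_injective (fun S : Submodule D (RD D π r d) => (S : Set (RD D π r d)))
    SetLike.coe_injective

lemma card_FS_eq (D : Type) [CommRing D] (π : D) (r d n : ℕ) (hn : n ≤ d) :
    Nat.card (FS D π r d n) = sub D π (top d r n) (top d r d) := by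
  obtain ⟨e⟩ := free_equiv D π d r d le_rfl
  obtain ⟨c⟩ := free_equiv D π d r n hn
  exact card_transport e c

/-- the number of free submodules over `S` depends only on the isomorphism class of `S` -/
lemma over_iso (hext : S_ext_aut) (D : Type) [CommRing D] (π : D) [Unif D π] (r d n : ℕ)
    (S S1 : Submodule D (RD D π r d)) (e : S ≃ₗ[D] S1) :
    Nat.card {W : FS D π r d n // S ≤ W.1} = Nat.card {W : FS D π r d n // S1 ≤ W.1} := by
  obtain ⟨γ, hγ⟩ := hext D π r d S (S1.subtype.comp (e : S →ₗ[D] S1))
    (S1.injective_subtype.comp e.injective)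
  have hmap : S.map (γ : RD D π r d →ₗ[D] RD D π r d) = S1 := by
    ext x
    constructor
    · rintro ⟨s, hs, rfl⟩
      have := hγ ⟨s, hs⟩
      simp only [LinearMap.comp_apply, Submodule.subtype_apply, LinearEquiv.coe_coe] at this
      rw [LinearEquiv.coe_coe, this]
      exact (e ⟨s, hs⟩).2
    · intro hx
      refine ⟨e.symm ⟨x, hx⟩, (e.symm ⟨x, hx⟩).2, ?_⟩
      have := hγ (e.symm ⟨x, hx⟩)
      simp only [LinearMap.comp_apply, Submodule.subtype_apply, LinearEquiv.coe_coe,
        LinearEquiv.apply_symm_apply] at this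
      rw [LinearEquiv.coe_coe, this]
  apply Nat.card_congr
  refine Equiv.subtypeEquiv (Equiv.subtypeEquiv (Submodule.orderIsoMapComap γ).toEquiv fun W => ?_)
    fun W => ?_
  · have g : W ≃ₗ[D] W.map (γ : RD D π r d →ₗ[D] RD D π r d) := γ.submoduleMap W
    exact ⟨fun ⟨h⟩ => ⟨g.symm.trans h⟩, fun ⟨h⟩ => ⟨g.trans h⟩⟩
  · show S ≤ W.1 ↔ S1 ≤ W.1.map (γ : RD D π r d →ₗ[D] RD D π r d)
    rw [← hmap]
    exact (Submodule.map_le_map_iff_of_injective γ.injective S W.1).symm

/-- the double counting identity -/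
lemma over_count (hext : S_ext_aut) (D : Type) [CommRing D] (π : D) [Unif D π] (r d n : ℕ)
    (hn : n ≤ d) (ν : Ty d r) (S : Submodule D (RD D π r d)) (hS : HasTy D π S ν) :
    sub D π ν (top d r d) * Nat.card {W : FS D π r d n // S ≤ W.1} =
      Nat.card (FS D π r d n) * sub D π ν (top d r n) := by
  obtain ⟨e⟩ := free_equiv D π d r d le_rfl
  obtain ⟨c⟩ := free_equiv D π d r n hn
  have h1 : sub D π ν (top d r d) =
      Nat.card {T : Submodule D (RD D π r d) // Nonempty (T ≃ₗ[D] EM D π ν)} :=
    (card_transport e (LinearEquiv.refl D (EM D π ν))).symm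
  rw [h1]
  apply double_count
    (fun (T : {T : Submodule D (RD D π r d) // Nonempty (T ≃ₗ[D] EM D π ν)})
      (W : FS D π r d n) => T.1 ≤ W.1)
  · intro T
    obtain ⟨a⟩ := T.2
    obtain ⟨b⟩ := hS
    exact over_iso hext D π r d n T.1 S (a.trans b.symm)
  · intro W
    obtain ⟨w⟩ := W.2
    rw [card_below W.1]
    exact card_transport (w.trans c) (LinearEquiv.refl D (EM D π ν))

end I6

theorem card_FS_universal (hldu : I6.S_ldu) (D : Type) [CommRing D] (π : D) [Unif D π] (D' : Type)
    [CommRing D'] (π' : D') [Unif D' π'] (hq : qq D π = qq D' π') (r d n : ℕ) (hn : n ≤ d) :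
    Nat.card (FS D π r d n) = Nat.card (FS D' π' r d n) := by
  rw [I6.card_FS_eq D π r d n hn, I6.card_FS_eq D' π' r d n hn]
  exact (hldu D π D' π' hq _ _).2.1

theorem over_universal (hldu : I6.S_ldu) (hext : I6.S_ext_aut) (D : Type) [CommRing D] (π : D)
    [Unif D π] (D' : Type) [CommRing D']
    (π' : D') [Unif D' π'] (hq : qq D π = qq D' π') (r d n : ℕ) (hn : n ≤ d) (ν : Ty d r)
    (S : Submodule D (RD D π r d)) (hS : HasTy D π S ν)
    (S' : Submodule D' (RD D' π' r d)) (hS' : HasTy D' π' S' ν) :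
    Nat.card {W : FS D π r d n // S ≤ W.1} = Nat.card {W : FS D' π' r d n // S' ≤ W.1} := by
  have h1 := I6.over_count hext D π r d n hn ν S hS
  have h2 := I6.over_count hext D' π' r d n hn ν S' hS'
  rw [← card_FS_universal hldu D π D' π' hq r d n hn, ← (hldu D π D' π' hq ν (top d r d)).2.1,
    ← (hldu D π D' π' hq ν (top d r n)).2.1, ← h1] at h2
  have hpos : 0 < sub D π ν (top d r d) := by
    obtain ⟨e⟩ := I6.free_equiv D π d r d le_rfl
    have h3 : sub D π ν (top d r d) =
        Nat.card {T : Submodule D (RD D π r d) // Nonempty (T ≃ₗ[D] EM D π ν)} :=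
      (I6.card_transport e (LinearEquiv.refl D (EM D π ν))).symm
    rw [h3]
    have : Nonempty {T : Submodule D (RD D π r d) // Nonempty (T ≃ₗ[D] EM D π ν)} := ⟨⟨S, hS⟩⟩
    exact Nat.card_pos
  exact (Nat.eq_of_mul_eq_mul_left hpos h2).symm

/-- free submodules of rank `m` inside a submodule of given type -/
theorem card_under (D : Type) [CommRing D] (π : D) [Unif D π] (r d m : ℕ) (hm : m ≤ d)
    (U : Submodule D (RD D π r d)) (κ : Ty d r) (hU : HasTy D π U κ) :
    Nat.card {V : FS D π r d m // V.1 ≤ U} = sub D π (top d r m) κ := by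
  obtain ⟨u⟩ := hU
  obtain ⟨c⟩ := I6.free_equiv D π d r m hm
  rw [I6.card_below U]
  exact I6.card_transport u c

end Pool.Agent.R671.IS
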