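import Pool.Agent.R671.IS.Free

open Module

namespace Pool.Agent.R671.IS

namespace I7P

section Gen

variable {D : Type} [CommRing D] {A : Type} [AddCommGroup A] [Module D A] [Finite A]
  {B : Type} [AddCommGroup B] [Module D B] [Finite B]

instance finite_lm : Finite (A →ₗ[D] B) := DFunLike.finite _

instance finite_le : Finite (A ≃ₗ[D] B) := DFunLike.finite _

instance finite_sm : Finite (Submodule D A) :=
  Finite.of_injective (fun S : Submodule D A => (S : Set A)) SetLike.coe_injective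

/-- A surjection is the choice of a kernel and of an isomorphism. -/
theorem card_surj :
    Nat.card {φ : A →ₗ[D] B // Function.Surjective φ} =
      Nat.card {K : Submodule D A // Nonempty ((A ⧸ K) ≃ₗ[D] B)} * Nat.card (B ≃ₗ[D] B) := by
  classical
  let f : {φ : A →ₗ[D] B // Function.Surjective φ} →
      {K : Submodule D A // Nonempty ((A ⧸ K) ≃ₗ[D] B)} := fun φ =>
    ⟨LinearMap.ker φ.1, ⟨φ.1.quotKerEquivOfSurjective φ.2⟩⟩
  have := Fintype.ofFinite {K : Submodule D A // Nonempty ((A ⧸ K) ≃ₗ[D] B)}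
  rw [Nat.card_congr (Equiv.sigmaFiberEquiv f).symm, Nat.card_sigma]
  have h : ∀ K : {K : Submodule D A // Nonempty ((A ⧸ K) ≃ₗ[D] B)},
      Nat.card {φ // f φ = K} = Nat.card (B ≃ₗ[D] B) := by
    intro K
    obtain ⟨K, ⟨e⟩⟩ := K
    symm
    let g : (B ≃ₗ[D] B) → {φ // f φ = ⟨K, ⟨e⟩⟩} := fun σ =>
      ⟨⟨((e.trans σ).toLinearMap).comp K.mkQ, by
        rw [LinearMap.coe_comp]
        exact (e.trans σ).surjective.comp K.mkQ_surjective⟩, by
        apply Subtype.ext
        show LinearMap.ker (((e.trans σ).toLinearMap).comp K.mkQ) = K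
        rw [LinearMap.ker_comp_of_ker_eq_bot _ (LinearEquiv.ker _), Submodule.ker_mkQ]⟩
    refine Nat.card_congr (Equiv.ofBijective g ⟨?_, ?_⟩)
    · intro σ σ' hσ
      have h1 : ((e.trans σ).toLinearMap).comp K.mkQ = ((e.trans σ').toLinearMap).comp K.mkQ :=
        congrArg (fun x => x.1.1) hσ
      apply LinearEquiv.ext
      intro b
      obtain ⟨a, ha⟩ := K.mkQ_surjective (e.symm b)
      have h2 := LinearMap.congr_fun h1 a
      simp only [LinearMap.comp_apply, LinearEquiv.coe_coe, ha, LinearEquiv.trans_apply,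
        LinearEquiv.apply_symm_apply] at h2
      exact h2
    · rintro ⟨⟨φ, hφ⟩, hK⟩
      have hK' : LinearMap.ker φ = K := congrArg Subtype.val hK
      subst hK'
      refine ⟨e.symm.trans (φ.quotKerEquivOfSurjective hφ), ?_⟩
      apply Subtype.ext
      apply Subtype.ext
      apply LinearMap.ext
      intro a
      show (φ.quotKerEquivOfSurjective hφ) (e.symm (e (Submodule.Quotient.mk a))) = φ a
      rw [LinearEquiv.symm_apply_apply]
      exact LinearMap.quotKerEquivOfSurjective_apply_mk _ _ _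
  rw [Finset.sum_congr rfl (fun K _ => h K), Finset.sum_const, Finset.card_univ, smul_eq_mul,
    ← Nat.card_eq_fintype_card]

omit [Finite A] [Finite B] in
/-- Linear maps into a submodule. -/
theorem card_into (U : Submodule D B) :
    Nat.card (A →ₗ[D] U) = Nat.card {φ : A →ₗ[D] B // LinearMap.range φ ≤ U} := by
  refine Nat.card_congr
    { toFun := fun φ => ⟨U.subtype.comp φ, ?_⟩
      invFun := fun φ => φ.1.codRestrict U fun a => φ.2 (LinearMap.mem_range_self _ _)
      left_inv := ?_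
      right_inv := ?_ }
  · rintro _ ⟨a, rfl⟩
    exact (φ a).2
  · intro φ
    apply LinearMap.ext
    intro a
    exact Subtype.ext rfl
  · intro φ
    apply Subtype.ext
    apply LinearMap.ext
    intro a
    rfl

omit [Finite A] [Finite B] in
/-- Linear maps onto a submodule. -/
theorem card_onto (S : Submodule D B) :
    Nat.card {φ : A →ₗ[D] S // Function.Surjective φ} =
      Nat.card {φ : A →ₗ[D] B // LinearMap.range φ = S} := by
  refine Nat.card_congr
    { toFun := fun φ => ⟨S.subtype.comp φ.1, ?_⟩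
      invFun := fun φ => ⟨φ.1.codRestrict S fun a => φ.2.le (LinearMap.mem_range_self _ _), ?_⟩
      left_inv := ?_
      right_inv := ?_ }
  · rw [LinearMap.range_comp, LinearMap.range_eq_top.2 φ.2, Submodule.map_top,
      Submodule.range_subtype]
  · rintro ⟨s, hs⟩
    have hs' := hs
    rw [← φ.2] at hs'
    obtain ⟨a, ha⟩ := hs'
    exact ⟨a, Subtype.ext ha⟩
  · intro φ
    apply Subtype.ext
    apply LinearMap.ext
    intro a
    exact Subtype.ext rfl
  · intro φ
    apply Subtype.ext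
    apply LinearMap.ext
    intro a
    rfl

/-- Double counting of triples `(p, p', φ)`. -/
theorem count (P : Type) [Fintype P] (W : P → Submodule D B) [Fintype (Submodule D B)] :
    ∑ p : P × P, Nat.card (A →ₗ[D] ↥(W p.1 ⊓ W p.2)) =
      ∑ S : Submodule D B, Nat.card {φ : A →ₗ[D] S // Function.Surjective φ} *
        Nat.card {p : P // S ≤ W p} ^ 2 := by
  classical
  have := Fintype.ofFinite (A →ₗ[D] B)
  have h1 : ∀ p : P × P, Nat.card (A →ₗ[D] ↥(W p.1 ⊓ W p.2)) =
      ∑ φ : A →ₗ[D] B, if LinearMap.range φ ≤ W p.1 ∧ LinearMap.range φ ≤ W p.2 then 1 else 0 := by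
    intro p
    rw [card_into, Finset.sum_boole, Nat.card_eq_fintype_card, Fintype.card_subtype, Nat.cast_id]
    simp only [le_inf_iff]
  have h2 : ∀ S : Submodule D B, Nat.card {φ : A →ₗ[D] S // Function.Surjective φ} *
        Nat.card {p : P // S ≤ W p} ^ 2 =
      ∑ φ : A →ₗ[D] B, if LinearMap.range φ = S then
        Nat.card {p : P // LinearMap.range φ ≤ W p} ^ 2 else 0 := by
    intro S
    rw [card_onto, ← Finset.sum_filter]
    have h3 : ∀ φ ∈ Finset.univ.filter (fun φ : A →ₗ[D] B => LinearMap.range φ = S),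
        Nat.card {p : P // LinearMap.range φ ≤ W p} ^ 2 = Nat.card {p : P // S ≤ W p} ^ 2 := by
      intro φ hφ
      rw [(Finset.mem_filter.1 hφ).2]
    rw [Finset.sum_congr rfl h3, Finset.sum_const, smul_eq_mul, Nat.card_eq_fintype_card,
      Fintype.card_subtype]
  rw [Finset.sum_congr rfl (fun p _ => h1 p), Finset.sum_congr rfl (fun S _ => h2 S),
    Finset.sum_comm, Finset.sum_comm (s := (Finset.univ : Finset (Submodule D B)))]
  apply Finset.sum_congr rfl
  intro φ _
  rw [Finset.sum_ite_eq Finset.univ (LinearMap.range φ), if_pos (Finset.mem_univ _),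
    Fintype.sum_prod_type, sq, Nat.card_eq_fintype_card, Fintype.card_subtype,
    Finset.card_filter, Finset.sum_mul_sum]
  apply Finset.sum_congr rfl
  intro a _
  apply Finset.sum_congr rfl
  intro b _
  by_cases ha : LinearMap.range φ ≤ W a
  · by_cases hb : LinearMap.range φ ≤ W b
    · simp [ha, hb]
    · simp [ha, hb]
  · simp [ha]

end Gen

/-- A sum over a fibred set. -/
theorem sum_fib {X L : Type} [Fintype X] [Fintype L] (P : X → L → Prop)
    (hP : ∀ x, ∃ κ, P x κ) (hu : ∀ x κ κ', P x κ → P x κ' → κ = κ') (g : X → ℕ)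
    [∀ κ, Fintype {x // P x κ}] :
    ∑ x, g x = ∑ κ, ∑ x : {x // P x κ}, g x.1 := by
  classical
  rw [← Fintype.sum_sigma' (fun κ (x : {x // P x κ}) => g x.1)]
  symm
  refine Fintype.sum_bijective (fun x : (Σ κ, {x // P x κ}) => x.2.1) ⟨?_, ?_⟩ _ _ fun x => rfl
  · rintro ⟨κ, x, hx⟩ ⟨κ', x', hx'⟩ h
    have h1 : x = x' := h
    subst h1
    obtain rfl := hu x κ κ' hx hx'
    rfl
  · intro x
    obtain ⟨κ, hκ⟩ := hP x
    exact ⟨⟨κ, x, hκ⟩, rfl⟩

/-- The number of pairs with given type of intersection. -/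
noncomputable def TT (D : Type) [CommRing D] (π : D) (r d n : ℕ) (κ : Ty d r) : ℕ :=
  Nat.card {p : FS D π r d n × FS D π r d n // HasTy D π ↥(p.1.1 ⊓ p.2.1) κ}

theorem hasTy_unique (ty_unique : ∀ (D : Type) [CommRing D] (π : D) [Unif D π] {d r : ℕ}
      (l m : Ty d r), Nonempty (EM D π l ≃ₗ[D] EM D π m) → l = m)
    (D : Type) [CommRing D] (π : D) [Unif D π] {d r : ℕ}
    {A : Type} [AddCommGroup A] [Module D A] {l m : Ty d r} (h : HasTy D π A l)
    (h' : HasTy D π A m) : l = m := by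
  obtain ⟨e⟩ := h
  obtain ⟨e'⟩ := h'
  exact ty_unique D π l m ⟨e.symm.trans e'⟩

theorem exists_hasTy_RD (exists_ty_sub : ∀ (D : Type) [CommRing D] (π : D) [Unif D π] {d r : ℕ}
      (l : Ty d r) (S : Submodule D (EM D π l)), ∃ m : Ty d r, HasTy D π S m)
    (D : Type) [CommRing D] (π : D) [Unif D π] {d r : ℕ} (S : Submodule D (RD D π r d)) :
    ∃ m : Ty d r, HasTy D π S m := by
  obtain ⟨m, ⟨e⟩⟩ := exists_ty_sub D π (top d r d)
    (S.map (freeEquiv D π d r d le_rfl : RD D π r d →ₗ[D] EM D π (top d r d)))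
  exact ⟨m, ⟨((freeEquiv D π d r d le_rfl).submoduleMap S).trans e⟩⟩

theorem card_sub_RD (D : Type) [CommRing D] (π : D) {d r : ℕ} (ν : Ty d r) :
    Nat.card {S : Submodule D (RD D π r d) // HasTy D π S ν} = sub D π ν (top d r d) := by
  unfold sub
  refine Nat.card_congr (Equiv.subtypeEquiv
    (Submodule.orderIsoMapComap (freeEquiv D π d r d le_rfl)).toEquiv ?_)
  intro S
  have e1 : S ≃ₗ[D] ↥((Submodule.orderIsoMapComap (freeEquiv D π d r d le_rfl)).toEquiv S) :=
    (freeEquiv D π d r d le_rfl).submoduleMap S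
  exact ⟨fun ⟨e⟩ => ⟨e1.symm.trans e⟩, fun ⟨e⟩ => ⟨e1.trans e⟩⟩

theorem sum_TT (exists_ty_sub : ∀ (D : Type) [CommRing D] (π : D) [Unif D π] {d r : ℕ}
      (l : Ty d r) (S : Submodule D (EM D π l)), ∃ m : Ty d r, HasTy D π S m)
    (ty_unique : ∀ (D : Type) [CommRing D] (π : D) [Unif D π] {d r : ℕ}
      (l m : Ty d r), Nonempty (EM D π l ≃ₗ[D] EM D π m) → l = m)
    (D : Type) [CommRing D] (π : D) [Unif D π] (r d n : ℕ) [Fintype (FS D π r d n)]
    (l : Ty d r) :
    ∑ p : FS D π r d n × FS D π r d n, Nat.card (EM D π l →ₗ[D] ↥(p.1.1 ⊓ p.2.1)) =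
      ∑ κ : Ty d r, TT D π r d n κ * hom D π l κ := by
  classical
  rw [sum_fib (fun (p : FS D π r d n × FS D π r d n) κ => HasTy D π ↥(p.1.1 ⊓ p.2.1) κ)
    (fun p => exists_hasTy_RD exists_ty_sub D π _)
    (fun p κ κ' h h' => hasTy_unique ty_unique D π h h')]
  apply Finset.sum_congr rfl
  intro κ _
  have h : ∀ p : {p : FS D π r d n × FS D π r d n // HasTy D π ↥(p.1.1 ⊓ p.2.1) κ},
      Nat.card (EM D π l →ₗ[D] ↥(p.1.1.1 ⊓ p.1.2.1)) = hom D π l κ := by
    rintro ⟨p, ⟨e⟩⟩
    exact Nat.card_congr (LinearEquiv.arrowCongr (LinearEquiv.refl D (EM D π l)) e).toEquiv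
  rw [Finset.sum_congr rfl (fun p _ => h p), Finset.sum_const, Finset.card_univ, smul_eq_mul,
    ← Nat.card_eq_fintype_card]
  rfl

theorem sum_TT' (exists_ty_sub : ∀ (D : Type) [CommRing D] (π : D) [Unif D π] {d r : ℕ}
      (l : Ty d r) (S : Submodule D (EM D π l)), ∃ m : Ty d r, HasTy D π S m)
    (ty_unique : ∀ (D : Type) [CommRing D] (π : D) [Unif D π] {d r : ℕ}
      (l m : Ty d r), Nonempty (EM D π l ≃ₗ[D] EM D π m) → l = m)
    (D : Type) [CommRing D] (π : D) [Unif D π] (r d n : ℕ) [Fintype (FS D π r d n)]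
    [∀ ν : Ty d r, Fintype {S : Submodule D (RD D π r d) // HasTy D π S ν}]
    (l : Ty d r) :
    ∑ p : FS D π r d n × FS D π r d n, Nat.card (EM D π l →ₗ[D] ↥(p.1.1 ⊓ p.2.1)) =
      ∑ ν : Ty d r, ∑ S : {S : Submodule D (RD D π r d) // HasTy D π S ν},
        quo D π l ν * aut D π ν * Nat.card {W : FS D π r d n // S.1 ≤ W.1} ^ 2 := by
  classical
  have := Fintype.ofFinite (Submodule D (RD D π r d))
  rw [count (A := EM D π l) (FS D π r d n) (fun W => W.1),
    sum_fib (fun (S : Submodule D (RD D π r d)) ν => HasTy D π S ν)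
    (fun p => exists_hasTy_RD exists_ty_sub D π _)
    (fun p κ κ' h h' => hasTy_unique ty_unique D π h h')]
  apply Finset.sum_congr rfl
  intro ν _
  apply Finset.sum_congr rfl
  rintro ⟨S, hS⟩ _
  rw [card_surj]
  obtain ⟨e⟩ := hS
  congr 2
  · unfold quo
    apply Nat.card_congr
    apply Equiv.subtypeEquivRight
    intro K
    exact ⟨fun ⟨f⟩ => ⟨f.trans e⟩, fun ⟨f⟩ => ⟨f.trans e.symm⟩⟩
  · unfold aut
    refine Nat.card_congr
      { toFun := fun f => (e.symm.trans f).trans e
        invFun := fun f => (e.trans f).trans e.symm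
        left_inv := fun f => by ext x; simp
        right_inv := fun f => by ext x; simp }

end I7P

/-- Piece I7. The hypotheses are the exact statements of the pieces I2 (`exists_ty_sub`),
I3 (`card_hom`, `ty_unique`), I4 (`ldu`, `hom_span`) and I6 (`over_universal`). -/
theorem T_universal (exists_ty_sub : ∀ (D : Type) [CommRing D] (π : D) [Unif D π] {d r : ℕ}
      (l : Ty d r) (S : Submodule D (EM D π l)), ∃ m : Ty d r, HasTy D π S m)
    (card_hom : ∀ (D : Type) [CommRing D] (π : D) [Unif D π] {d r : ℕ} (l m : Ty d r),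
      hom D π l m = qq D π ^ (∑ i, ∑ j, min (l.1 i : ℕ) (m.1 j : ℕ)))
    (ty_unique : ∀ (D : Type) [CommRing D] (π : D) [Unif D π] {d r : ℕ}
      (l m : Ty d r), Nonempty (EM D π l ≃ₗ[D] EM D π m) → l = m)
    (ldu : ∀ (D : Type) [CommRing D] (π : D) [Unif D π] (D' : Type) [CommRing D'] (π' : D')
      [Unif D' π'], qq D π = qq D' π' → ∀ {d r : ℕ} (l m : Ty d r),
      quo D π l m = quo D' π' l m ∧ sub D π l m = sub D' π' l m ∧ aut D π l = aut D' π' l)
    (hom_span : ∀ (D : Type) [CommRing D] (π : D) [Unif D π] {d r : ℕ} (t : Ty d r → ℝ),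
      ∃ a : Ty d r → ℝ, ∀ m, t m = ∑ l, a l * (hom D π l m : ℝ))
    (over_universal : ∀ (D : Type) [CommRing D] (π : D) [Unif D π] (D' : Type) [CommRing D']
      (π' : D') [Unif D' π'], qq D π = qq D' π' → ∀ (r d n : ℕ), n ≤ d → ∀ (ν : Ty d r)
      (S : Submodule D (RD D π r d)), HasTy D π S ν → ∀
      (S' : Submodule D' (RD D' π' r d)), HasTy D' π' S' ν →
      Nat.card {W : FS D π r d n // S ≤ W.1} = Nat.card {W : FS D' π' r d n // S' ≤ W.1})
    (D : Type) [CommRing D] (π : D) [Unif D π] (D' : Type) [CommRing D']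
    (π' : D') [Unif D' π'] (hq : qq D π = qq D' π') (r d n : ℕ) (hn : n ≤ d) (κ : Ty d r) :
    Nat.card {p : FS D π r d n × FS D π r d n // HasTy D π ↥(p.1.1 ⊓ p.2.1) κ} =
      Nat.card {p : FS D' π' r d n × FS D' π' r d n // HasTy D' π' ↥(p.1.1 ⊓ p.2.1) κ} := by
  classical
  have := Fintype.ofFinite (FS D π r d n)
  have := Fintype.ofFinite (FS D' π' r d n)
  have := fun ν : Ty d r => Fintype.ofFinite {S : Submodule D (RD D π r d) // HasTy D π S ν}
  have := fun ν : Ty d r => Fintype.ofFinite {S : Submodule D' (RD D' π' r d) // HasTy D' π' S ν}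
  have key : ∀ l : Ty d r, ∑ κ : Ty d r, I7P.TT D π r d n κ * hom D π l κ =
      ∑ κ : Ty d r, I7P.TT D' π' r d n κ * hom D π l κ := by
    intro l
    have hh : ∀ κ, hom D π l κ = hom D' π' l κ := by
      intro κ
      rw [card_hom, card_hom, hq]
    rw [← I7P.sum_TT exists_ty_sub ty_unique D π r d n l]
    simp_rw [hh]
    rw [← I7P.sum_TT exists_ty_sub ty_unique D' π' r d n l,
      I7P.sum_TT' exists_ty_sub ty_unique D π r d n l,
      I7P.sum_TT' exists_ty_sub ty_unique D' π' r d n l]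
    apply Finset.sum_congr rfl
    intro ν _
    have hc : Nat.card {S : Submodule D (RD D π r d) // HasTy D π S ν} =
        Nat.card {S : Submodule D' (RD D' π' r d) // HasTy D' π' S ν} := by
      rw [I7P.card_sub_RD, I7P.card_sub_RD]
      exact (ldu D π D' π' hq ν (top d r d)).2.1
    obtain ⟨e⟩ := Finite.card_eq.1 hc
    refine Fintype.sum_equiv e _ _ fun S => ?_
    rw [(ldu D π D' π' hq l ν).1, (ldu D π D' π' hq ν ν).2.2,
      over_universal D π D' π' hq r d n hn ν S.1 S.2 (e S).1 (e S).2]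
  obtain ⟨a, ha⟩ := hom_span D π (fun m : Ty d r => if m = κ then (1 : ℝ) else 0)
  have h1 : ∀ T : Ty d r → ℕ, (T κ : ℝ) = ∑ l, a l * ((∑ m, T m * hom D π l m : ℕ) : ℝ) := by
    intro T
    have h2 : (T κ : ℝ) = ∑ m, (T m : ℝ) * (if m = κ then (1 : ℝ) else 0) := by
      simp
    rw [h2]
    simp_rw [ha, Nat.cast_sum, Nat.cast_mul, Finset.mul_sum]
    rw [Finset.sum_comm]
    apply Finset.sum_congr rfl
    intro l _
    apply Finset.sum_congr rfl
    intro m _
    ring
  have h3 : (I7P.TT D π r d n κ : ℝ) = (I7P.TT D' π' r d n κ : ℝ) := by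
    rw [h1 (I7P.TT D π r d n), h1 (I7P.TT D' π' r d n)]
    apply Finset.sum_congr rfl
    intro l _
    rw [key l]
  exact_mod_cast h3

end Pool.Agent.R671.IS
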