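import Pool.Agent.R671.IS.Defs

open Module

namespace Pool.Agent.R671.IS

theorem lift_range {D M N P : Type*} [CommRing D] [AddCommGroup M] [Module D M] [AddCommGroup N]
    [Module D N] [AddCommGroup P] [Module D P] (f : M →ₗ[D] N) (g : M →ₗ[D] P)
    (h : LinearMap.ker f = LinearMap.ker g) :
    ∃ θ : LinearMap.range f →ₗ[D] P, Function.Injective θ ∧
      ∀ m, θ ⟨f m, LinearMap.mem_range_self f m⟩ = g m := by
  refine ⟨((LinearMap.ker f).liftQ g (le_of_eq h)) ∘ₗ
    (f.quotKerEquivRange.symm : LinearMap.range f →ₗ[D] M ⧸ LinearMap.ker f), ?_, ?_⟩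
  · have h1 : Function.Injective ((LinearMap.ker f).liftQ g (le_of_eq h)) := by
      rw [← LinearMap.ker_eq_bot]
      exact Submodule.ker_liftQ_eq_bot' _ _ h
    intro x y hxy
    simp only [LinearMap.comp_apply] at hxy
    exact f.quotKerEquivRange.symm.injective (h1 hxy)
  · intro m
    simp only [LinearMap.comp_apply]
    have h2 : f.quotKerEquivRange.symm ⟨f m, LinearMap.mem_range_self f m⟩ =
        Submodule.Quotient.mk m := by
      rw [LinearEquiv.symm_apply_eq]
      apply Subtype.ext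
      simp
    change (Submodule.liftQ _ g _) (f.quotKerEquivRange.symm ⟨f m, _⟩) = _
    rw [h2]
    exact Submodule.liftQ_apply _ _ _

/-- `orbit`, from the extension theorem `ext_aut` (given as a hypothesis for all ranks). -/
theorem orbit_of (D : Type) [CommRing D] (π : D) [Unif D π] (r : ℕ)
    (hext : ∀ (k : ℕ) (S : Submodule D (RD D π r k)) (θ : S →ₗ[D] RD D π r k),
      Function.Injective θ → ∃ γ : RD D π r k ≃ₗ[D] RD D π r k, ∀ s : S, γ s = θ s)
    (d n : ℕ) (W W1 : FS D π r d n)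
    (A : Type) [AddCommGroup A] [Module D A] (β β1 : A →ₗ[D] RD D π r d)
    (hk : LinearMap.ker β = LinearMap.ker β1) (hc : W.1.comap β = W1.1.comap β1) :
    ∃ γ : RD D π r d ≃ₗ[D] RD D π r d, (∀ a, γ (β a) = β1 a) ∧
      W.1.map (γ : RD D π r d →ₗ[D] RD D π r d) = W1.1 := by
  obtain ⟨e⟩ := W.2
  obtain ⟨e1⟩ := W1.2
  have hB : ∀ b : A, b ∈ W.1.comap β ↔ β b ∈ W.1 := fun b => Iff.rfl
  have hB1 : ∀ b : A, b ∈ W.1.comap β ↔ β1 b ∈ W1.1 := fun b => by rw [hc]; rfl
  have hk' : ∀ b : A, β b = 0 ↔ β1 b = 0 := fun b => by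
    rw [← LinearMap.mem_ker, ← LinearMap.mem_ker, hk]
  -- the restricted maps
  let b0 : (W.1.comap β) →ₗ[D] W.1 :=
    (β.comp (W.1.comap β).subtype).codRestrict W.1 (fun b => b.2)
  let b1 : (W.1.comap β) →ₗ[D] W1.1 :=
    (β1.comp (W.1.comap β).subtype).codRestrict W1.1 (fun b => (hB1 b.1).1 b.2)
  let f : (W.1.comap β) →ₗ[D] RD D π r n := (e : W.1 →ₗ[D] (Fin n → E D π r)).comp b0
  let f1 : (W.1.comap β) →ₗ[D] RD D π r n := (e1 : W1.1 →ₗ[D] (Fin n → E D π r)).comp b1
  have hff : LinearMap.ker f = LinearMap.ker f1 := by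
    ext b
    have h1 : f b = 0 ↔ β b = 0 := by
      change e (b0 b) = 0 ↔ _
      rw [LinearEquiv.map_eq_zero_iff, ← Subtype.coe_inj]
      rfl
    have h2 : f1 b = 0 ↔ β1 b = 0 := by
      change e1 (b1 b) = 0 ↔ _
      rw [LinearEquiv.map_eq_zero_iff, ← Subtype.coe_inj]
      rfl
    rw [LinearMap.mem_ker, LinearMap.mem_ker, h1, h2, hk']
  obtain ⟨θ, hθ, hθ'⟩ := lift_range f f1 hff
  obtain ⟨γn, hγn⟩ := hext n _ θ hθ
  let γ1 : W.1 ≃ₗ[D] W1.1 := e.trans (γn.trans e1.symm)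
  have hγ1 : ∀ b : W.1.comap β, γ1 (b0 b) = b1 b := by
    intro b
    change e1.symm (γn (e (b0 b))) = b1 b
    rw [LinearEquiv.symm_apply_eq]
    have := hγn ⟨f b, LinearMap.mem_range_self f b⟩
    rw [hθ'] at this
    exact this
  -- the second extension
  let F : (W.1 × A) →ₗ[D] RD D π r d := W.1.subtype.coprod β
  let F1 : (W.1 × A) →ₗ[D] RD D π r d := (W1.1.subtype.comp (γ1 : W.1 →ₗ[D] W1.1)).coprod β1
  have hF : ∀ (w : W.1) (a : A), F (w, a) = w + β a := fun w a => by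
    simp [F]
  have hF1 : ∀ (w : W.1) (a : A), F1 (w, a) = γ1 w + β1 a := fun w a => by
    simp [F1]
  have hFF : LinearMap.ker F = LinearMap.ker F1 := by
    ext ⟨w, a⟩
    rw [LinearMap.mem_ker, LinearMap.mem_ker, hF, hF1]
    constructor
    · intro h
      have h1 : β a = ((-w : W.1) : RD D π r d) := by
        rw [Submodule.coe_neg]
        exact eq_neg_of_add_eq_zero_right h
      have ha : a ∈ W.1.comap β := by
        rw [hB, h1]
        exact (-w).2
      have h2 : b0 ⟨a, ha⟩ = -w := Subtype.ext h1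
      have h3 := hγ1 ⟨a, ha⟩
      rw [h2, map_neg] at h3
      have h4 : ((-(γ1 w) : W1.1) : RD D π r d) = β1 a := by
        rw [h3]
        rfl
      rw [← h4, Submodule.coe_neg, add_neg_cancel]
    · intro h
      have h1 : β1 a = ((-(γ1 w) : W1.1) : RD D π r d) := by
        rw [Submodule.coe_neg]
        exact eq_neg_of_add_eq_zero_right h
      have ha : a ∈ W.1.comap β := by
        rw [hB1, h1]
        exact (-(γ1 w)).2
      have h2 : b1 ⟨a, ha⟩ = -(γ1 w) := Subtype.ext h1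
      have h3 := hγ1 ⟨a, ha⟩
      rw [h2, ← map_neg] at h3
      have h4 := γ1.injective h3
      have h5 : β a = ((-w : W.1) : RD D π r d) := by
        rw [← h4]
        rfl
      rw [h5, Submodule.coe_neg, add_neg_cancel]
  obtain ⟨Θ, hΘ, hΘ'⟩ := lift_range F F1 hFF
  obtain ⟨γ, hγ⟩ := hext d _ Θ hΘ
  have hγF : ∀ x, γ (F x) = F1 x := by
    intro x
    have := hγ ⟨F x, LinearMap.mem_range_self F x⟩
    rw [hΘ'] at this
    exact this
  have hγW : ∀ w : W.1, γ (w : RD D π r d) = γ1 w := by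
    intro w
    have := hγF (w, 0)
    rw [hF, hF1, map_zero, map_zero, add_zero, add_zero] at this
    exact this
  refine ⟨γ, ?_, ?_⟩
  · intro a
    have := hγF (0, a)
    rw [hF, hF1, map_zero, Submodule.coe_zero, Submodule.coe_zero, zero_add, zero_add] at this
    exact this
  · apply le_antisymm
    · rintro x ⟨w, hw, rfl⟩
      have := hγW ⟨w, hw⟩
      change γ w ∈ W1.1
      rw [this]
      exact (γ1 ⟨w, hw⟩).2
    · intro x hx
      refine ⟨(γ1.symm ⟨x, hx⟩ : W.1), (γ1.symm ⟨x, hx⟩).2, ?_⟩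
      change γ _ = x
      rw [hγW]
      simp

end Pool.Agent.R671.IS
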