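import Pool.Agent.R671.IS.Defs

/-!
# ISO-I9: the ideal property
-/

open Module

namespace Pool.Agent.R671.IS

theorem ty_congr (D : Type) [CommRing D] (π : D) (d r : ℕ) (A B : Type) [AddCommGroup A]
    [Module D A] [AddCommGroup B] [Module D B] (e : A ≃ₗ[D] B) :
    ty D π d r A = ty D π d r B := by
  have h : (fun l : Ty d r => HasTy D π A l) = (fun l : Ty d r => HasTy D π B l) := by
    funext l
    apply propext
    constructor
    · rintro ⟨f⟩
      exact ⟨e.symm.trans f⟩
    · rintro ⟨f⟩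
      exact ⟨e.trans f⟩
  classical
  have key : ∀ P Q : Ty d r → Prop, P = Q →
      (if h : ∃ l, P l then h.choose else top d r 0) =
      (if h : ∃ l, Q l then h.choose else top d r 0) := by
    rintro P _ rfl
    rfl
  unfold ty
  convert key _ _ h

/-- Moebius inversion, existence. -/
theorem moeb {P : Type} [Fintype P] [PartialOrder P] [DecidableEq P] [DecidableLE P]
    (f : P → ℝ) : ∃ a : P → ℝ, ∀ x, f x = ∑ y, if y ≤ x then a y else 0 := by
  classical
  have wf : WellFounded ((· < ·) : P → P → Prop) := wellFounded_lt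
  let a : P → ℝ := wf.fix (fun x F => f x - ∑ y, if h : y < x then F y h else 0)
  have ha : ∀ x, a x = f x - ∑ y, if y < x then a y else 0 := by
    intro x
    show wf.fix _ x = _
    rw [wf.fix_eq]
    congr 1
  refine ⟨a, fun x => ?_⟩
  have h1 : (∑ y, if y ≤ x then a y else 0) = ∑ y, ((if y < x then a y else 0) +
      (if y = x then a y else 0)) := by
    apply Finset.sum_congr rfl
    intro y _
    by_cases h : y = x
    · subst h
      simp
    · by_cases h2 : y < x
      · simp [h2, h2.le, h]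
      · have h3 : ¬ y ≤ x := fun h4 => h2 (lt_of_le_of_ne h4 h)
        simp [h2, h3, h]
  rw [h1, Finset.sum_add_distrib, Finset.sum_ite_eq' Finset.univ x, if_pos (Finset.mem_univ x),
    ha x]
  ring

/-- Homomorphisms into a submodule. -/
def homSub (D : Type) [CommRing D] (A F : Type) [AddCommGroup A] [Module D A] [AddCommGroup F]
    [Module D F] (S : Submodule D F) : (A →ₗ[D] S) ≃ {β : A →ₗ[D] F // ∀ a, β a ∈ S} where
  toFun f := ⟨S.subtype.comp f, fun a => (f a).2⟩
  invFun β := β.1.codRestrict S β.2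
  left_inv f := by
    apply LinearMap.ext
    intro a
    rfl
  right_inv β := by
    apply Subtype.ext
    apply LinearMap.ext
    intro a
    rfl

/-- Fibre counting for a surjective homomorphism. -/
theorem card_fib {G H : Type} [AddCommGroup G] [AddCommGroup H] (ρ : G →+ H)
    (hρ : Function.Surjective ρ) (P : H → Prop) :
    Nat.card {g : G // P (ρ g)} = Nat.card {g : G // ρ g = 0} * Nat.card {h : H // P h} := by
  rw [← Nat.card_prod]
  choose s hs using hρ
  apply Nat.card_congr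
  refine ⟨fun g => (⟨g.1 - s (ρ g.1), by rw [map_sub, hs, sub_self]⟩, ⟨ρ g.1, g.2⟩),
    fun x => ⟨x.1.1 + s x.2.1, by rw [map_add, x.1.2, zero_add, hs]; exact x.2.2⟩, ?_, ?_⟩
  · intro g
    apply Subtype.ext
    simp
  · rintro ⟨⟨k, hk⟩, ⟨h, hh⟩⟩
    simp [hk, hs]

/-- The number of homomorphisms `A / Q → (D / π ^ r) ^ n` vanishing on the image of `B`. -/
noncomputable def KK (D : Type) [CommRing D] (π : D) (r n : ℕ) (A : Type) [AddCommGroup A]
    [Module D A] (Q B : Submodule D A) : ℕ :=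
  Nat.card {f : (A ⧸ Q) →ₗ[D] (Fin n → E D π r) // ∀ c ∈ B.map Q.mkQ, f c = 0}

/-- The counting step. -/
theorem card_N (D : Type) [CommRing D] (π : D) (r d n : ℕ)
    (hE : ∀ (j : ℕ) (A : Type) [AddCommGroup A] [Module D A] [Finite A]
      (_ : ∀ a : A, π ^ j • a = 0) (S : Submodule D A) (f : S →ₗ[D] E D π j),
      ∃ g : A →ₗ[D] E D π j, ∀ s : S, g s = f s)
    (A : Type) [AddCommGroup A] [Module D A] [Finite A] (hA : ∀ a : A, π ^ r • a = 0)
    (W W'' : FS D π r d n) (Q B : Submodule D A) :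
    Nat.card {β : A →ₗ[D] RD D π r d // (∀ a, β a ∈ W''.1) ∧ Q ≤ LinearMap.ker β ∧
      B ≤ W.1.comap β} =
    KK D π r n A Q B * Nat.card ((B.map Q.mkQ : Submodule D (A ⧸ Q)) →ₗ[D] ↥(W.1 ⊓ W''.1)) := by
  obtain ⟨e⟩ := W''.2
  have hfinQ : Finite (A ⧸ Q) := Finite.of_surjective _ Q.mkQ_surjective
  set C : Submodule D (A ⧸ Q) := B.map Q.mkQ with hC
  have hM : ∀ a : A ⧸ Q, π ^ r • a = 0 := by
    intro a
    obtain ⟨b, rfl⟩ := Q.mkQ_surjective a
    rw [← map_smul, hA, map_zero]
  -- the restriction map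
  let ρ : ((A ⧸ Q) →ₗ[D] W''.1) →+ (C →ₗ[D] W''.1) :=
    { toFun := fun f => f.comp C.subtype
      map_zero' := by
        apply LinearMap.ext
        intro a
        rfl
      map_add' := by
        intro f g
        apply LinearMap.ext
        intro a
        rfl }
  have hρ : Function.Surjective ρ := by
    intro h
    have h1 : ∀ i : Fin n, ∃ g : (A ⧸ Q) →ₗ[D] E D π r, ∀ s : C, g s =
        ((LinearMap.proj i).comp (e.toLinearMap.comp h) : C →ₗ[D] E D π r) s :=
      fun i => hE r (A ⧸ Q) hM C _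
    choose g hg using h1
    refine ⟨e.symm.toLinearMap.comp (LinearMap.pi g), ?_⟩
    apply LinearMap.ext
    intro c
    show e.symm (LinearMap.pi g (c : A ⧸ Q)) = h c
    rw [LinearEquiv.symm_apply_eq]
    funext i
    rw [LinearMap.pi_apply, hg]
    rfl
  have e1 : {β : A →ₗ[D] RD D π r d // (∀ a, β a ∈ W''.1) ∧ Q ≤ LinearMap.ker β ∧
      B ≤ W.1.comap β} ≃ {f : (A ⧸ Q) →ₗ[D] W''.1 // ∀ c : C, ((ρ f) c : RD D π r d) ∈ W.1} := by
    refine ⟨fun β => ⟨(Q.liftQ β.1 β.2.2.1).codRestrict W''.1 ?_, ?_⟩,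
      fun f => ⟨(W''.1.subtype.comp f.1).comp Q.mkQ, ?_, ?_, ?_⟩, ?_, ?_⟩
    · intro c
      obtain ⟨b, rfl⟩ := Q.mkQ_surjective c
      exact β.2.1 b
    · rintro ⟨c, hc⟩
      obtain ⟨b, hb, rfl⟩ := hc
      exact β.2.2.2 hb
    · intro a
      exact (f.1 _).2
    · intro a ha
      rw [LinearMap.mem_ker]
      show ((f.1 (Q.mkQ a) : W''.1) : RD D π r d) = 0
      have : Q.mkQ a = 0 := by
        rw [Submodule.mkQ_apply, Submodule.Quotient.mk_eq_zero]
        exact ha
      rw [this, map_zero]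
      rfl
    · intro b hb
      exact f.2 ⟨Q.mkQ b, Submodule.mem_map_of_mem hb⟩
    · intro β
      apply Subtype.ext
      apply LinearMap.ext
      intro a
      rfl
    · intro f
      apply Subtype.ext
      apply LinearMap.ext
      intro a
      obtain ⟨b, rfl⟩ := Q.mkQ_surjective a
      rfl
  have hfib := card_fib (G := (A ⧸ Q) →ₗ[D] W''.1) (H := C →ₗ[D] W''.1) ρ hρ (fun h : C →ₗ[D] W''.1 => ∀ c : C, (h c : RD D π r d) ∈ W.1)
  refine (Nat.card_congr e1).trans (hfib.trans ?_)
  congr 1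
  · unfold KK
    apply Nat.card_congr
    refine ⟨fun f => ⟨e.toLinearMap.comp f.1, ?_⟩, fun f => ⟨e.symm.toLinearMap.comp f.1, ?_⟩,
      ?_, ?_⟩
    · intro c hc
      show e (f.1 c) = 0
      have h2 : (ρ f.1) ⟨c, hc⟩ = 0 := by
        rw [f.2]
        rfl
      have h3 : f.1 c = 0 := h2
      rw [h3, map_zero]
    · apply LinearMap.ext
      intro c
      show e.symm (f.1 (c : A ⧸ Q)) = 0
      rw [f.2 c c.2, map_zero]
    · intro f
      apply Subtype.ext
      apply LinearMap.ext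
      intro a
      show e.symm (e (f.1 a)) = f.1 a
      rw [LinearEquiv.symm_apply_apply]
    · intro f
      apply Subtype.ext
      apply LinearMap.ext
      intro a
      show e (e.symm (f.1 a)) = f.1 a
      rw [LinearEquiv.apply_symm_apply]
  · apply Nat.card_congr
    refine ⟨fun h => (W''.1.subtype.comp h.1).codRestrict (W.1 ⊓ W''.1)
        (fun c => ⟨h.2 c, (h.1 c).2⟩),
      fun h => ⟨((W.1 ⊓ W''.1).subtype.comp h).codRestrict W''.1 (fun c => (h c).2.2),
        fun c => (h c).2.1⟩, ?_, ?_⟩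
    · intro h
      apply Subtype.ext
      apply LinearMap.ext
      intro c
      rfl
    · intro h
      apply LinearMap.ext
      intro c
      rfl

theorem EM_tors (D : Type) [CommRing D] (π : D) {d r : ℕ} (l : Ty d r) (a : EM D π l) :
    π ^ r • a = 0 := by
  funext i
  show π ^ r • a i = 0
  obtain ⟨b, hb⟩ := Ideal.Quotient.mk_surjective (a i)
  rw [← hb, ← Ideal.Quotient.mk_eq_mk, ← Submodule.Quotient.mk_smul,
    Submodule.Quotient.mk_eq_zero, Ideal.mem_span_singleton, smul_eq_mul]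
  have h1 : (l.1 i : ℕ) ≤ r := by have := (l.1 i).2; omega
  exact Dvd.dvd.mul_right (pow_dvd_pow π h1) b

theorem two_le_qq (D : Type) [CommRing D] (π : D) [h : Unif D π] : 1 < qq D π := by
  have := h.fin
  have := h.max
  have : Nontrivial (D ⧸ Ideal.span {π}) := Ideal.Quotient.nontrivial_iff.mpr h.max.ne_top
  unfold qq
  exact Finite.one_lt_card

theorem IDL_of (D : Type) [CommRing D] (π : D) [Unif D π]
    (hE : ∀ (j : ℕ) (A : Type) [AddCommGroup A] [Module D A] [Finite A]
      (_ : ∀ a : A, π ^ j • a = 0) (S : Submodule D A) (f : S →ₗ[D] E D π j),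
      ∃ g : A →ₗ[D] E D π j, ∀ s : S, g s = f s)
    (hcard : ∀ {d r : ℕ} (l : Ty d r), Nat.card (EM D π l) = qq D π ^ size l)
    (hsub : ∀ {d r : ℕ} (l : Ty d r) (S : Submodule D (EM D π l)), ∃ m : Ty d r, HasTy D π S m)
    (hquo : ∀ {d r : ℕ} (l : Ty d r) (K : Submodule D (EM D π l)),
      ∃ m : Ty d r, HasTy D π (EM D π l ⧸ K) m)
    (huniq : ∀ {d r : ℕ} (l m : Ty d r) (_ : Nonempty (EM D π l ≃ₗ[D] EM D π m)), l = m)
    (horb : ∀ (r d n : ℕ) (W W1 : FS D π r d n)
      (A : Type) [AddCommGroup A] [Module D A] [Finite A] (β β1 : A →ₗ[D] RD D π r d)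
      (_ : LinearMap.ker β = LinearMap.ker β1) (_ : W.1.comap β = W1.1.comap β1),
      ∃ γ : RD D π r d ≃ₗ[D] RD D π r d, (∀ a, γ (β a) = β1 a) ∧
        W.1.map (γ : RD D π r d →ₗ[D] RD D π r d) = W1.1)
    (r d n : ℕ) [Fintype (FS D π r d n)] (t : Ty d r → ℝ) (l : Ty d r) :
    ∃ a : Ty d r → ℝ, (∀ ν, a ν ≠ 0 → ν = l ∨ size ν < size l) ∧
      ∀ W W'' : FS D π r d n,
        ∑ W' : FS D π r d n, t (ty D π d r ↥(W.1 ⊓ W'.1)) *
          (Nat.card (EM D π l →ₗ[D] ↥(W'.1 ⊓ W''.1)) : ℝ) =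
        ∑ ν, a ν * (Nat.card (EM D π ν →ₗ[D] ↥(W.1 ⊓ W''.1)) : ℝ) := by
  classical
  have hfinA : Finite (EM D π l) := inferInstance
  have hfinSub : Finite (Submodule D (EM D π l)) :=
    Finite.of_injective (fun S : Submodule D (EM D π l) => (S : Set (EM D π l)))
      SetLike.coe_injective
  have hfinHom : Finite (EM D π l →ₗ[D] RD D π r d) := DFunLike.finite _
  let _ : Fintype (Submodule D (EM D π l)) := Fintype.ofFinite _
  let _ : Fintype (EM D π l →ₗ[D] RD D π r d) := Fintype.ofFinite _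
  -- the types of the modules `C`
  have hC : ∀ p : Submodule D (EM D π l) × Submodule D (EM D π l),
      ∃ ν : Ty d r, HasTy D π (p.2.map p.1.mkQ : Submodule D (EM D π l ⧸ p.1)) ν ∧
        (ν = l ∨ size ν < size l) := by
    intro p
    obtain ⟨μ, ⟨e⟩⟩ := hquo l p.1
    obtain ⟨ν, ⟨e'⟩⟩ := hsub μ ((p.2.map p.1.mkQ).map e.toLinearMap)
    have e2 : (p.2.map p.1.mkQ : Submodule D (EM D π l ⧸ p.1)) ≃ₗ[D] EM D π ν :=
      (e.submoduleMap (p.2.map p.1.mkQ)).trans e'
    refine ⟨ν, ⟨e2⟩, ?_⟩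
    by_cases hlt : size ν < size l
    · exact Or.inr hlt
    · left
      have hfinQ : Finite (EM D π l ⧸ p.1) := Finite.of_surjective _ p.1.mkQ_surjective
      have h1 : Nat.card (p.2.map p.1.mkQ : Submodule D (EM D π l ⧸ p.1)) = qq D π ^ size ν := by
        rw [Nat.card_congr e2.toEquiv, hcard]
      have h2 : Nat.card (EM D π l) ≤
          Nat.card (p.2.map p.1.mkQ : Submodule D (EM D π l ⧸ p.1)) := by
        rw [h1, hcard]
        exact Nat.pow_le_pow_right (two_le_qq D π).le (by omega)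
      have h3 : Nat.card (p.2.map p.1.mkQ : Submodule D (EM D π l ⧸ p.1)) ≤
          Nat.card (EM D π l ⧸ p.1) :=
        Nat.card_le_card_of_injective _ Subtype.val_injective
      have h4 : Nat.card (EM D π l ⧸ p.1) ≤ Nat.card (EM D π l) :=
        Nat.card_le_card_of_surjective _ p.1.mkQ_surjective
      have b1 : Function.Bijective p.1.mkQ :=
        Function.Surjective.bijective_of_nat_card_le p.1.mkQ_surjective (by omega)
      have b2 : Function.Bijective (p.2.map p.1.mkQ).subtype :=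
        Function.Injective.bijective_of_nat_card_le Subtype.val_injective (by omega)
      exact huniq ν l ⟨e2.symm.trans ((LinearEquiv.ofBijective _ b2).trans
        (LinearEquiv.ofBijective _ b1).symm)⟩
  choose tc htc1 htc2 using hC
  -- the function `g`
  let g : FS D π r d n → (EM D π l →ₗ[D] RD D π r d) → ℝ := fun W β =>
    ∑ W' : FS D π r d n, if ∀ a, β a ∈ W'.1 then t (ty D π d r ↥(W.1 ⊓ W'.1)) else 0
  have horbit : ∀ (W W1 : FS D π r d n) (β β1 : EM D π l →ₗ[D] RD D π r d),
      LinearMap.ker β = LinearMap.ker β1 → W.1.comap β = W1.1.comap β1 → g W β = g W1 β1 := by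
    intro W W1 β β1 hk hc
    obtain ⟨γ, hγ1, hγ2⟩ := horb r d n W W1 (EM D π l) β β1 hk hc
    let Φ : FS D π r d n ≃ FS D π r d n :=
      { toFun := fun V => ⟨V.1.map γ.toLinearMap, by
          obtain ⟨e⟩ := V.2
          exact ⟨(γ.submoduleMap V.1).symm.trans e⟩⟩
        invFun := fun V => ⟨V.1.map γ.symm.toLinearMap, by
          obtain ⟨e⟩ := V.2
          exact ⟨(γ.symm.submoduleMap V.1).symm.trans e⟩⟩
        left_inv := by
          intro V
          apply Subtype.ext
          show (V.1.map γ.toLinearMap).map γ.symm.toLinearMap = V.1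
          rw [← Submodule.map_comp]
          have : (γ.symm.toLinearMap).comp γ.toLinearMap = LinearMap.id := by
            apply LinearMap.ext
            intro x
            simp
          rw [this, Submodule.map_id]
        right_inv := by
          intro V
          apply Subtype.ext
          show (V.1.map γ.symm.toLinearMap).map γ.toLinearMap = V.1
          rw [← Submodule.map_comp]
          have : (γ.toLinearMap).comp γ.symm.toLinearMap = LinearMap.id := by
            apply LinearMap.ext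
            intro x
            simp
          rw [this, Submodule.map_id] }
    show (∑ W' : FS D π r d n, if ∀ a, β a ∈ W'.1 then t (ty D π d r ↥(W.1 ⊓ W'.1)) else 0) =
      ∑ W' : FS D π r d n, if ∀ a, β1 a ∈ W'.1 then t (ty D π d r ↥(W1.1 ⊓ W'.1)) else 0
    rw [← Equiv.sum_comp Φ (fun W' : FS D π r d n =>
      if ∀ a, β1 a ∈ W'.1 then t (ty D π d r ↥(W1.1 ⊓ W'.1)) else 0)]
    apply Finset.sum_congr rfl
    intro W' _
    have hmem : (∀ a, β a ∈ W'.1) ↔ (∀ a, β1 a ∈ (Φ W').1) := by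
      apply forall_congr'
      intro a
      rw [← hγ1]
      constructor
      · intro h
        exact Submodule.mem_map_of_mem h
      · rintro ⟨x, hx, hxe⟩
        have : x = β a := γ.injective hxe
        rw [← this]
        exact hx
    have hty : ty D π d r ↥(W.1 ⊓ W'.1) = ty D π d r ↥(W1.1 ⊓ (Φ W').1) := by
      have h1 : (W.1 ⊓ W'.1).map γ.toLinearMap = W1.1 ⊓ (Φ W').1 := by
        rw [← hγ2]
        exact Submodule.map_inf _ γ.injective
      rw [← h1]
      exact ty_congr D π d r _ _ (γ.submoduleMap (W.1 ⊓ W'.1))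
    simp only [hmem, hty]
  let G : Submodule D (EM D π l) × Submodule D (EM D π l) → ℝ := fun p =>
    if h : ∃ x : FS D π r d n × (EM D π l →ₗ[D] RD D π r d),
      LinearMap.ker x.2 = p.1 ∧ x.1.1.comap x.2 = p.2 then g h.choose.1 h.choose.2 else 0
  have hG : ∀ (W : FS D π r d n) (β : EM D π l →ₗ[D] RD D π r d),
      g W β = G (LinearMap.ker β, W.1.comap β) := by
    intro W β
    have h : ∃ x : FS D π r d n × (EM D π l →ₗ[D] RD D π r d),
      LinearMap.ker x.2 = LinearMap.ker β ∧ x.1.1.comap x.2 = W.1.comap β := ⟨(W, β), rfl, rfl⟩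
    show g W β = dite _ _ _
    rw [dif_pos h]
    exact horbit _ _ _ _ h.choose_spec.1.symm h.choose_spec.2.symm
  obtain ⟨m, hm⟩ := moeb G
  refine ⟨fun ν => ∑ p, if tc p = ν then
    m p * (KK D π r n (EM D π l) p.1 p.2 : ℝ) else 0, ?_, ?_⟩
  · intro ν hν
    by_contra hcon
    apply hν
    apply Finset.sum_eq_zero
    intro p _
    rw [if_neg]
    intro h
    apply hcon
    rw [← h]
    exact htc2 p
  intro W W''
  -- the right side
  have hR : (∑ ν, (∑ p, if tc p = ν then m p * (KK D π r n (EM D π l) p.1 p.2 : ℝ) else 0) *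
      (Nat.card (EM D π ν →ₗ[D] ↥(W.1 ⊓ W''.1)) : ℝ)) =
      ∑ p, m p * ((Nat.card {β : EM D π l →ₗ[D] RD D π r d // (∀ a, β a ∈ W''.1) ∧
        p.1 ≤ LinearMap.ker β ∧ p.2 ≤ W.1.comap β} : ℕ) : ℝ) := by
    simp only [Finset.sum_mul]
    rw [Finset.sum_comm]
    apply Finset.sum_congr rfl
    intro p _
    have h1 : (∑ ν, (if tc p = ν then m p * (KK D π r n (EM D π l) p.1 p.2 : ℝ) else 0) *
        (Nat.card (EM D π ν →ₗ[D] ↥(W.1 ⊓ W''.1)) : ℝ)) =
        m p * (KK D π r n (EM D π l) p.1 p.2 : ℝ) *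
          (Nat.card (EM D π (tc p) →ₗ[D] ↥(W.1 ⊓ W''.1)) : ℝ) := by
      rw [Finset.sum_eq_single (tc p)]
      · rw [if_pos rfl]
      · intro ν _ hν
        rw [if_neg (Ne.symm hν), zero_mul]
      · intro h
        exact absurd (Finset.mem_univ _) h
    obtain ⟨e⟩ := htc1 p
    rw [h1, card_N D π r d n hE (EM D π l) (EM_tors D π l) W W'' p.1 p.2, Nat.cast_mul, mul_assoc]
    congr 3
    apply Nat.card_congr
    exact ⟨fun f => f.comp e.toLinearMap, fun f => f.comp e.symm.toLinearMap,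
      fun f => by
        apply LinearMap.ext
        intro a
        show f (e (e.symm a)) = f a
        rw [LinearEquiv.apply_symm_apply],
      fun f => by
        apply LinearMap.ext
        intro a
        show f (e.symm (e a)) = f a
        rw [LinearEquiv.symm_apply_apply]⟩
  rw [hR]
  -- the left side
  have hL1 : ∀ W' : FS D π r d n, (Nat.card (EM D π l →ₗ[D] ↥(W'.1 ⊓ W''.1)) : ℝ) =
      ∑ β : EM D π l →ₗ[D] RD D π r d, if (∀ a, β a ∈ W'.1) ∧ (∀ a, β a ∈ W''.1) then 1 else 0 := by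
    intro W'
    rw [Nat.card_congr (homSub D (EM D π l) (RD D π r d) (W'.1 ⊓ W''.1)), Nat.card_eq_fintype_card,
      Fintype.card_subtype, Finset.card_filter]
    push_cast
    apply Finset.sum_congr rfl
    intro β _
    have : (∀ a, β a ∈ W'.1 ⊓ W''.1) ↔ ((∀ a, β a ∈ W'.1) ∧ (∀ a, β a ∈ W''.1)) := by
      simp only [Submodule.mem_inf]
      exact forall_and
    simp only [this]
  have hL2 : (∑ W' : FS D π r d n, t (ty D π d r ↥(W.1 ⊓ W'.1)) *
      (Nat.card (EM D π l →ₗ[D] ↥(W'.1 ⊓ W''.1)) : ℝ)) =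
      ∑ β : EM D π l →ₗ[D] RD D π r d, if (∀ a, β a ∈ W''.1) then g W β else 0 := by
    simp only [hL1, Finset.mul_sum]
    rw [Finset.sum_comm]
    apply Finset.sum_congr rfl
    intro β _
    by_cases h : ∀ a, β a ∈ W''.1
    · rw [if_pos h]
      apply Finset.sum_congr rfl
      intro W' _
      by_cases h2 : ∀ a, β a ∈ W'.1
      · rw [if_pos ⟨h2, h⟩, if_pos h2, mul_one]
      · rw [if_neg (fun hh => h2 hh.1), if_neg h2, mul_zero]
    · rw [if_neg h]
      apply Finset.sum_eq_zero
      intro W' _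
      rw [if_neg (fun hh => h hh.2), mul_zero]
  rw [hL2]
  have hL3 : ∀ β : EM D π l →ₗ[D] RD D π r d, (if (∀ a, β a ∈ W''.1) then g W β else 0) =
      ∑ p : Submodule D (EM D π l) × Submodule D (EM D π l), m p *
        (if (∀ a, β a ∈ W''.1) ∧ p.1 ≤ LinearMap.ker β ∧ p.2 ≤ W.1.comap β then 1 else 0) := by
    intro β
    by_cases h : ∀ a, β a ∈ W''.1
    · rw [if_pos h, hG, hm]
      apply Finset.sum_congr rfl
      intro p _
      have : (p ≤ (LinearMap.ker β, W.1.comap β)) ↔
          ((∀ a, β a ∈ W''.1) ∧ p.1 ≤ LinearMap.ker β ∧ p.2 ≤ W.1.comap β) := by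
        constructor
        · intro h2
          exact ⟨h, h2.1, h2.2⟩
        · intro h2
          exact ⟨h2.2.1, h2.2.2⟩
      by_cases h3 : p ≤ (LinearMap.ker β, W.1.comap β)
      · rw [if_pos h3, if_pos (this.mp h3), mul_one]
      · rw [if_neg h3, if_neg (fun h4 => h3 (this.mpr h4)), mul_zero]
    · rw [if_neg h]
      symm
      apply Finset.sum_eq_zero
      intro p _
      rw [if_neg (fun hh => h hh.1), mul_zero]
  simp only [hL3]
  rw [Finset.sum_comm]
  apply Finset.sum_congr rfl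
  intro p _
  rw [← Finset.mul_sum, Nat.card_eq_fintype_card, Fintype.card_subtype, Finset.card_filter]
  push_cast
  rfl

end Pool.Agent.R671.IS
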