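import Pool.Agent.R671.IS.Free
import Pool.Agent.R671.IS.I2
import Pool.Agent.R671.IS.I3
import Pool.Agent.R671.IS.I4
import Pool.Agent.R671.IS.I5
import Pool.Agent.R671.IS.I6
import Pool.Agent.R671.IS.I7
import Pool.Agent.R671.IS.I8
import Pool.Agent.R671.IS.I9
import Pool.Agent.R671.IS.I10
import Pool.Agent.R671.IS.I11
import Pool.Agent.R671.IS.I12

/-! The pieces with their final statements. -/

open Module
namespace Pool.Agent.R671.IS.Glue

theorem ext_aut (D : Type) [CommRing D] (π : D) [Unif D π] (r k : ℕ)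
    (S : Submodule D (RD D π r k)) (θ : S →ₗ[D] RD D π r k) (hθ : Function.Injective θ) :
    ∃ γ : RD D π r k ≃ₗ[D] RD D π r k, ∀ s : S, γ s = θ s :=
  ext_aut_of D π (fun j A _ _ _ hA S f => ext_E D π j A hA S f) r k S θ hθ

theorem card_FS_universal (D : Type) [CommRing D] (π : D) [Unif D π] (D' : Type) [CommRing D']
    (π' : D') [Unif D' π'] (hq : qq D π = qq D' π') (r d n : ℕ) (hn : n ≤ d) :
    Nat.card (FS D π r d n) = Nat.card (FS D' π' r d n) :=
  IS.card_FS_universal (fun D _ π _ D' _ π' _ hq _ _ l m => ldu D π D' π' hq l m)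
    D π D' π' hq r d n hn

theorem over_universal (D : Type) [CommRing D] (π : D) [Unif D π] (D' : Type) [CommRing D']
    (π' : D') [Unif D' π'] (hq : qq D π = qq D' π') (r d n : ℕ) (hn : n ≤ d) (ν : Ty d r)
    (S : Submodule D (RD D π r d)) (hS : HasTy D π S ν)
    (S' : Submodule D' (RD D' π' r d)) (hS' : HasTy D' π' S' ν) :
    Nat.card {W : FS D π r d n // S ≤ W.1} = Nat.card {W : FS D' π' r d n // S' ≤ W.1} :=
  IS.over_universal (fun D _ π _ D' _ π' _ hq _ _ l m => ldu D π D' π' hq l m)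
    (fun D _ π _ r k S θ hθ => ext_aut D π r k S θ hθ)
    D π D' π' hq r d n hn ν S hS S' hS'

theorem T_universal (D : Type) [CommRing D] (π : D) [Unif D π] (D' : Type) [CommRing D']
    (π' : D') [Unif D' π'] (hq : qq D π = qq D' π') (r d n : ℕ) (hn : n ≤ d) (κ : Ty d r) :
    Nat.card {p : FS D π r d n × FS D π r d n // HasTy D π ↥(p.1.1 ⊓ p.2.1) κ} =
      Nat.card {p : FS D' π' r d n × FS D' π' r d n // HasTy D' π' ↥(p.1.1 ⊓ p.2.1) κ} :=
  IS.T_universal (fun D _ π _ _ _ l S => exists_ty_sub D π l S)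
    (fun D _ π _ _ _ l m => card_hom D π l m)
    (fun D _ π _ _ _ l m e => ty_unique D π l m e)
    (fun D _ π _ D' _ π' _ hq _ _ l m => ldu D π D' π' hq l m)
    (fun D _ π _ _ _ t => hom_span D π t)
    (fun D _ π _ D' _ π' _ hq r d n hn ν S hS S' hS' =>
      over_universal D π D' π' hq r d n hn ν S hS S' hS')
    D π D' π' hq r d n hn κ

theorem IDL (D : Type) [CommRing D] (π : D) [Unif D π] (r d n : ℕ)
    [Fintype (FS D π r d n)] (t : Ty d r → ℝ) (l : Ty d r) :
    ∃ a : Ty d r → ℝ, (∀ ν, a ν ≠ 0 → ν = l ∨ size ν < size l) ∧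
      ∀ W W'' : FS D π r d n,
        ∑ W' : FS D π r d n, t (ty D π d r ↥(W.1 ⊓ W'.1)) *
          (Nat.card (EM D π l →ₗ[D] ↥(W'.1 ⊓ W''.1)) : ℝ) =
        ∑ ν, a ν * (Nat.card (EM D π ν →ₗ[D] ↥(W.1 ⊓ W''.1)) : ℝ) :=
  IDL_of D π (fun j A _ _ _ hA S f => ext_E D π j A hA S f)
    (fun l => card_EM D π l) (fun l S => exists_ty_sub D π l S)
    (fun l K => exists_ty_quo D π l K) (fun l m e => ty_unique D π l m e)
    (fun r d n W W1 A _ _ _ β β1 hk hc =>
      orbit_of D π r (fun k S θ hθ => ext_aut D π r k S θ hθ) d n W W1 A β β1 hk hc)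
    r d n t l

end Pool.Agent.R671.IS.Glue
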