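import Pool.Agent.R671.IS.Defs

open Module

namespace Pool.Agent.R671.IS

theorem I1.reg_pow (D : Type) [CommRing D] (π : D) [h : Unif D π] (i : ℕ) (x y : D)
    (hxy : π ^ i * x = π ^ i * y) : x = y := by
  induction i with
  | zero => simpa using hxy
  | succ i ih =>
    apply ih
    have h1 : π * (π ^ i * x - π ^ i * y) = 0 := by
      have : π * (π ^ i * x - π ^ i * y) = π ^ (i + 1) * x - π ^ (i + 1) * y := by ring
      rw [this, hxy, sub_self]
    exact sub_eq_zero.1 (h.reg _ h1)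

theorem I1.decomp (D : Type) [CommRing D] (π : D) (c : D) (j : ℕ) :
    (∃ w, c = π ^ j * w) ∨ ∃ m, m < j ∧ ∃ u, u ∉ Ideal.span {π} ∧ c = π ^ m * u := by
  induction j with
  | zero => exact Or.inl ⟨c, by simp⟩
  | succ j ih =>
    rcases ih with ⟨u, hu⟩ | ⟨m, hm, u, hu1, hu2⟩
    · by_cases h : u ∈ Ideal.span {π}
      · obtain ⟨v, rfl⟩ := Ideal.mem_span_singleton'.1 h
        exact Or.inl ⟨v, by rw [hu]; ring⟩
      · exact Or.inr ⟨j, Nat.lt_succ_self j, u, h, hu⟩
    · exact Or.inr ⟨m, hm.trans (Nat.lt_succ_self j), u, hu1, hu2⟩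

theorem I1.unit (D : Type) [CommRing D] (π : D) [h : Unif D π] (u : D)
    (hu : u ∉ Ideal.span {π}) (j : ℕ) : ∃ a b : D, a * u + b * π ^ j = 1 := by
  obtain ⟨y, i, hi, hy⟩ := h.max.exists_inv hu
  obtain ⟨w, rfl⟩ := Ideal.mem_span_singleton'.1 hi
  have h1 : IsCoprime u π := ⟨y, w, hy⟩
  obtain ⟨a, b, hab⟩ := h1.pow_right (n := j)
  exact ⟨a, b, hab⟩

/-- one step of the extension -/
theorem I1.step (D : Type) [CommRing D] (π : D) [Unif D π] (j : ℕ) (A : Type) [AddCommGroup A]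
    [Module D A] (hA : ∀ a : A, π ^ j • a = 0) (T : Submodule D A)
    (g : T →ₗ[D] E D π j) (a : A) : ∃ (T' : Submodule D A) (g' : T' →ₗ[D] E D π j),
      a ∈ T' ∧ ∃ hT : T ≤ T', ∀ t : T, g' ⟨t.1, hT t.2⟩ = g t := by
  classical
  have hex : ∃ i, π ^ i • a ∈ T := ⟨j, by rw [hA]; exact T.zero_mem⟩
  set i := Nat.find hex with hi
  have hiT : π ^ i • a ∈ T := Nat.find_spec hex
  have hij : i ≤ j := Nat.find_min' hex (by rw [hA]; exact T.zero_mem)
  -- the value at π^i a
  obtain ⟨Y, hY⟩ := Ideal.Quotient.mk_surjective (g ⟨π ^ i • a, hiT⟩)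
  have h1 : π ^ (j - i) • g ⟨π ^ i • a, hiT⟩ = 0 := by
    rw [← map_smul]
    have : π ^ (j - i) • (⟨π ^ i • a, hiT⟩ : T) = 0 := by
      apply Subtype.ext
      show π ^ (j - i) • (π ^ i • a) = 0
      rw [smul_smul, ← pow_add, Nat.sub_add_cancel hij]
      exact hA a
    rw [this, map_zero]
  obtain ⟨W, hW⟩ : ∃ W, Y = π ^ i * W := by
    rw [← hY] at h1
    have h2 : (Ideal.Quotient.mk (Ideal.span {π ^ j})) (π ^ (j - i) * Y) = 0 := by
      rw [← h1]
      rfl
    rw [Ideal.Quotient.eq_zero_iff_mem] at h2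
    obtain ⟨W, hW⟩ := Ideal.mem_span_singleton'.1 h2
    refine ⟨W, ?_⟩
    apply I1.reg_pow D π (j - i)
    rw [← hW, ← mul_assoc, ← pow_add, Nat.sub_add_cancel hij, mul_comm]
  set z : E D π j := Ideal.Quotient.mk _ W with hz
  have hzj : π ^ j • z = 0 := by
    have : π ^ j • z = (Ideal.Quotient.mk (Ideal.span {π ^ j})) (π ^ j * W) := rfl
    rw [this, Ideal.Quotient.eq_zero_iff_mem]
    exact Ideal.mem_span_singleton'.2 ⟨W, by ring⟩
  have hzi : g ⟨π ^ i • a, hiT⟩ = π ^ i • z := by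
    rw [← hY, hW]
    rfl
  -- compatibility
  have hcomp : ∀ (c : D) (hc : c • a ∈ T), g ⟨c • a, hc⟩ = c • z := by
    intro c hc
    rcases I1.decomp D π c j with ⟨w, rfl⟩ | ⟨m, hm, u, hu, rfl⟩
    · have h3 : (⟨(π ^ j * w) • a, hc⟩ : T) = 0 := by
        apply Subtype.ext
        show (π ^ j * w) • a = 0
        rw [mul_comm, mul_smul, hA, smul_zero]
      rw [h3, map_zero, mul_comm, mul_smul, hzj, smul_zero]
    · obtain ⟨v, b, hvb⟩ := I1.unit D π u hu j
      have hmT : π ^ m • a ∈ T := by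
        have h3 : π ^ m • a = v • ((π ^ m * u) • a) + (π ^ m * b) • (π ^ j • a) := by
          rw [smul_smul, smul_smul, ← add_smul]
          congr 1
          calc π ^ m = π ^ m * (v * u + b * π ^ j) := by rw [hvb, mul_one]
            _ = _ := by ring
        rw [h3, hA, smul_zero, add_zero]
        exact T.smul_mem v hc
      have him : i ≤ m := Nat.find_min' hex hmT
      have h4 : (⟨(π ^ m * u) • a, hc⟩ : T) = (π ^ (m - i) * u) • ⟨π ^ i • a, hiT⟩ := by
        apply Subtype.ext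
        show (π ^ m * u) • a = (π ^ (m - i) * u) • (π ^ i • a)
        rw [smul_smul]
        congr 1
        have : π ^ m = π ^ (m - i) * π ^ i := by rw [← pow_add, Nat.sub_add_cancel him]
        rw [this]
        ring
      rw [h4, map_smul, hzi, smul_smul]
      congr 1
      have : π ^ m = π ^ (m - i) * π ^ i := by rw [← pow_add, Nat.sub_add_cancel him]
      rw [this]
      ring
  -- the extension
  let φ : (T × D) →ₗ[D] A := LinearMap.coprod T.subtype (LinearMap.toSpanSingleton D A a)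
  let ψ : (T × D) →ₗ[D] E D π j := LinearMap.coprod g (LinearMap.toSpanSingleton D (E D π j) z)
  have hφ : ∀ (t : T) (c : D), φ (t, c) = t.1 + c • a := by
    intro t c
    simp [φ]
  have hψ : ∀ (t : T) (c : D), ψ (t, c) = g t + c • z := by
    intro t c
    simp [ψ]
  have hker : LinearMap.ker φ ≤ LinearMap.ker ψ := by
    rintro ⟨t, c⟩ h
    rw [LinearMap.mem_ker, hφ] at h
    rw [LinearMap.mem_ker, hψ]
    have hc : c • a ∈ T := by
      have : c • a = -t.1 := by
        rw [eq_neg_iff_add_eq_zero, add_comm]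
        exact h
      rw [this]
      exact T.neg_mem t.2
    rw [← hcomp c hc, ← map_add]
    have : t + ⟨c • a, hc⟩ = 0 := Subtype.ext h
    rw [this, map_zero]
  let g' : LinearMap.range φ →ₗ[D] E D π j :=
    ((LinearMap.ker φ).liftQ ψ hker).comp (φ.quotKerEquivRange.symm : _ →ₗ[D] _)
  have hg' : ∀ x : T × D, g' ⟨φ x, x, rfl⟩ = ψ x := by
    intro x
    show ((LinearMap.ker φ).liftQ ψ hker) (φ.quotKerEquivRange.symm ⟨φ x, x, rfl⟩) = ψ x
    have : φ.quotKerEquivRange.symm ⟨φ x, x, rfl⟩ = (LinearMap.ker φ).mkQ x := by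
      rw [LinearEquiv.symm_apply_eq]
      rfl
    rw [this]
    rfl
  refine ⟨LinearMap.range φ, g', ⟨(0, 1), by rw [hφ]; simp⟩, ?_, ?_⟩
  · intro t ht
    exact ⟨(⟨t, ht⟩, 0), by rw [hφ]; simp⟩
  · intro t
    have h5 := hg' (t, 0)
    rw [hψ, zero_smul, add_zero] at h5
    rw [← h5]
    congr 1
    apply Subtype.ext
    show t.1 = φ (t, 0)
    rw [hφ]
    simp

theorem ext_E (D : Type) [CommRing D] (π : D) [Unif D π] (j : ℕ) (A : Type) [AddCommGroup A]
    [Module D A] [Finite A] (hA : ∀ a : A, π ^ j • a = 0) (S : Submodule D A)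
    (f : S →ₗ[D] E D π j) : ∃ g : A →ₗ[D] E D π j, ∀ s : S, g s = f s := by
  classical
  -- extensions of f with domains of every possible size
  have key : ∀ n : ℕ, ∃ (T : Submodule D A) (g : T →ₗ[D] E D π j), (∃ hT : S ≤ T,
      ∀ s : S, g ⟨s.1, hT s.2⟩ = f s) ∧ (T = ⊤ ∨ n ≤ Nat.card T) := by
    intro n
    induction n with
    | zero => exact ⟨S, f, ⟨le_rfl, fun s => rfl⟩, Or.inr (Nat.zero_le _)⟩
    | succ n ih =>
      obtain ⟨T, g, ⟨hT, hg⟩, h⟩ := ih
      by_cases htop : T = ⊤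
      · exact ⟨T, g, ⟨hT, hg⟩, Or.inl htop⟩
      · have hn : n ≤ Nat.card T := h.resolve_left htop
        obtain ⟨a, ha⟩ : ∃ a, a ∉ T := by
          by_contra hc
          push Not at hc
          exact htop (eq_top_iff.2 fun x _ => hc x)
        obtain ⟨T', g', haT, hTT, hgg⟩ := I1.step D π j A hA T g a
        refine ⟨T', g', ⟨hT.trans hTT, fun s => ?_⟩, Or.inr ?_⟩
        · have := hgg ⟨s.1, hT s.2⟩
          rw [hg] at this
          exact this
        · have hlt : (T : Set A).ncard < (T' : Set A).ncard := by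
            apply Set.ncard_lt_ncard _ (Set.toFinite _)
            refine ⟨hTT, fun hsub => ha (hsub haT)⟩
          have e1 : Nat.card T = (T : Set A).ncard := rfl
          have e2 : Nat.card T' = (T' : Set A).ncard := rfl
          omega
  obtain ⟨T, g, ⟨hT, hg⟩, h⟩ := key (Nat.card A + 1)
  have htop : T = ⊤ := by
    rcases h with h | h
    · exact h
    · exfalso
      have : Nat.card T ≤ Nat.card A := Nat.card_le_card_of_injective _ Subtype.val_injective
      omega
  subst htop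
  refine ⟨g.comp ((LinearMap.id : A →ₗ[D] A).codRestrict ⊤ fun _ => trivial), fun s => ?_⟩
  rw [← hg s]
  rfl

end Pool.Agent.R671.IS
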