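import Pool.Agent.R671.IS.Defs

open Module
namespace Pool.Agent.R671.IS

/-! ### Abstract uniqueness of LDU decompositions -/

theorem ldu_abs {L : Type} [Fintype L] (s : L → ℕ) (Q S Q' S' : L → L → ℕ) (A A' : L → ℕ)
    (hQ : ∀ l n, Q l n ≠ 0 → n = l ∨ s n < s l) (hQ1 : ∀ l, Q l l = 1)
    (hS : ∀ n m, S n m ≠ 0 → n = m ∨ s n < s m) (hS1 : ∀ l, S l l = 1)
    (hA : ∀ n, 0 < A n)
    (hQ' : ∀ l n, Q' l n ≠ 0 → n = l ∨ s n < s l) (hQ1' : ∀ l, Q' l l = 1)
    (hS' : ∀ n m, S' n m ≠ 0 → n = m ∨ s n < s m) (hS1' : ∀ l, S' l l = 1)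
    (h : ∀ l m, ∑ n, Q l n * A n * S n m = ∑ n, Q' l n * A' n * S' n m) :
    ∀ k, ∀ n, s n = k → A n = A' n ∧ (∀ l, Q l n = Q' l n) ∧ (∀ m, S n m = S' n m) := by
  classical
  intro k
  induction k using Nat.strong_induction_on with
  | _ k ih =>
    intro n hn
    have ihn : ∀ j, s j < s n → A j = A' j ∧ (∀ l, Q l j = Q' l j) ∧ (∀ m, S j m = S' j m) :=
      fun j hj => ih (s j) (hn ▸ hj) j rfl
    have key : ∀ l m, (∀ j, j ≠ n → ¬ s j < s n → Q l j * A j * S j m = 0) →
        (∀ j, j ≠ n → ¬ s j < s n → Q' l j * A' j * S' j m = 0) →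
        Q l n * A n * S n m = Q' l n * A' n * S' n m := by
      intro l m h1 h2
      have h3 := h l m
      rw [← Finset.add_sum_erase _ _ (Finset.mem_univ n),
        ← Finset.add_sum_erase (a := n) _ (fun n => Q' l n * A' n * S' n m) (Finset.mem_univ n)] at h3
      have h4 : ∑ j ∈ Finset.univ.erase n, Q l j * A j * S j m =
          ∑ j ∈ Finset.univ.erase n, Q' l j * A' j * S' j m := by
        refine Finset.sum_congr rfl fun j hj => ?_
        have hj' : j ≠ n := Finset.ne_of_mem_erase hj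
        by_cases hs : s j < s n
        · obtain ⟨a1, a2, a3⟩ := ihn j hs
          rw [a1, a2, a3]
        · rw [h1 j hj' hs, h2 j hj' hs]
      omega
    have hAA : A n = A' n := by
      have := key n n (fun j hj hs => by
          by_contra hne
          have : Q n j ≠ 0 := by
            rintro h0; apply hne; simp [h0]
          rcases hQ n j this with h1 | h1
          · exact hj h1
          · exact hs h1) (fun j hj hs => by
          by_contra hne
          have : Q' n j ≠ 0 := by
            rintro h0; apply hne; simp [h0]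
          rcases hQ' n j this with h1 | h1
          · exact hj h1
          · exact hs h1)
      simpa [hQ1, hS1, hQ1', hS1'] using this
    refine ⟨hAA, ?_, ?_⟩
    · intro l
      have := key l n (fun j hj hs => by
          by_contra hne
          have : S j n ≠ 0 := by
            rintro h0; apply hne; simp [h0]
          rcases hS j n this with h1 | h1
          · exact hj h1
          · exact hs h1) (fun j hj hs => by
          by_contra hne
          have : S' j n ≠ 0 := by
            rintro h0; apply hne; simp [h0]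
          rcases hS' j n this with h1 | h1
          · exact hj h1
          · exact hs h1)
      rw [hS1, hS1', mul_one, mul_one, ← hAA] at this
      exact Nat.eq_of_mul_eq_mul_right (hA n) this
    · intro m
      have := key n m (fun j hj hs => by
          by_contra hne
          have : Q n j ≠ 0 := by
            rintro h0; apply hne; simp [h0]
          rcases hQ n j this with h1 | h1
          · exact hj h1
          · exact hs h1) (fun j hj hs => by
          by_contra hne
          have : Q' n j ≠ 0 := by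
            rintro h0; apply hne; simp [h0]
          rcases hQ' n j this with h1 | h1
          · exact hj h1
          · exact hs h1)
      rw [hQ1, hQ1', one_mul, one_mul, ← hAA] at this
      exact Nat.eq_of_mul_eq_mul_left (hA n) this

theorem span_abs {L : Type} [Fintype L] (s : L → ℕ) (Q S : L → L → ℕ) (A : L → ℕ)
    (hQ : ∀ l n, Q l n ≠ 0 → n = l ∨ s n < s l) (hQ1 : ∀ l, Q l l = 1)
    (hS : ∀ n m, S n m ≠ 0 → n = m ∨ s n < s m) (hS1 : ∀ l, S l l = 1)
    (hA : ∀ n, 0 < A n) (H : L → L → ℕ) (hH : ∀ l m, H l m = ∑ n, Q l n * A n * S n m)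
    (t : L → ℝ) : ∃ a : L → ℝ, ∀ m, t m = ∑ l, a l * (H l m : ℝ) := by
  classical
  let MQ : Matrix L L ℝ := Matrix.of fun l n => (Q l n : ℝ)
  let MS : Matrix L L ℝ := Matrix.of fun l n => (S l n : ℝ)
  let MA : Matrix L L ℝ := Matrix.diagonal fun n => (A n : ℝ)
  have uQ : IsUnit MQ := by
    rw [← Matrix.mulVec_injective_iff_isUnit]
    rw [← Matrix.coe_mulVecLin]
    rw [← LinearMap.ker_eq_bot, LinearMap.ker_eq_bot']
    intro v hv
    have hv' : ∀ l, ∑ n, (Q l n : ℝ) * v n = 0 := fun l => by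
      have := congrFun hv l
      simpa [Matrix.mulVecLin_apply, Matrix.mulVec, dotProduct, MQ] using this
    have : ∀ k, ∀ l, s l = k → v l = 0 := by
      intro k
      induction k using Nat.strong_induction_on with
      | _ k ih =>
        intro l hl
        have h1 := hv' l
        rw [Finset.sum_eq_single l] at h1
        · simpa [hQ1] using h1
        · intro j _ hj
          by_cases h0 : Q l j = 0
          · simp [h0]
          · rcases hQ l j h0 with h2 | h2
            · exact absurd h2 hj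
            · rw [ih (s j) (hl ▸ h2) j rfl, mul_zero]
        · simp
    funext l
    exact this _ l rfl
  have uS : IsUnit MS := by
    rw [← Matrix.vecMul_injective_iff_isUnit]
    rw [← Matrix.coe_vecMulLinear]
    rw [← LinearMap.ker_eq_bot, LinearMap.ker_eq_bot']
    intro v hv
    have hv' : ∀ m, ∑ n, v n * (S n m : ℝ) = 0 := fun l => by
      have := congrFun hv l
      simpa [Matrix.vecMul, dotProduct, MS] using this
    have : ∀ k, ∀ l, s l = k → v l = 0 := by
      intro k
      induction k using Nat.strong_induction_on with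
      | _ k ih =>
        intro l hl
        have h1 := hv' l
        rw [Finset.sum_eq_single l] at h1
        · simpa [hS1] using h1
        · intro j _ hj
          by_cases h0 : S j l = 0
          · simp [h0]
          · rcases hS j l h0 with h2 | h2
            · exact absurd h2 hj
            · rw [ih (s j) (hl ▸ h2) j rfl, zero_mul]
        · simp
    funext l
    exact this _ l rfl
  have uA : IsUnit MA := by
    rw [Matrix.isUnit_diagonal, Pi.isUnit_iff]
    intro n
    have : (A n : ℝ) ≠ 0 := by exact_mod_cast (hA n).ne'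
    exact this.isUnit
  have uH : IsUnit (MQ * MA * MS) := (uQ.mul uA).mul uS
  rw [← Matrix.vecMul_surjective_iff_isUnit] at uH
  obtain ⟨a, ha⟩ := uH t
  refine ⟨a, fun m => ?_⟩
  rw [← ha]
  have h1 : ∀ l, (MQ * MA * MS) l m = (H l m : ℝ) := by
    intro l
    rw [hH, Matrix.mul_apply]
    push_cast
    refine Finset.sum_congr rfl fun n _ => ?_
    simp [MA, MQ, MS]
  simp only [Matrix.vecMul, dotProduct]
  exact Finset.sum_congr rfl fun l _ => by rw [h1]

/-! ### The modules -/

section

variable (D : Type) [CommRing D] (π : D) [Unif D π] {d r : ℕ}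

theorem i4_one_lt_qq : 1 < qq D π := by
  have hmax := Unif.max (D := D) (π := π)
  have hfin := Unif.fin (D := D) (π := π)
  have : Nontrivial (D ⧸ Ideal.span {π}) := Ideal.Quotient.nontrivial_iff.mpr hmax.ne_top
  exact Finite.one_lt_card

instance i4_finite_EM (l : Ty d r) : Finite (EM D π l) := by
  unfold EM
  infer_instance

theorem i4_finite_hom {M N : Type} [AddCommGroup M] [Module D M] [AddCommGroup N] [Module D N]
    [Finite M] [Finite N] : Finite (M →ₗ[D] N) :=
  Finite.of_injective (fun e : M →ₗ[D] N => (e : M → N)) DFunLike.coe_injective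

theorem i4_finite_equiv {M N : Type} [AddCommGroup M] [Module D M] [AddCommGroup N] [Module D N]
    [Finite M] [Finite N] : Finite (M ≃ₗ[D] N) :=
  Finite.of_injective (fun e : M ≃ₗ[D] N => (e : M → N)) DFunLike.coe_injective

theorem i4_finite_submodule {M : Type} [AddCommGroup M] [Module D M] [Finite M] :
    Finite (Submodule D M) :=
  Finite.of_injective (fun e : Submodule D M => (e : Set M)) SetLike.coe_injective

theorem i4_quo_size (hc : ∀ l : Ty d r, Nat.card (EM D π l) = qq D π ^ size l)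
    (hu : ∀ l m : Ty d r, Nonempty (EM D π l ≃ₗ[D] EM D π m) → l = m) (l n : Ty d r)
    (h : quo D π l n ≠ 0) : n = l ∨ size n < size l := by
  have hne : Nonempty {K : Submodule D (EM D π l) // HasTy D π (EM D π l ⧸ K) n} := by
    by_contra hemp
    rw [not_nonempty_iff] at hemp
    exact h (by unfold quo; exact Nat.card_of_isEmpty)
  obtain ⟨K, ⟨e⟩⟩ := hne
  have h1 := Submodule.card_eq_card_quotient_mul_card K
  have h2 : Nat.card (EM D π l ⧸ K) = qq D π ^ size n := by
    rw [← hc n]; exact Nat.card_congr e.toEquiv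
  rw [hc l, h2] at h1
  by_cases hK : K = ⊥
  · left
    subst hK
    exact (hu l n ⟨(Submodule.quotEquivOfEqBot ⊥ rfl).symm.trans e⟩).symm
  · right
    have : Nontrivial K := (Submodule.nontrivial_iff_ne_bot).mpr hK
    have h3 : 1 < Nat.card K := Finite.one_lt_card
    have h4 : qq D π ^ size n < qq D π ^ size l := by
      rw [h1]
      have : 0 < qq D π ^ size n := pow_pos (by have := i4_one_lt_qq D π; omega) _
      nlinarith
    exact (Nat.pow_lt_pow_iff_right (i4_one_lt_qq D π)).mp h4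

theorem i4_quo_self (hc : ∀ l : Ty d r, Nat.card (EM D π l) = qq D π ^ size l) (l : Ty d r) :
    quo D π l l = 1 := by
  unfold quo
  rw [Nat.card_eq_one_iff_unique]
  refine ⟨⟨?_⟩, ⟨⟨⊥, ⟨Submodule.quotEquivOfEqBot ⊥ rfl⟩⟩⟩⟩
  have key : ∀ K : Submodule D (EM D π l), HasTy D π (EM D π l ⧸ K) l → K = ⊥ := by
    rintro K ⟨e⟩
    have h1 := Submodule.card_eq_card_quotient_mul_card K
    have h2 : Nat.card (EM D π l ⧸ K) = qq D π ^ size l := by
      rw [← hc l]; exact Nat.card_congr e.toEquiv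
    rw [hc l, h2] at h1
    by_contra hK
    have : Nontrivial K := (Submodule.nontrivial_iff_ne_bot).mpr hK
    have h3 : 1 < Nat.card K := Finite.one_lt_card
    have : 0 < qq D π ^ size l := pow_pos (by have := i4_one_lt_qq D π; omega) _
    nlinarith
  rintro ⟨K, hK⟩ ⟨K', hK'⟩
  exact Subtype.ext ((key K hK).trans (key K' hK').symm)

theorem i4_sub_size (hc : ∀ l : Ty d r, Nat.card (EM D π l) = qq D π ^ size l)
    (hu : ∀ l m : Ty d r, Nonempty (EM D π l ≃ₗ[D] EM D π m) → l = m) (n m : Ty d r)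
    (h : sub D π n m ≠ 0) : n = m ∨ size n < size m := by
  have hne : Nonempty {S : Submodule D (EM D π m) // HasTy D π S n} := by
    by_contra hemp
    rw [not_nonempty_iff] at hemp
    exact h (by unfold sub; exact Nat.card_of_isEmpty)
  obtain ⟨S, ⟨e⟩⟩ := hne
  have h2 : Nat.card S = qq D π ^ size n := by
    rw [← hc n]; exact Nat.card_congr e.toEquiv
  by_cases hS : S = ⊤
  · left
    subst hS
    exact hu n m ⟨e.symm.trans Submodule.topEquiv⟩
  · right
    have h3 : Nat.card S < Nat.card (EM D π m) := by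
      have hss : (S : Set (EM D π m)) ⊂ Set.univ := by
        rw [Set.ssubset_univ_iff]
        intro h0
        apply hS
        exact SetLike.coe_injective h0
      have := Set.ncard_lt_ncard hss
      rwa [Set.ncard_univ] at this
    rw [h2, hc m] at h3
    exact (Nat.pow_lt_pow_iff_right (i4_one_lt_qq D π)).mp h3

theorem i4_sub_self (m : Ty d r) :
    sub D π m m = 1 := by
  unfold sub
  rw [Nat.card_eq_one_iff_unique]
  refine ⟨⟨?_⟩, ⟨⟨⊤, ⟨Submodule.topEquiv⟩⟩⟩⟩
  have key : ∀ S : Submodule D (EM D π m), HasTy D π S m → S = ⊤ := by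
    rintro S ⟨e⟩
    have h2 : Nat.card S = Nat.card (EM D π m) := Nat.card_congr e.toEquiv
    apply SetLike.coe_injective
    refine Set.eq_of_subset_of_ncard_le (Set.subset_univ _) ?_
    rw [Submodule.top_coe, Set.ncard_univ, ← h2]
    rfl
  rintro ⟨K, hK⟩ ⟨K', hK'⟩
  exact Subtype.ext ((key K hK).trans (key K' hK').symm)

theorem i4_aut_pos (n : Ty d r) : 0 < aut D π n := by
  unfold aut
  have := i4_finite_equiv D (M := EM D π n) (N := EM D π n)
  have : Nonempty (EM D π n ≃ₗ[D] EM D π n) := ⟨LinearEquiv.refl _ _⟩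
  exact Nat.card_pos

theorem i4_fixed {M N P : Type} [AddCommGroup M] [Module D M] [AddCommGroup N] [Module D N]
    [AddCommGroup P] [Module D P] :
    Nat.card {f : M →ₗ[D] N // Nonempty (LinearMap.range f ≃ₗ[D] P)} =
      Nat.card {K : Submodule D M // Nonempty ((M ⧸ K) ≃ₗ[D] P)} * Nat.card (P ≃ₗ[D] P) *
        Nat.card {S : Submodule D N // Nonempty (S ≃ₗ[D] P)} := by
  classical
  rw [← Nat.card_prod, ← Nat.card_prod]
  let F : ({K : Submodule D M // Nonempty ((M ⧸ K) ≃ₗ[D] P)} × (P ≃ₗ[D] P)) ×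
      {S : Submodule D N // Nonempty (S ≃ₗ[D] P)} → (M →ₗ[D] N) := fun x =>
    x.2.1.subtype ∘ₗ (x.2.2.some.symm : P →ₗ[D] x.2.1) ∘ₗ (x.1.2 : P →ₗ[D] P) ∘ₗ
      (x.1.1.2.some : (M ⧸ x.1.1.1) →ₗ[D] P) ∘ₗ x.1.1.1.mkQ
  have Fker : ∀ x, LinearMap.ker (F x) = x.1.1.1 := by
    intro x
    ext v
    simp [F]
  have Frange : ∀ x, LinearMap.range (F x) = x.2.1 := by
    intro x
    apply le_antisymm
    · rintro _ ⟨v, rfl⟩
      simp [F]
    · intro w hw
      obtain ⟨v, hv⟩ := x.1.1.1.mkQ_surjective (x.1.1.2.some.symm (x.1.2.symm (x.2.2.some ⟨w, hw⟩)))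
      refine ⟨v, ?_⟩
      simp only [F, LinearMap.comp_apply, hv]
      simp
  symm
  apply Nat.card_congr
  refine Equiv.ofBijective (fun x => ⟨F x, ⟨(LinearEquiv.ofEq _ _ (Frange x)).trans x.2.2.some⟩⟩)
    ⟨?_, ?_⟩
  · intro x y hxy
    have hF : F x = F y := congrArg Subtype.val hxy
    obtain ⟨⟨⟨K, hK⟩, α⟩, ⟨S, hS⟩⟩ := x
    obtain ⟨⟨⟨K', hK'⟩, α'⟩, ⟨S', hS'⟩⟩ := y
    have hKK : K = K' := by
      have h1 := Fker ⟨⟨⟨K, hK⟩, α⟩, ⟨S, hS⟩⟩
      have h2 := Fker ⟨⟨⟨K', hK'⟩, α'⟩, ⟨S', hS'⟩⟩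
      rw [hF] at h1
      exact h1.symm.trans h2
    have hSS : S = S' := by
      have h1 := Frange ⟨⟨⟨K, hK⟩, α⟩, ⟨S, hS⟩⟩
      have h2 := Frange ⟨⟨⟨K', hK'⟩, α'⟩, ⟨S', hS'⟩⟩
      rw [hF] at h1
      exact h1.symm.trans h2
    subst hKK
    subst hSS
    have hα : α = α' := by
      ext p
      obtain ⟨v, hv⟩ := K.mkQ_surjective (hK.some.symm p)
      have := LinearMap.congr_fun hF v
      simp only [F, LinearMap.comp_apply, hv] at this
      simpa using this
    rw [hα]
  · rintro ⟨f, hf⟩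
    obtain ⟨e⟩ := hf
    have hK : Nonempty ((M ⧸ LinearMap.ker f) ≃ₗ[D] P) := ⟨f.quotKerEquivRange.trans e⟩
    have hS : Nonempty (LinearMap.range f ≃ₗ[D] P) := ⟨e⟩
    refine ⟨⟨⟨⟨LinearMap.ker f, hK⟩, hK.some.symm.trans (f.quotKerEquivRange.trans hS.some)⟩,
      ⟨LinearMap.range f, hS⟩⟩, ?_⟩
    apply Subtype.ext
    ext v
    simp [F]

theorem i4_hom_eq_sum
    (hu : ∀ l m : Ty d r, Nonempty (EM D π l ≃ₗ[D] EM D π m) → l = m)
    (hs : ∀ (l : Ty d r) (S : Submodule D (EM D π l)), ∃ m : Ty d r, HasTy D π S m)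
    (l m : Ty d r) :
    hom D π l m = ∑ n : Ty d r, quo D π l n * aut D π n * sub D π n m := by
  classical
  have hfin := i4_finite_hom D (M := EM D π l) (N := EM D π m)
  unfold hom
  let τ : (EM D π l →ₗ[D] EM D π m) → Ty d r := fun f => (hs m (LinearMap.range f)).choose
  have hτ : ∀ f, HasTy D π (LinearMap.range f) (τ f) := fun f =>
    (hs m (LinearMap.range f)).choose_spec
  rw [Nat.card_congr (Equiv.sigmaFiberEquiv τ).symm, Nat.card_sigma]
  refine Finset.sum_congr rfl fun n _ => ?_
  have h1 : Nat.card {f // τ f = n} = Nat.card {f : EM D π l →ₗ[D] EM D π m //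
      Nonempty (LinearMap.range f ≃ₗ[D] EM D π n)} := by
    apply Nat.card_congr
    apply Equiv.subtypeEquivRight
    intro f
    constructor
    · rintro rfl
      exact hτ f
    · rintro ⟨e⟩
      obtain ⟨e'⟩ := hτ f
      exact hu _ _ ⟨e'.symm.trans e⟩
  rw [h1, i4_fixed]
  rfl

theorem i4_hom_span (hc : ∀ l : Ty d r, Nat.card (EM D π l) = qq D π ^ size l)
    (hu : ∀ l m : Ty d r, Nonempty (EM D π l ≃ₗ[D] EM D π m) → l = m)
    (hs : ∀ (l : Ty d r) (S : Submodule D (EM D π l)), ∃ m : Ty d r, HasTy D π S m)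
    (t : Ty d r → ℝ) :
    ∃ a : Ty d r → ℝ, ∀ m, t m = ∑ l, a l * (hom D π l m : ℝ) :=
  span_abs size (fun l n => quo D π l n) (fun n m => sub D π n m) (fun n => aut D π n)
    (i4_quo_size D π hc hu) (i4_quo_self D π hc) (i4_sub_size D π hc hu) (i4_sub_self D π)
    (i4_aut_pos D π) (fun l m => hom D π l m) (i4_hom_eq_sum D π hu hs) t

theorem i4_ldu (D' : Type) [CommRing D'] (π' : D') [Unif D' π']
    (hom_eq : ∀ l m : Ty d r, hom D π l m = hom D' π' l m)
    (hc : ∀ l : Ty d r, Nat.card (EM D π l) = qq D π ^ size l)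
    (hu : ∀ l m : Ty d r, Nonempty (EM D π l ≃ₗ[D] EM D π m) → l = m)
    (hs : ∀ (l : Ty d r) (S : Submodule D (EM D π l)), ∃ m : Ty d r, HasTy D π S m)
    (hc' : ∀ l : Ty d r, Nat.card (EM D' π' l) = qq D' π' ^ size l)
    (hu' : ∀ l m : Ty d r, Nonempty (EM D' π' l ≃ₗ[D'] EM D' π' m) → l = m)
    (hs' : ∀ (l : Ty d r) (S : Submodule D' (EM D' π' l)), ∃ m : Ty d r, HasTy D' π' S m)
    (l m : Ty d r) :
    quo D π l m = quo D' π' l m ∧ sub D π l m = sub D' π' l m ∧ aut D π l = aut D' π' l := by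
  have key := ldu_abs size (fun l n => quo D π l n) (fun n m => sub D π n m)
    (fun l n => quo D' π' l n) (fun n m => sub D' π' n m) (fun n => aut D π n)
    (fun n => aut D' π' n)
    (i4_quo_size D π hc hu) (i4_quo_self D π hc) (i4_sub_size D π hc hu) (i4_sub_self D π)
    (i4_aut_pos D π)
    (i4_quo_size D' π' hc' hu') (i4_quo_self D' π' hc') (i4_sub_size D' π' hc' hu')
    (i4_sub_self D' π')
    (fun l m => by
      rw [← i4_hom_eq_sum D π hu hs, ← i4_hom_eq_sum D' π' hu' hs', hom_eq])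
  exact ⟨(key _ m rfl).2.1 l, (key _ l rfl).2.2 m, (key _ l rfl).1⟩

end

end Pool.Agent.R671.IS
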